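import Pool.Agent.W_cd7020_h81.InsV

/-!
# Absorbing the remaining vertices
-/

set_option autoImplicit false

namespace Pool.Agent.W_cd7020_h81

open Finset

variable {V κ : Type*} [DecidableEq V] [DecidableEq κ]

variable [Fintype V]

/-- Absorption: induction on the number of vertices outside `U`. For `x ∉ U`, `x = t i 0`, replace the
edge `s(t i 1, t i 2)` by `s(t i 1, t i 0)` and `s(t i 0, t i 2)` (`Cyc.insert_vertex`). Their colours are
distinct and not used (`h3`); for the other indices `j` with `t j 0 ∉ U` the edge `s(t j 1, t j 2)` is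
still in the new set (the vertices of different triangles are different) and the two special colours
of `j` are not used (the colours of different triangles are different). -/
theorem absorb (col : Sym2 V → κ) (m : ℕ) (t : Fin m → Fin 3 → V)
    (ht : Function.Injective (fun p : Fin m × Fin 3 => t p.1 p.2))
    (hc : Function.Injective (fun p : Fin m × Fin 3 => col s(t p.1 p.2, t p.1 (p.2 + 1)))) :
    ∀ (U : Finset V) (E : Finset (Sym2 V)), (∀ x, x ∉ U → ∃ i, x = t i 0) →
      Cyc U E → E.card = U.card → (∀ i, t i 0 ∉ U → s(t i 1, t i 2) ∈ E) → Rb col E →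
      (∀ e ∈ E, ∀ i, t i 0 ∉ U → col e ≠ col s(t i 0, t i 1) ∧ col e ≠ col s(t i 2, t i 0)) →
      ∃ E' : Finset (Sym2 V), Cyc univ E' ∧ E'.card = Fintype.card V ∧ Rb col E' := by
  classical
  have key : ∀ (n : ℕ) (U : Finset V) (E : Finset (Sym2 V)), (univ \ U).card = n →
      (∀ x, x ∉ U → ∃ i, x = t i 0) →
      Cyc U E → E.card = U.card → (∀ i, t i 0 ∉ U → s(t i 1, t i 2) ∈ E) → Rb col E →
      (∀ e ∈ E, ∀ i, t i 0 ∉ U → col e ≠ col s(t i 0, t i 1) ∧ col e ≠ col s(t i 2, t i 0)) →
      ∃ E' : Finset (Sym2 V), Cyc univ E' ∧ E'.card = Fintype.card V ∧ Rb col E' := by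
    intro n
    induction n with
    | zero =>
      intro U E hn _ hC hcard _ hR _
      have hU : U = univ := by
        rw [Finset.card_eq_zero, Finset.sdiff_eq_empty_iff_subset] at hn
        exact Finset.univ_subset_iff.1 hn
      subst hU
      exact ⟨E, hC, by rw [hcard, Finset.card_univ], hR⟩
    | succ n ih =>
      intro U E hn hx hC hcard h2 hR h3
      obtain ⟨v, hv⟩ : (univ \ U).Nonempty := by
        rw [← Finset.card_pos]
        omega
      rw [Finset.mem_sdiff] at hv
      obtain ⟨i, rfl⟩ := hx v hv.2
      have hv0 := hv.2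
      have hab := h2 i hv0
      have hins := hC.insert_vertex hab hv0
      have e20 : ((2 : Fin 3) + 1) = 0 := by decide
      have e01 : ((0 : Fin 3) + 1) = 1 := by decide
      -- the colours
      have hcc : ∀ (j : Fin m), col s(t i 0, t i 1) ≠ col s(t j 2, t j 0) := by
        intro j h
        have h5 : (fun p : Fin m × Fin 3 => col s(t p.1 p.2, t p.1 (p.2 + 1))) (i, 0) =
            (fun p : Fin m × Fin 3 => col s(t p.1 p.2, t p.1 (p.2 + 1))) (j, 2) := by
          change col s(t i 0, t i (0 + 1)) = col s(t j 2, t j (2 + 1))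
          rw [e20, e01]
          exact h
        have h6 := hc h5
        simp at h6
      have hcc0 : ∀ j : Fin m, j ≠ i → col s(t i 0, t i 1) ≠ col s(t j 0, t j 1) := by
        intro j hj h
        have h5 : (fun p : Fin m × Fin 3 => col s(t p.1 p.2, t p.1 (p.2 + 1))) (i, 0) =
            (fun p : Fin m × Fin 3 => col s(t p.1 p.2, t p.1 (p.2 + 1))) (j, 0) := by
          change col s(t i 0, t i (0 + 1)) = col s(t j 0, t j (0 + 1))
          rw [e01]
          exact h
        have h6 := hc h5
        simp only [Prod.mk.injEq, and_true] at h6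
        exact hj h6.symm
      have hcc2 : ∀ j : Fin m, j ≠ i → col s(t i 2, t i 0) ≠ col s(t j 2, t j 0) := by
        intro j hj h
        have h5 : (fun p : Fin m × Fin 3 => col s(t p.1 p.2, t p.1 (p.2 + 1))) (i, 2) =
            (fun p : Fin m × Fin 3 => col s(t p.1 p.2, t p.1 (p.2 + 1))) (j, 2) := by
          change col s(t i 2, t i (2 + 1)) = col s(t j 2, t j (2 + 1))
          rw [e20]
          exact h
        have h6 := hc h5
        simp only [Prod.mk.injEq, and_true] at h6
        exact hj h6.symm
      have hcc20 : ∀ j : Fin m, col s(t i 2, t i 0) ≠ col s(t j 0, t j 1) := by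
        intro j h
        have h5 : (fun p : Fin m × Fin 3 => col s(t p.1 p.2, t p.1 (p.2 + 1))) (i, 2) =
            (fun p : Fin m × Fin 3 => col s(t p.1 p.2, t p.1 (p.2 + 1))) (j, 0) := by
          change col s(t i 2, t i (2 + 1)) = col s(t j 0, t j (0 + 1))
          rw [e20, e01]
          exact h
        have h6 := hc h5
        simp at h6
      have s1 : s(t i 1, t i 0) = s(t i 0, t i 1) := Sym2.eq_swap
      have s2 : s(t i 0, t i 2) = s(t i 2, t i 0) := Sym2.eq_swap
      rw [s1, s2] at hins
      have hn1 : s(t i 2, t i 0) ∉ E.erase s(t i 1, t i 2) := by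
        intro h
        exact (h3 _ (Finset.mem_of_mem_erase h) i hv0).2 rfl
      have hn2 : s(t i 0, t i 1) ∉ insert s(t i 2, t i 0) (E.erase s(t i 1, t i 2)) := by
        rw [Finset.mem_insert]
        rintro (h | h)
        · exact hcc i (by rw [h])
        · exact (h3 _ (Finset.mem_of_mem_erase h) i hv0).1 rfl
      refine ih (insert (t i 0) U)
        (insert s(t i 0, t i 1) (insert s(t i 2, t i 0) (E.erase s(t i 1, t i 2)))) ?_ ?_ hins ?_ ?_ ?_ ?_
      · have h7 : univ \ insert (t i 0) U = (univ \ U).erase (t i 0) := by
          ext w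
          simp only [Finset.mem_sdiff, Finset.mem_univ, true_and, Finset.mem_insert, not_or,
            Finset.mem_erase]
        rw [h7, Finset.card_erase_of_mem (Finset.mem_sdiff.2 ⟨Finset.mem_univ _, hv0⟩), hn]
        omega
      · intro w hw
        rw [Finset.mem_insert, not_or] at hw
        exact hx w hw.2
      · rw [Finset.card_insert_of_notMem hn2, Finset.card_insert_of_notMem hn1,
          Finset.card_insert_of_notMem hv0, Finset.card_erase_of_mem hab, hcard]
        have : 0 < E.card := Finset.card_pos.2 ⟨_, hab⟩
        omega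
      · intro j hj
        rw [Finset.mem_insert, not_or] at hj
        have hji : j ≠ i := fun h => hj.1 (by rw [h])
        refine Finset.mem_insert_of_mem (Finset.mem_insert_of_mem (Finset.mem_erase.2 ⟨?_, h2 j hj.2⟩))
        intro h
        rw [Sym2.eq_iff] at h
        rcases h with ⟨h, _⟩ | ⟨h, _⟩
        · have h6 := ht (show (fun p : Fin m × Fin 3 => t p.1 p.2) (j, 1) =
            (fun p : Fin m × Fin 3 => t p.1 p.2) (i, 1) from h)
          simp only [Prod.mk.injEq, and_true] at h6
          exact hji h6
        · have h6 := ht (show (fun p : Fin m × Fin 3 => t p.1 p.2) (j, 1) =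
            (fun p : Fin m × Fin 3 => t p.1 p.2) (i, 2) from h)
          simp at h6
      · intro e he e' he' hee
        rw [Finset.mem_insert, Finset.mem_insert] at he he'
        rcases he with rfl | rfl | he <;> rcases he' with rfl | rfl | he'
        · rfl
        · exact absurd hee (hcc i)
        · exact absurd hee.symm (h3 _ (Finset.mem_of_mem_erase he') i hv0).1
        · exact absurd hee.symm (hcc i)
        · rfl
        · exact absurd hee.symm (h3 _ (Finset.mem_of_mem_erase he') i hv0).2
        · exact absurd hee (h3 _ (Finset.mem_of_mem_erase he) i hv0).1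
        · exact absurd hee (h3 _ (Finset.mem_of_mem_erase he) i hv0).2
        · exact hR e (Finset.mem_of_mem_erase he) e' (Finset.mem_of_mem_erase he') hee
      · intro e he j hj
        rw [Finset.mem_insert, not_or] at hj
        have hji : j ≠ i := fun h => hj.1 (by rw [h])
        rw [Finset.mem_insert, Finset.mem_insert] at he
        rcases he with rfl | rfl | he
        · exact ⟨hcc0 j hji, hcc j⟩
        · exact ⟨hcc20 j, hcc2 j hji⟩
        · exact h3 e (Finset.mem_of_mem_erase he) j hj.2
  intro U E h1 hC hcard h2 hR h3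
  exact key _ U E rfl h1 hC hcard h2 hR h3

end Pool.Agent.W_cd7020_h81
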