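import Pool.Agent.W_cd7020_h81.LFa

/-!
# Linear forests: joining two components
-/

set_option autoImplicit false

namespace Pool.Agent.W_cd7020_h81

open Finset

variable {V : Type*} [DecidableEq V]

/-- Cutting a list at all consecutive pairs which are not in `E`. -/
theorem Join_seg (E : Finset (Sym2 V)) : ∀ Q : List V, ∃ L : List (List V), L.flatten = Q ∧
    (∀ l ∈ L, l ≠ [] ∧ ∀ e ∈ pe l, e ∈ E) ∧ ∀ e ∈ pe Q, e ∈ E → ∃ l ∈ L, e ∈ pe l
  | [] => ⟨[], rfl, by simp, by simp [pe]⟩
  | [a] => ⟨[[a]], by simp, by simp [pe], by simp [pe]⟩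
  | a :: b :: l => by
    obtain ⟨L', h1, h2, h3⟩ := Join_seg E (b :: l)
    rcases L' with _ | ⟨s, L''⟩
    · simp at h1
    rcases s with _ | ⟨c, m⟩
    · exact absurd rfl (h2 [] (by simp)).1
    have hcb : c = b := by
      rw [List.flatten_cons, List.cons_append] at h1
      exact (List.cons.inj h1).1
    subst hcb
    by_cases hab : s(a, c) ∈ E
    · refine ⟨(a :: c :: m) :: L'', ?_, ?_, ?_⟩
      · rw [List.flatten_cons, List.cons_append, ← h1, List.flatten_cons]
      · intro l' hl'
        rcases List.mem_cons.1 hl' with rfl | hl'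
        · refine ⟨by simp, fun e he => ?_⟩
          rw [pe_cons_cons] at he
          rcases List.mem_cons.1 he with rfl | he
          · exact hab
          · exact (h2 (c :: m) (by simp)).2 e he
        · exact h2 l' (List.mem_cons_of_mem _ hl')
      · intro e he heE
        rw [pe_cons_cons] at he
        rcases List.mem_cons.1 he with rfl | he
        · exact ⟨_, List.mem_cons_self, by rw [pe_cons_cons]; exact List.mem_cons_self⟩
        · obtain ⟨l', hl', hel'⟩ := h3 e he heE
          rcases List.mem_cons.1 hl' with rfl | hl'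
          · exact ⟨_, List.mem_cons_self, by
              rw [pe_cons_cons]; exact List.mem_cons_of_mem _ hel'⟩
          · exact ⟨l', List.mem_cons_of_mem _ hl', hel'⟩
    · refine ⟨[a] :: (c :: m) :: L'', ?_, ?_, ?_⟩
      · rw [List.flatten_cons, h1]
        rfl
      · intro l' hl'
        rcases List.mem_cons.1 hl' with rfl | hl'
        · exact ⟨by simp, by simp [pe]⟩
        · exact h2 l' hl'
      · intro e he heE
        rw [pe_cons_cons] at he
        rcases List.mem_cons.1 he with rfl | he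
        · exact absurd heE hab
        · obtain ⟨l', hl', hel'⟩ := h3 e he heE
          exact ⟨l', List.mem_cons_of_mem _ hl', hel'⟩

/-- A vertex of degree at most one is an end of its segment. -/
theorem Join_end {E : Finset (Sym2 V)} {S : List V} (hS : S.Nodup) (hE : ∀ e ∈ pe S, e ∈ E)
    {v : V} (hv : v ∈ S) (hd : dg E v ≤ 1) : (∃ m, S = v :: m) ∨ ∃ m, S = m ++ [v] := by
  obtain ⟨l₁, l₂, rfl⟩ := List.append_of_mem hv
  rcases List.eq_nil_or_concat l₁ with rfl | ⟨l₁', a, rfl⟩
  · exact Or.inl ⟨l₂, rfl⟩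
  rcases l₂ with _ | ⟨b, l₂'⟩
  · exact Or.inr ⟨l₁' ++ [a], by simp⟩
  exfalso
  have h1 : s(a, v) ∈ E := by
    apply hE
    rw [mem_pe]
    exact ⟨l₁', a, v, b :: l₂', by simp, rfl⟩
  have h2 : s(v, b) ∈ E := by
    apply hE
    rw [mem_pe]
    exact ⟨l₁' ++ [a], v, b, l₂', by simp, rfl⟩
  have hab : a ≠ b := by
    rintro rfl
    have h3 := List.disjoint_of_nodup_append hS
    exact h3 (a := a) (by simp) (by simp)
  have hav : a ≠ v := by
    rintro rfl
    have h3 := List.disjoint_of_nodup_append hS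
    exact h3 (a := a) (by simp) (by simp)
  have hne : s(a, v) ≠ s(v, b) := by
    intro h
    rcases Sym2.eq_iff.1 h with ⟨h4, _⟩ | ⟨h4, _⟩
    · exact hav h4
    · exact hab h4
  have h3 : ({s(a, v), s(v, b)} : Finset (Sym2 V)) ⊆ E.filter (fun e => v ∈ e) := by
    intro e he
    rw [Finset.mem_insert, Finset.mem_singleton] at he
    rcases he with rfl | rfl
    · exact Finset.mem_filter.2 ⟨h1, Sym2.mem_mk_right _ _⟩
    · exact Finset.mem_filter.2 ⟨h2, Sym2.mem_mk_left _ _⟩
  have h4 := Finset.card_le_card h3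
  rw [Finset.card_pair hne] at h4
  unfold dg at hd
  omega

/-- Orientation of a segment. -/
theorem Join_orient {S : List V} {v : V} (h : (∃ m, S = v :: m) ∨ ∃ m, S = m ++ [v]) :
    (∃ m, S.Perm (v :: m) ∧ ∀ e ∈ pe S, e ∈ pe (v :: m)) ∧
      ∃ m, S.Perm (m ++ [v]) ∧ ∀ e ∈ pe S, e ∈ pe (m ++ [v]) := by
  rcases h with ⟨m, rfl⟩ | ⟨m, rfl⟩
  · refine ⟨⟨m, List.Perm.refl _, fun e he => he⟩, m.reverse, ?_, fun e he => ?_⟩
    · rw [← List.reverse_cons]
      exact (List.reverse_perm _).symm
    · rw [← List.reverse_cons, mem_pe_reverse]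
      exact he
  · refine ⟨⟨m.reverse, ?_, fun e he => ?_⟩, m, List.Perm.refl _, fun e he => he⟩
    · have h1 : v :: m.reverse = (m ++ [v]).reverse := by simp
      rw [h1]
      exact (List.reverse_perm _).symm
    · have h1 : v :: m.reverse = (m ++ [v]).reverse := by simp
      rw [h1, mem_pe_reverse]
      exact he

omit [DecidableEq V] in
theorem Join_other {S : List V} {w : V} (h : (∃ m, S = w :: m) ∨ ∃ m, S = m ++ [w]) :
    ∃ x₀, ∀ x, ((∃ m, S = x :: m) ∨ ∃ m, S = m ++ [x]) → x = w ∨ x = x₀ := by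
  rcases h with ⟨m, rfl⟩ | ⟨m, rfl⟩
  · refine ⟨(w :: m).getLast (by simp), ?_⟩
    rintro x (⟨m', h⟩ | ⟨m', h⟩)
    · exact Or.inl (List.cons.inj h).1.symm
    · right
      have h1 : (w :: m).getLast? = (m' ++ [x]).getLast? := by rw [h]
      rw [List.getLast?_eq_some_getLast (by simp), List.getLast?_concat] at h1
      exact (Option.some.inj h1).symm
  · refine ⟨(m ++ [w]).head (by simp), ?_⟩
    rintro x (⟨m', h⟩ | ⟨m', h⟩)
    · right
      have h1 : (m ++ [w]).head? = (x :: m').head? := by rw [h]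
      rw [List.head?_eq_some_head (by simp), List.head?_cons] at h1
      exact (Option.some.inj h1).symm
    · left
      have h1 : (m ++ [w]).getLast? = (m' ++ [x]).getLast? := by rw [h]
      rw [List.getLast?_concat, List.getLast?_concat] at h1
      exact (Option.some.inj h1).symm

theorem Join_mem_flatten {L : List (List V)} {l : List V} (hl : l ∈ L) {e : Sym2 V}
    (he : e ∈ pe l) : e ∈ pe L.flatten := by
  obtain ⟨L₁, L₂, rfl⟩ := List.append_of_mem hl
  rw [List.flatten_append, List.flatten_cons]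
  exact mem_pe_right _ _ _ (mem_pe_left _ _ _ he)

/-- Joining an end `w` to an end `x` of another component; `x₀` is the other end of the component
of `w`.

Proof. Let `Q` be the list. Since `dg E w ≤ 1` the edge of `Q` before or after `w` is not in `E` (or
`w` is the first or last vertex); replacing `Q` by its reverse we may assume that
`Q = l₁ ++ w :: l₂` and that the pair (`w`, head of `l₂`) is not in `E` (or `l₂ = []`). Let
`l₁ ++ [w] = l₀ ++ r` where `r` is the longest suffix with all consecutive pairs in `E`; `x₀` is the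
head of `r` (so the pair (last of `l₀`, `x₀`) is not in `E`, or `l₀ = []`).
Let `x ∈ U` be different from `w` and `x₀`, of degree at most `1`.
* If `x` is in `r`, then it is not the first and not the last element of `r`, so it has degree `2`.
* If `x` is in `l₂ = l₃ ++ x :: l₄`: if the pair before `x` is not in `E` (or `l₃ = []`), take
  `l₁ ++ w :: x :: l₄ ++ l₃` (the pairs lost: (`w`, head of `l₂`) and (last of `l₃`, `x`)). If the pair
  after `x` is not in `E` (or `l₄ = []`), take `l₁ ++ w :: x :: l₃.reverse ++ l₄`.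
* If `x` is in `l₀ = l₃ ++ x :: l₄`, then `Q = l₃ ++ x :: l₄ ++ r ++ l₂`: if the pair before `x` is not in
  `E`, take `l₃ ++ (x :: l₄).reverse ++ r.reverse ++ l₂`: the pair at the junction is (`x`, `w`), the
  pairs lost are (last `l₃`, `x`), (last `l₀`, `x₀`), (`w`, head `l₂`). If the pair after `x` is not in `E`
  (or `l₄ = []`), take `l₃ ++ [x] ++ r.reverse ++ l₄.reverse ++ l₂` (the junctions lost are
  (`x`, head `l₄`), (last `l₀`, `x₀`), (`w`, head `l₂`)). -/
theorem LF.join {U : Finset V} {E : Finset (Sym2 V)} (h : LF U E) {w : V} (hw : w ∈ U)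
    (hd : dg E w ≤ 1) :
    ∃ x₀, ∀ x ∈ U, x ≠ w → x ≠ x₀ → dg E x ≤ 1 → LF U (insert s(x, w) E) := by
  obtain ⟨Q, hQ, hU, hE⟩ := h
  obtain ⟨L, hL, hseg, hcov⟩ := Join_seg E Q
  have hmem : ∀ v ∈ U, ∃ S ∈ L, v ∈ S := by
    intro v hv
    have h1 := (hU v).2 hv
    rw [← hL, List.mem_flatten] at h1
    exact h1
  have hnd : ∀ S ∈ L, S.Nodup := by
    intro S hS
    rw [← hL] at hQ
    exact (List.nodup_flatten.1 hQ).1 S hS
  obtain ⟨Sw, hSw, hwS⟩ := hmem w hw
  have hwe := Join_end (hnd Sw hSw) (hseg Sw hSw).2 hwS hd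
  obtain ⟨x₀, hx₀⟩ := Join_other hwe
  refine ⟨x₀, fun x hx hxw hxx hdx => ?_⟩
  obtain ⟨Sx, hSx, hxS⟩ := hmem x hx
  have hxe := Join_end (hnd Sx hSx) (hseg Sx hSx).2 hxS hdx
  have hne : Sx ≠ Sw := by
    rintro rfl
    rcases hx₀ x hxe with h1 | h1
    · exact hxw h1
    · exact hxx h1
  have hp1 : L.Perm (Sw :: L.erase Sw) := List.perm_cons_erase hSw
  have hp2 : (L.erase Sw).Perm (Sx :: (L.erase Sw).erase Sx) :=
    List.perm_cons_erase ((List.mem_erase_of_ne hne).2 hSx)
  set M := (L.erase Sw).erase Sx with hM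
  have hp : L.Perm (Sw :: Sx :: M) := hp1.trans (List.Perm.cons _ hp2)
  obtain ⟨-, mw, hmw, hmw'⟩ := Join_orient hwe
  obtain ⟨⟨mx, hmx, hmx'⟩, -⟩ := Join_orient hxe
  have hperm : Q.Perm (mw ++ w :: x :: (mx ++ M.flatten)) := by
    have h1 : L.flatten.Perm (Sw :: Sx :: M).flatten := hp.flatten
    rw [hL, List.flatten_cons, List.flatten_cons] at h1
    refine h1.trans ?_
    have h2 : mw ++ w :: x :: (mx ++ M.flatten) = (mw ++ [w]) ++ ((x :: mx) ++ M.flatten) := by
      simp
    rw [h2]
    exact hmw.append (hmx.append (List.Perm.refl _))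
  refine ⟨mw ++ w :: x :: (mx ++ M.flatten), hperm.nodup_iff.1 hQ, fun v => ?_, fun e he => ?_⟩
  · rw [← hperm.mem_iff]
    exact hU v
  · rw [pe_append]
    rcases Finset.mem_insert.1 he with rfl | he
    · rw [Sym2.eq_swap]
      simp
    · obtain ⟨l, hl, hel⟩ := hcov e (hE e he) he
      have hl' : l ∈ Sw :: Sx :: M := hp.mem_iff.1 hl
      rw [List.mem_append, List.mem_cons]
      rcases List.mem_cons.1 hl' with rfl | hl'
      · exact Or.inl (hmw' e hel)
      rcases List.mem_cons.1 hl' with rfl | hl'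
      · right
        right
        have h1 : x :: (mx ++ M.flatten) = (x :: mx) ++ M.flatten := rfl
        rw [h1]
        exact mem_pe_left _ _ _ (hmx' e hel)
      · right
        right
        have h1 : x :: (mx ++ M.flatten) = (x :: mx) ++ M.flatten := rfl
        rw [h1]
        exact mem_pe_right _ _ _ (Join_mem_flatten hl' hel)

end Pool.Agent.W_cd7020_h81
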