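import Pool.Agent.W_cd7020_h81.AttachA
import Pool.Agent.W_cd7020_h81.Join

/-!
# The attachment lemma
-/

set_option autoImplicit false

namespace Pool.Agent.W_cd7020_h81

open Finset

variable {V κ : Type*} [DecidableEq V] [DecidableEq κ]

/-- The attachment lemma. `w` has degree at most one in `E` and at least `b` live edges at level
`g`. Then there is a valid `E'` with one edge more.

Proof. Strong induction on `g`. Take `x₀` from `LF.join` for `w` and `r` from `pick` (with
`C = Cs g`). `LF U' (insert s(r, w) E)` by `LF.join`.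
Case 1: no edge of `E` has the colour of `s(r, w)`. Then `E' = insert s(r, w) E`, `T' = insert r T`.
Case 2: `e' ∈ E` has the colour of `s(r, w)`. Then `e' ∈ F` by the choice of `r`, so `e' ≠ s(r, w)`,
`s(r, w) ∉ E` (`Rb`), and `e'` has no vertex in common with `s(r, w)` (`Proper`). By `Cs_edge` `e' ∉ A`
and there are `k < g`, `y ∈ e'` with `b` live edges at level `k`. Put
`E₁ = insert s(r, w) (E.erase e')`, `T₁ = insert r T`: valid, `|E₁| = |E|`, `E₁ \ F ⊆ insert s(r, w) (E \ F)`,
`dg E₁ y = dg E y - 1 ≤ 1`, `y ∉ R` by `hY`. Apply the induction hypothesis for `k` to `E₁`, `T₁`, `y`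
(here `|T₁| + k + 1 ≤ |T| + g + 1 ≤ B`). For the degree of `w`: if `w ∉ T'` then `dg E' w ≤ dg E₁ w`
(`w ≠ y`), and `dg E₁ w ≤ dg E w + 1`. For `z ∉ T'`, `z ≠ w`: if `z ≠ y` then
`dg E' z ≤ dg E₁ z ≤ dg E z` (`z ≠ r` since `r ∈ T'`); if `z = y` then
`dg E' y ≤ dg E₁ y + 1 = dg E y`. -/
theorem attach (col : Sym2 V → κ) (hcol : Proper col) (F A : Finset (Sym2 V)) (Φ : Finset κ)
    (R : Finset V) (b B : ℕ) (hb : 2 * B + 2 ≤ b) (hF : Rb col F) (hFΦ : ∀ e ∈ F, col e ∉ Φ)
    (U' : Finset V) (hRU : R ⊆ U') :
    ∀ g : ℕ,
      (∀ k < g, ∀ y, b ≤ (live col F R (Cs col F A Φ R b k) y).card → (∃ e ∈ F, y ∈ e) → y ∉ R) →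
      ∀ (E : Finset (Sym2 V)) (T : Finset V) (w : V), Valid col A Φ U' E → T.card + g + 1 ≤ B →
      (E \ F).card ≤ T.card → (∀ r ∈ R, r ∉ T → dg E r ≤ 1) → w ∈ U' → (w ∈ R → w ∈ T) →
      dg E w ≤ 1 → b ≤ (live col F R (Cs col F A Φ R b g) w).card →
      ∃ (E' : Finset (Sym2 V)) (T' : Finset V), Valid col A Φ U' E' ∧ E'.card = E.card + 1 ∧
        T ⊆ T' ∧ T'.card ≤ T.card + g + 1 ∧ T' ⊆ T ∪ R ∧ (E' \ F).card ≤ T'.card ∧
        (w ∉ T' → dg E' w ≤ dg E w + 1) ∧ ∀ z, z ∉ T' → z ≠ w → dg E' z ≤ dg E z := by
  intro g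
  induction g using Nat.strong_induction_on with
  | _ g ih =>
    intro hY E T w hE hTB hET hRd hw hwT hdw hlive
    obtain ⟨hLF, hAE, hRb, hΦE⟩ := hE
    obtain ⟨x₀, hx₀⟩ := hLF.join hw hdw
    obtain ⟨r, hrR, hrT, hrw, hrx, hrF, hrC, hrE⟩ := pick col hcol F E R T
      (Cs col F A Φ R b g) B b hb (by omega) (by omega) w x₀ hlive
    have hLF1 : LF U' (insert s(r, w) E) := hx₀ r (hRU hrR) hrw hrx (hRd r hrR hrT)
    have hΦr : col s(r, w) ∉ Φ := Cs_not col F A Φ R b hFΦ g _ hrC
    have hT1 : (insert r T).card = T.card + 1 := card_insert_of_notMem hrT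
    by_cases hcase : ∃ e' ∈ E, col e' = col s(r, w)
    · obtain ⟨e', he'E, he'c⟩ := hcase
      have he'F : e' ∈ F := by
        by_contra hcon
        exact hrE e' (mem_sdiff.2 ⟨he'E, hcon⟩) he'c
      have hne : e' ≠ s(r, w) := fun h => hrF (h ▸ he'F)
      have hrwE : s(r, w) ∉ E := fun h => hne (hRb e' he'E _ h he'c)
      -- no common vertex
      have hdisj : ∀ z, z ∈ e' → z ≠ r ∧ z ≠ w := by
        intro z hz
        have key : ∀ z u : V, z ≠ u → z ∈ e' → s(z, u) ≠ e' → col s(z, u) = col e' → False := by
          intro z u hzu hz hne' hcc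
          obtain ⟨y, rfl⟩ := Sym2.mem_iff_exists.1 hz
          obtain ⟨a, c, hac, -, -, hacE⟩ := hLF.mem he'E
          have hzy : z ≠ y := by
            rintro rfl
            have : (s(a, c) : Sym2 V).IsDiag := by
              rw [← hacE]
              exact Sym2.mk_isDiag_iff.2 rfl
            exact hac (Sym2.mk_isDiag_iff.1 this)
          have huy : u ≠ y := by
            rintro rfl
            exact hne' rfl
          exact hcol z u y hzu hzy huy hcc
        constructor
        · rintro rfl
          exact key z w hrw hz hne.symm he'c.symm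
        · rintro rfl
          have h1 : s(z, r) = s(r, z) := Sym2.eq_swap
          exact key z r hrw.symm hz (by rw [h1]; exact hne.symm) (by rw [h1]; exact he'c.symm)
      obtain ⟨heA, k, hkg, y, hye, hyl⟩ := Cs_edge col F A Φ R b hF g e' he'F
        (by rw [he'c]; exact hrC)
      obtain ⟨hyr, hyw⟩ := hdisj y hye
      have hyR : y ∉ R := hY k hkg y hyl ⟨e', he'F, hye⟩
      have hyrw : y ∉ s(r, w) := by
        rw [Sym2.mem_iff]
        rintro (h | h)
        · exact hyr h
        · exact hyw h
      set E₁ := insert s(r, w) (E.erase e') with hE₁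
      have hsub1 : E₁ ⊆ insert s(r, w) E := insert_subset_insert _ (erase_subset _ _)
      have hV1 : Valid col A Φ U' E₁ := by
        refine ⟨hLF1.mono hsub1, ?_, ?_, ?_⟩
        · intro a ha
          refine mem_insert_of_mem (mem_erase.2 ⟨?_, hAE ha⟩)
          rintro rfl
          exact heA ha
        · intro a ha c hc hac
          rw [hE₁, mem_insert, mem_erase] at ha hc
          rcases ha with rfl | ⟨ha1, ha2⟩ <;> rcases hc with rfl | ⟨hc1, hc2⟩
          · rfl
          · exact absurd (hRb c hc2 e' he'E (by rw [he'c, hac])) hc1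
          · exact absurd (hRb a ha2 e' he'E (by rw [he'c, hac])) ha1
          · exact hRb a ha2 c hc2 hac
        · intro a ha
          rw [hE₁, mem_insert, mem_erase] at ha
          rcases ha with rfl | ⟨-, ha2⟩
          · exact hΦr
          · exact hΦE a ha2
      have hcard1 : E₁.card = E.card := by
        rw [hE₁, card_insert_of_notMem (fun h => hrwE (mem_of_mem_erase h)),
          card_erase_of_mem he'E]
        have : 0 < E.card := card_pos.2 ⟨e', he'E⟩
        omega
      have hdy : dg E₁ y ≤ 1 := by
        have h1 := dg_insert_not (E.erase e') s(r, w) y hyrw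
        have h2 := dg_erase E e' y he'E hye
        have h3 := hLF.dg_le y
        rw [hE₁, h1]
        omega
      have hdy' : dg E₁ y + 1 = dg E y := by
        have h1 := dg_insert_not (E.erase e') s(r, w) y hyrw
        have h2 := dg_erase E e' y he'E hye
        rw [hE₁, h1, h2]
      have hd1 : ∀ z, z ≠ r → z ≠ w → dg E₁ z ≤ dg E z := by
        intro z hzr hzw
        rw [hE₁, dg_insert_not _ _ _ (by rw [Sym2.mem_iff]; tauto)]
        exact dg_mono (erase_subset _ _) z
      obtain ⟨E', T', hV', hc', hTT', hTc', hTR', hEF', hdw', hdz'⟩ := ih k hkg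
        (fun k' hk' => hY k' (hk'.trans hkg)) E₁ (insert r T) y hV1 (by omega)
        (by
          have : E₁ \ F ⊆ insert s(r, w) (E \ F) := by
            intro a ha
            rw [mem_sdiff, hE₁, mem_insert, mem_erase] at ha
            rcases ha with ⟨rfl | ⟨-, h2⟩, h3⟩
            · exact mem_insert_self _ _
            · exact mem_insert_of_mem (mem_sdiff.2 ⟨h2, h3⟩)
          have h2 := (card_le_card this).trans (card_insert_le _ _)
          omega)
        (by
          intro z hz hzT
          rw [mem_insert, not_or] at hzT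
          by_cases hzw : z = w
          · exact absurd (hwT (hzw ▸ hz)) (hzw ▸ hzT.2)
          · exact (hd1 z hzT.1 hzw).trans (hRd z hz hzT.2))
        (hLF.memU he'E hye) (fun h => absurd h hyR) hdy hyl
      refine ⟨E', T', hV', by omega, (subset_insert r T).trans hTT', by omega, ?_, hEF', ?_, ?_⟩
      · refine hTR'.trans (union_subset (insert_subset (mem_union_right _ hrR)
          subset_union_left) subset_union_right)
      · intro hwT'
        have h1 := hdz' w hwT' (Ne.symm hyw)
        have h2 : dg E₁ w ≤ dg E w + 1 :=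
          (dg_insert_le _ _ _).trans (Nat.add_le_add_right (dg_mono (erase_subset _ _) w) 1)
        exact h1.trans h2
      · intro z hzT' hzw
        have hzr : z ≠ r := by
          rintro rfl
          exact hzT' (hTT' (mem_insert_self _ _))
        by_cases hzy : z = y
        · subst hzy
          have := hdw' hzT'
          omega
        · exact (hdz' z hzT' hzy).trans (hd1 z hzr hzw)
    · refine ⟨insert s(r, w) E, insert r T, ⟨hLF1, hAE.trans (subset_insert _ _), ?_, ?_⟩, ?_,
        subset_insert _ _, by omega, ?_, ?_, ?_, ?_⟩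
      · intro a ha c hc hac
        rw [mem_insert] at ha hc
        rcases ha with rfl | ha <;> rcases hc with rfl | hc
        · rfl
        · exact absurd ⟨c, hc, hac.symm⟩ hcase
        · exact absurd ⟨a, ha, hac⟩ hcase
        · exact hRb a ha c hc hac
      · intro a ha
        rw [mem_insert] at ha
        rcases ha with rfl | ha
        · exact hΦr
        · exact hΦE a ha
      · exact card_insert_of_notMem fun h => hcase ⟨_, h, rfl⟩
      · exact insert_subset (mem_union_right _ hrR) subset_union_left
      · have : insert s(r, w) E \ F ⊆ insert s(r, w) (E \ F) := by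
          intro a ha
          rw [mem_sdiff, mem_insert] at ha
          rcases ha with ⟨rfl | h2, h3⟩
          · exact mem_insert_self _ _
          · exact mem_insert_of_mem (mem_sdiff.2 ⟨h2, h3⟩)
        have h2 := (card_le_card this).trans (card_insert_le _ _)
        omega
      · intro _
        exact dg_insert_le _ _ _
      · intro z hzT hzw
        have hzr : z ≠ r := by
          rintro rfl
          exact hzT (mem_insert_self _ _)
        rw [dg_insert_not _ _ _ (by rw [Sym2.mem_iff]; tauto)]

end Pool.Agent.W_cd7020_h81
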