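import Pool.Agent.W_cd7020_h81.LFa

/-!
# Preparation of the attachment lemma
-/

set_option autoImplicit false

namespace Pool.Agent.W_cd7020_h81

open Finset

variable {V κ : Type*} [DecidableEq V] [DecidableEq κ]

/-- The colours in `Cs g` of an edge of `F`: there is `k < g` and `y` in the edge with many live
edges at level `k`; the edge is not in `A`. Induction on `g`. -/
theorem Cs_edge (col : Sym2 V → κ) (F A : Finset (Sym2 V)) (Φ : Finset κ) (R : Finset V) (b : ℕ)
    (hF : Rb col F) (g : ℕ) (e : Sym2 V) (he : e ∈ F)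
    (hc : col e ∈ Cs col F A Φ R b g) :
    e ∉ A ∧ ∃ k < g, ∃ y ∈ e, b ≤ (live col F R (Cs col F A Φ R b k) y).card := by
  induction g with
  | zero => exact absurd rfl (hc.2 e he)
  | succ g ih =>
    rcases hc with hc | ⟨e', he', heA, hce, y, hy, hb⟩
    · obtain ⟨h1, k, hk, h2⟩ := ih hc
      exact ⟨h1, k, by omega, h2⟩
    · have : e' = e := hF e' he' e he hce
      subst this
      exact ⟨heA, g, Nat.lt_succ_self g, y, hy, hb⟩

/-- Colours in `Cs g` are not forbidden. -/
theorem Cs_not (col : Sym2 V → κ) (F A : Finset (Sym2 V)) (Φ : Finset κ) (R : Finset V) (b : ℕ)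
    (hF : ∀ e ∈ F, col e ∉ Φ) (g : ℕ) (k : κ) (hk : k ∈ Cs col F A Φ R b g) : k ∉ Φ := by
  induction g with
  | zero => exact hk.1
  | succ g ih =>
    rcases hk with hk | ⟨e', he', _, hce, _⟩
    · exact ih hk
    · rw [← hce]
      exact hF e' he'

/-- One choice: among the live edges at `w` there is one, `r w`, with `r` not used, not the
exceptional vertex `x₀`, and a colour which is not the colour of an edge of `E` outside `F`. (The
edges at `w` have distinct colours by `Proper`, so at most `|T| + |E \ F| + 1 ≤ 2 B + 1` of the `b`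
live edges are excluded.) -/
theorem pick (col : Sym2 V → κ) (hcol : Proper col) (F E : Finset (Sym2 V)) (R T : Finset V)
    (C : Set κ) (B b : ℕ) (hb : 2 * B + 2 ≤ b) (hT : T.card ≤ B) (hET : (E \ F).card ≤ B)
    (w x₀ : V) (hl : b ≤ (live col F R C w).card) :
    ∃ r ∈ R, r ∉ T ∧ r ≠ w ∧ r ≠ x₀ ∧ s(r, w) ∉ F ∧ col s(r, w) ∈ C ∧
      ∀ e ∈ E \ F, col e ≠ col s(r, w) := by
  classical
  obtain ⟨B3, hB3⟩ : ∃ B3 : Finset V, B3 = (live col F R C w).filter
      (fun r => col s(r, w) ∈ (E \ F).image col) := ⟨_, rfl⟩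
  have h3 : B3.card ≤ B := by
    have h4 : B3.card ≤ ((E \ F).image col).card := by
      apply Finset.card_le_card_of_injOn (fun r => col s(r, w))
      · intro r hr
        rw [hB3] at hr
        exact (Finset.mem_filter.mp hr).2
      · intro r hr r' hr' hrr
        by_contra hne
        rw [hB3] at hr hr'
        have h1 := (Finset.mem_filter.mp (Finset.mem_filter.mp hr).1).2.1
        have h2 := (Finset.mem_filter.mp (Finset.mem_filter.mp hr').1).2.1
        have h5 := hcol w r r' (Ne.symm h1) (Ne.symm h2) hne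
        apply h5
        rw [Sym2.eq_swap, Sym2.eq_swap (a := w) (b := r')]
        exact hrr
    exact h4.trans (Finset.card_image_le.trans hET)
  have h6 : ((T ∪ {x₀}) ∪ B3).card < (live col F R C w).card := by
    have h7 := Finset.card_union_le (T ∪ {x₀}) B3
    have h8 := Finset.card_union_le T {x₀}
    rw [Finset.card_singleton] at h8
    omega
  obtain ⟨r, hr, hrn⟩ := Finset.exists_mem_notMem_of_card_lt_card h6
  simp only [Finset.mem_union, Finset.mem_singleton, not_or] at hrn
  obtain ⟨⟨hrT, hrx⟩, hrB⟩ := hrn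
  have hr2 := Finset.mem_filter.mp hr
  refine ⟨r, hr2.1, hrT, hr2.2.1, hrx, hr2.2.2.1, hr2.2.2.2, ?_⟩
  intro e he hce
  apply hrB
  rw [hB3]
  exact Finset.mem_filter.mpr ⟨hr, Finset.mem_image.mpr ⟨e, he, hce⟩⟩

end Pool.Agent.W_cd7020_h81
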