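import Pool.Agent.W_cd7020_h81.CloseStep

/-!
# Closing: iteration
-/

set_option autoImplicit false

namespace Pool.Agent.W_cd7020_h81

open Finset

variable {V κ : Type*} [DecidableEq V] [DecidableEq κ] [Fintype V]

/-- Iteration: induction on `T`, with `(used E).card + 4 * T ≤ s + 4`. If `|E| = |U|` we are done;
otherwise `Cyc.lf` and `close_step`. (`3 ≤ |U|` by `Ctx.hU`, `|E| ≤ |U|` by `Cyc.card_le`.) -/
theorem close_all (col : Sym2 V → κ) (A : Finset (Sym2 V)) (G : Finset κ)
    (Res : Fin 4 → Finset κ) (U Vf : Finset V) (x₀ d s B : ℕ)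
    (hC : Ctx col A G Res U Vf x₀ d s B) :
    ∀ (T : ℕ) (E : Finset (Sym2 V)), Cyc U E → A ⊆ E → Rb col E → (∀ e ∈ E, col e ∉ G) →
      (used col Res E).card + 4 * T ≤ s + 4 → U.card ≤ E.card + T →
      ∃ E' : Finset (Sym2 V), Cyc U E' ∧ A ⊆ E' ∧ Rb col E' ∧ (∀ e ∈ E', col e ∉ G) ∧
        E'.card = U.card := by
  intro T
  induction T with
  | zero =>
    intro E hE hA hR hG _ hc
    exact ⟨E, hE, hA, hR, hG, le_antisymm hE.card_le (by simpa using hc)⟩
  | succ T ih =>
    intro E hE hA hR hG hu hc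
    rcases Nat.lt_or_ge E.card U.card with hlt | hge
    · have hU3 : 3 ≤ U.card := by
        have := hC.hU
        omega
      obtain ⟨E', h1, h2, h3, h4, h5, h6⟩ := close_step col A G Res U Vf x₀ d s B hC E
        (hE.lf hlt hU3) hA hR hG (by omega)
      exact ih E' h1 h2 h3 h4 (by omega) (by omega)
    · exact ⟨E, hE, hA, hR, hG, le_antisymm hE.card_le hge⟩

end Pool.Agent.W_cd7020_h81
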