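import Mathlib

/-!
# Choice of three cutting places
-/

set_option autoImplicit false

namespace Pool.Agent.W_cd7020_h81

open Finset

/-- Splitting a finite set of natural numbers at a threshold. -/
theorem split (I : Finset ℕ) (x y : ℕ) (h : x + y ≤ I.card) :
    ∃ t, x ≤ (I.filter (· < t)).card ∧ y ≤ (I.filter (t ≤ ·)).card := by
  classical
  have hex : ∃ t, x ≤ (I.filter (· < t)).card := by
    refine ⟨I.sup id + 1, ?_⟩
    have h1 : I.filter (· < I.sup id + 1) = I := by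
      refine filter_true_of_mem fun i hi => ?_
      have h2 : id i ≤ I.sup id := le_sup hi
      exact Nat.lt_succ_of_le h2
    rw [h1]
    omega
  refine ⟨Nat.find hex, Nat.find_spec hex, ?_⟩
  have hle : (I.filter (· < Nat.find hex)).card ≤ x := by
    rcases Nat.eq_zero_or_pos (Nat.find hex) with h0 | h0
    · rw [h0]
      simp
    · have h1 : ¬ x ≤ (I.filter (· < Nat.find hex - 1)).card :=
        Nat.find_min hex (by omega)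
      have h2 : I.filter (· < Nat.find hex) ⊆
          insert (Nat.find hex - 1) (I.filter (· < Nat.find hex - 1)) := by
        intro i hi
        rw [mem_filter] at hi
        rw [mem_insert, mem_filter]
        rcases Nat.lt_or_ge i (Nat.find hex - 1) with h3 | h3
        · exact Or.inr ⟨hi.1, h3⟩
        · exact Or.inl (by omega)
      have h3 := (card_le_card h2).trans (card_insert_le _ _)
      omega
  have hsum := card_filter_add_card_filter_not (s := I) (fun i => i < Nat.find hex)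
  have heq : I.filter (fun i => ¬ i < Nat.find hex) = I.filter (Nat.find hex ≤ ·) :=
    filter_congr fun i _ => by simp
  rw [heq] at hsum
  omega

/-- Choice of `j` in an interval. -/
theorem order_findj (N B D lo hi α β : ℕ) (P R Gd : ℕ → Prop) (S₁ S₂ S₃ : Finset ℕ)
    (h₁ : S₁.card ≤ B) (h₂ : S₂.card ≤ B) (h₃ : S₃.card ≤ D)
    (hP : ∀ w < N, w ∉ S₁ → P w) (hR : ∀ w < N, w ∉ S₂ → R w) (hG : ∀ w < N, w ∉ S₃ → Gd w)
    (hα : α ≤ 1) (hβ : β ≤ 1) (hhi : hi ≤ N) (h : lo + 2 * B + D + 2 ≤ hi) :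
    ∃ j, lo ≤ j ∧ j + 1 < hi ∧ P (j + α) ∧ R (j + β) ∧ Gd j := by
  by_contra hcon
  push Not at hcon
  set J : Finset ℕ := Ico lo (hi - 1) with hJ
  have hJc : J.card = hi - 1 - lo := by rw [hJ, Nat.card_Ico]
  have hsub : J ⊆ ((J.filter (fun j => j + α ∈ S₁)) ∪ (J.filter (fun j => j + β ∈ S₂))) ∪ S₃ := by
    intro j hj
    have hj' := hj
    rw [hJ, mem_Ico] at hj'
    by_cases h1 : j + α ∈ S₁
    · exact mem_union_left _ (mem_union_left _ (mem_filter.2 ⟨hj, h1⟩))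
    · by_cases h2 : j + β ∈ S₂
      · exact mem_union_left _ (mem_union_right _ (mem_filter.2 ⟨hj, h2⟩))
      · refine mem_union_right _ ?_
        by_contra h3
        exact hcon j hj'.1 (by omega) (hP _ (by omega) h1) (hR _ (by omega) h2)
          (hG _ (by omega) h3)
  have h1 : (J.filter (fun j => j + α ∈ S₁)).card ≤ S₁.card :=
    card_le_card_of_injOn (fun j => j + α) (fun j hj => (mem_filter.1 (mem_coe.1 hj)).2)
      (fun a _ b _ hab => Nat.add_right_cancel hab)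
  have h2 : (J.filter (fun j => j + β ∈ S₂)).card ≤ S₂.card :=
    card_le_card_of_injOn (fun j => j + β) (fun j hj => (mem_filter.1 (mem_coe.1 hj)).2)
      (fun a _ b _ hab => Nat.add_right_cancel hab)
  have h4 := card_le_card hsub
  have h5 := card_union_le ((J.filter (fun j => j + α ∈ S₁)) ∪ (J.filter (fun j => j + β ∈ S₂))) S₃
  have h6 := card_union_le (J.filter (fun j => j + α ∈ S₁)) (J.filter (fun j => j + β ∈ S₂))
  omega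

/-- The choice when one of the two sets is on the left of the other. -/
theorem order_half (N x B D : ℕ) (I K : Finset ℕ) (P R : ℕ → ℕ → Prop) (Gd : ℕ → Prop) (a b : ℕ)
    (ha : a ≤ 1) (hb : b ≤ 1)
    (hx : 1 ≤ x) (hKN : ∀ k ∈ K, k < N) (hIK : ∀ i ∈ I, ∀ k ∈ K, i < k)
    (hI : x + x ≤ I.card) (hK : x + x ≤ K.card)
    (hP : ∀ I' ⊆ I, x ≤ I'.card → ∃ S : Finset ℕ, S.card ≤ B ∧
      ∀ w < N, w ∉ S → ∃ i ∈ I', P i w)
    (hR : ∀ K' ⊆ K, x ≤ K'.card → ∃ S : Finset ℕ, S.card ≤ B ∧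
      ∀ w < N, w ∉ S → ∃ k ∈ K', R k w)
    (S₃ : Finset ℕ) (h₃ : S₃.card ≤ D) (hG : ∀ w < N, w ∉ S₃ → Gd w)
    (hN : 3 * (2 * B + D + 5) < N) :
    ∃ i ∈ I, ∃ k ∈ K, ∃ j, j + 1 < N ∧ Gd j ∧
      ((j + 1 < i ∧ P i j ∧ R k (j + 1)) ∨
       (i ≤ j ∧ j + 1 < k ∧ P i (j + 1) ∧ R k j) ∨
       (k < j ∧ P i (j + a) ∧ R k (j + b))) := by
  have hne : ∀ {T : Finset ℕ}, x ≤ T.card → ∃ i, i ∈ T := fun h =>
    card_pos.1 (lt_of_lt_of_le hx h)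
  obtain ⟨u, hu1, hu2⟩ := split I x x hI
  obtain ⟨v, hv1, hv2⟩ := split K x x hK
  obtain ⟨i₁, hi₁⟩ := hne hu2
  obtain ⟨k₁, hk₁⟩ := hne hv1
  obtain ⟨k₂, hk₂⟩ := hne hv2
  rw [mem_filter] at hi₁ hk₁ hk₂
  have huv : u < v := by
    have := hIK i₁ hi₁.1 k₁ hk₁.1
    omega
  have hvN : v < N := by
    have := hKN k₂ hk₂.1
    omega
  have hcase : 0 + 2 * B + D + 2 ≤ u ∨ u + 2 * B + D + 2 ≤ v ∨ v + 1 + 2 * B + D + 2 ≤ N := by
    omega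
  rcases hcase with hc | hc | hc
  · obtain ⟨S₁, hS₁, hS₁'⟩ := hP _ (filter_subset (u ≤ ·) I) hu2
    obtain ⟨S₂, hS₂, hS₂'⟩ := hR _ (Subset.refl K) (by omega)
    obtain ⟨j, -, hj2, ⟨i, hi, hPi⟩, ⟨k, hk, hRk⟩, hGj⟩ := order_findj N B D 0 u 0 1
      _ _ Gd S₁ S₂ S₃ hS₁ hS₂ h₃ hS₁' hS₂' hG (by omega) le_rfl (by omega) hc
    rw [mem_filter] at hi
    exact ⟨i, hi.1, k, hk, j, by omega, hGj, Or.inl ⟨by omega, hPi, hRk⟩⟩
  · obtain ⟨S₁, hS₁, hS₁'⟩ := hP _ (filter_subset (· < u) I) hu1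
    obtain ⟨S₂, hS₂, hS₂'⟩ := hR _ (filter_subset (v ≤ ·) K) hv2
    obtain ⟨j, hj1, hj2, ⟨i, hi, hPi⟩, ⟨k, hk, hRk⟩, hGj⟩ := order_findj N B D u v 1 0
      _ _ Gd S₁ S₂ S₃ hS₁ hS₂ h₃ hS₁' hS₂' hG le_rfl (by omega) (by omega) hc
    rw [mem_filter] at hi hk
    exact ⟨i, hi.1, k, hk.1, j, by omega, hGj, Or.inr (Or.inl ⟨by omega, by omega, hPi, hRk⟩)⟩
  · obtain ⟨S₁, hS₁, hS₁'⟩ := hP _ (Subset.refl I) (by omega)
    obtain ⟨S₂, hS₂, hS₂'⟩ := hR _ (filter_subset (· < v) K) hv1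
    obtain ⟨j, hj1, hj2, ⟨i, hi, hPi⟩, ⟨k, hk, hRk⟩, hGj⟩ := order_findj N B D (v + 1) N a b
      _ _ Gd S₁ S₂ S₃ hS₁ hS₂ h₃ hS₁' hS₂' hG ha hb le_rfl hc
    rw [mem_filter] at hk
    exact ⟨i, hi, k, hk.1, j, by omega, hGj, Or.inr (Or.inr ⟨by omega, hPi, hRk⟩)⟩

/-- Choice of the cutting places, without decidability instances. -/
theorem order_cutting (N x B D : ℕ) (I K : Finset ℕ) (Pi Rp Rm : ℕ → ℕ → Prop) (Gd : ℕ → Prop)
    (hx : 1 ≤ x) (hIN : ∀ i ∈ I, i < N) (hKN : ∀ k ∈ K, k < N)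
    (hI : 4 * x ≤ I.card) (hK : 4 * x ≤ K.card)
    (hP' : ∀ I' ⊆ I, x ≤ I'.card → ∃ T : Finset ℕ, T.card ≤ B ∧
      ∀ w < N, w ∉ T → ∃ i ∈ I', Pi i w)
    (hRp' : ∀ I' ⊆ K, x ≤ I'.card → ∃ T : Finset ℕ, T.card ≤ B ∧
      ∀ w < N, w ∉ T → ∃ i ∈ I', Rp i w)
    (hRm' : ∀ I' ⊆ K, x ≤ I'.card → ∃ T : Finset ℕ, T.card ≤ B ∧
      ∀ w < N, w ∉ T → ∃ i ∈ I', Rm i w)
    (S₃ : Finset ℕ) (hG : S₃.card ≤ D) (hG' : ∀ w < N, w ∉ S₃ → Gd w)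
    (hN : 3 * (2 * B + D + 5) < N) :
    ∃ i ∈ I, ∃ k ∈ K, ∃ j, j + 1 < N ∧ Gd j ∧
      ((j + 1 < i ∧ i < k ∧ Pi i j ∧ Rp k (j + 1)) ∨
       (i ≤ j ∧ j + 1 < k ∧ Pi i (j + 1) ∧ Rp k j) ∨
       (i < k ∧ k < j ∧ Pi i j ∧ Rp k (j + 1)) ∨
       (j + 1 < k ∧ k < i ∧ Pi i (j + 1) ∧ Rm k j) ∨
       (k ≤ j ∧ j + 1 < i ∧ Pi i j ∧ Rm k (j + 1)) ∨
       (k < i ∧ i < j ∧ Pi i j ∧ Rm k (j + 1))) := by
  obtain ⟨t, ht1, ht2⟩ := split I (2 * x) (2 * x) (by omega)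
  obtain ⟨t', ht'1, ht'2⟩ := split K (2 * x) (2 * x) (by omega)
  rcases Nat.lt_or_ge t' t with htt | htt
  · -- `t' < t`
    obtain ⟨k, hk, i, hi, j, hj, hGj, hc⟩ := order_half N x B D (K.filter (· < t'))
      (I.filter (t ≤ ·)) Rm Pi Gd 1 0 le_rfl (by omega) hx
      (fun i hi => hIN i (mem_filter.1 hi).1)
      (fun k hk i hi => lt_of_lt_of_le (lt_trans (mem_filter.1 hk).2 htt) (mem_filter.1 hi).2)
      (by omega) (by omega)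
      (fun K' h1 h2 => hRm' K' (h1.trans (filter_subset _ _)) h2)
      (fun I' h1 h2 => hP' I' (h1.trans (filter_subset _ _)) h2) _ hG hG' hN
    rw [mem_filter] at hi hk
    refine ⟨i, hi.1, k, hk.1, j, hj, hGj, ?_⟩
    rcases hc with ⟨h1, h2, h3⟩ | ⟨h1, h2, h3, h4⟩ | ⟨h1, h2, h3⟩
    · exact Or.inr (Or.inr (Or.inr (Or.inl ⟨h1, by omega, h3, h2⟩)))
    · exact Or.inr (Or.inr (Or.inr (Or.inr (Or.inl ⟨h1, h2, h4, h3⟩))))
    · exact Or.inr (Or.inr (Or.inr (Or.inr (Or.inr ⟨by omega, h1, h3, h2⟩))))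
  · -- `t ≤ t'`
    obtain ⟨i, hi, k, hk, j, hj, hGj, hc⟩ := order_half N x B D (I.filter (· < t))
      (K.filter (t' ≤ ·)) Pi Rp Gd 0 1 (by omega) le_rfl hx
      (fun k hk => hKN k (mem_filter.1 hk).1)
      (fun i hi k hk => lt_of_lt_of_le (lt_of_lt_of_le (mem_filter.1 hi).2 htt)
        (mem_filter.1 hk).2)
      (by omega) (by omega)
      (fun I' h1 h2 => hP' I' (h1.trans (filter_subset _ _)) h2)
      (fun K' h1 h2 => hRp' K' (h1.trans (filter_subset _ _)) h2) _ hG hG' hN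
    rw [mem_filter] at hi hk
    refine ⟨i, hi.1, k, hk.1, j, hj, hGj, ?_⟩
    rcases hc with ⟨h1, h2, h3⟩ | ⟨h1, h2, h3, h4⟩ | ⟨h1, h2, h3⟩
    · exact Or.inl ⟨h1, by omega, h2, h3⟩
    · exact Or.inr (Or.inl ⟨h1, h2, h3, h4⟩)
    · exact Or.inr (Or.inr (Or.inl ⟨by omega, h1, h2, h3⟩))

open Classical in
/-- Choice of the cutting places.

Proof. Split `I` at `t` and `K` at `t'` into halves with at least `2 x` elements.
Case `t ≤ t'`: use `I₀ = {i ∈ I | i < t}`, `K₀ = {k ∈ K | t' ≤ k}`, so `i < k`. Split `I₀` at `u` and `K₀` at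
`v` into parts with at least `x` elements, `u ≤ t ≤ t' ≤ v` may be assumed. One of the intervals
`[0, u)`, `[u, v)`, `[v, N)` has at least `N / 3` elements.
* `[0, u)`: `I' = {i ∈ I₀ | u ≤ i}`, `K' = K₀`. All but `2 B + D + 3` of the `j` with `j + 1 < u` satisfy: `Gd j`,
  some `i ∈ I'` has `Pi i j`, and some `k ∈ K'` has `Rp k (j + 1)`. First alternative.
* `[u, v)`: `I' = {i ∈ I₀ | i < u}`, `K' = {k ∈ K₀ | v ≤ k}`; `u ≤ j`, `j + 1 < v`. Second alternative.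
* `[v, N)`: `I' = I₀`, `K' = {k ∈ K₀ | k < v}`, `v ≤ j`, `j + 1 < N`. Third alternative.
Case `t' < t`: `I₀ = {i ∈ I | t ≤ i}`, `K₀ = {k ∈ K | k < t'}`, so `k < i`; the same with the roles
exchanged: `[0, u)` with `K' = {k ∈ K₀ | u ≤ k}`, `I' = I₀`: fourth; `[u, v)` with `K' = {k ∈ K₀ | k < u}`,
`I' = {i ∈ I₀ | v ≤ i}`: fifth; `[v, N)` with `K' = K₀`, `I' = {i ∈ I₀ | i < v}`: sixth. -/
theorem cutting (N x B D : ℕ) (I K : Finset ℕ) (Pi Rp Rm : ℕ → ℕ → Prop) (Gd : ℕ → Prop)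
    (hx : 1 ≤ x) (hIN : ∀ i ∈ I, i < N) (hKN : ∀ k ∈ K, k < N)
    (hI : 4 * x ≤ I.card) (hK : 4 * x ≤ K.card)
    (hP : ∀ I' ⊆ I, x ≤ I'.card → ((range N).filter (fun w => ∀ i ∈ I', ¬ Pi i w)).card ≤ B)
    (hRp : ∀ K' ⊆ K, x ≤ K'.card → ((range N).filter (fun w => ∀ k ∈ K', ¬ Rp k w)).card ≤ B)
    (hRm : ∀ K' ⊆ K, x ≤ K'.card → ((range N).filter (fun w => ∀ k ∈ K', ¬ Rm k w)).card ≤ B)
    (hG : ((range N).filter (fun j => ¬ Gd j)).card ≤ D)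
    (hN : 3 * (2 * B + D + 5) < N) :
    ∃ i ∈ I, ∃ k ∈ K, ∃ j, j + 1 < N ∧ Gd j ∧
      ((j + 1 < i ∧ i < k ∧ Pi i j ∧ Rp k (j + 1)) ∨
       (i ≤ j ∧ j + 1 < k ∧ Pi i (j + 1) ∧ Rp k j) ∨
       (i < k ∧ k < j ∧ Pi i j ∧ Rp k (j + 1)) ∨
       (j + 1 < k ∧ k < i ∧ Pi i (j + 1) ∧ Rm k j) ∨
       (k ≤ j ∧ j + 1 < i ∧ Pi i j ∧ Rm k (j + 1)) ∨
       (k < i ∧ i < j ∧ Pi i j ∧ Rm k (j + 1))) := by
  -- the bad sets
  have hP' : ∀ I' ⊆ I, x ≤ I'.card → ∃ T : Finset ℕ, T.card ≤ B ∧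
      ∀ w < N, w ∉ T → ∃ i ∈ I', Pi i w := by
    intro I' h1 h2
    refine ⟨_, hP I' h1 h2, ?_⟩
    intro w hw hT
    by_contra hc
    exact hT (mem_filter.2 ⟨mem_range.2 hw, fun i hi hc' => hc ⟨i, hi, hc'⟩⟩)
  have hRp' : ∀ I' ⊆ K, x ≤ I'.card → ∃ T : Finset ℕ, T.card ≤ B ∧
      ∀ w < N, w ∉ T → ∃ i ∈ I', Rp i w := by
    intro I' h1 h2
    refine ⟨_, hRp I' h1 h2, ?_⟩
    intro w hw hT
    by_contra hc
    exact hT (mem_filter.2 ⟨mem_range.2 hw, fun i hi hc' => hc ⟨i, hi, hc'⟩⟩)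
  have hRm' : ∀ I' ⊆ K, x ≤ I'.card → ∃ T : Finset ℕ, T.card ≤ B ∧
      ∀ w < N, w ∉ T → ∃ i ∈ I', Rm i w := by
    intro I' h1 h2
    refine ⟨_, hRm I' h1 h2, ?_⟩
    intro w hw hT
    by_contra hc
    exact hT (mem_filter.2 ⟨mem_range.2 hw, fun i hi hc' => hc ⟨i, hi, hc'⟩⟩)
  have hG' : ∀ w < N, w ∉ (range N).filter (fun j => ¬ Gd j) → Gd w := by
    intro w hw hT
    by_contra hc
    exact hT (mem_filter.2 ⟨mem_range.2 hw, hc⟩)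
  exact order_cutting N x B D I K Pi Rp Rm Gd hx hIN hKN hI hK hP' hRp' hRm' _ hG hG' hN

end Pool.Agent.W_cd7020_h81
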