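import Pool.Agent.W_cd7020_h81.Swap
import Pool.Agent.W_cd7020_h81.Order

/-!
# One closing step
-/

set_option autoImplicit false

namespace Pool.Agent.W_cd7020_h81

open Finset

variable {V κ : Type*} [DecidableEq V] [DecidableEq κ] [Fintype V]

/-- Many free edges at a vertex whose colour is reserved and not used. -/
theorem closeStep_count (col : Sym2 V → κ) (hcol : Proper col) (R Us : Finset κ) (Vf : Finset V)
    (w : V) (d s : ℕ) (hs : Us.card ≤ s)
    (hm : d ≤ (Vf.filter (fun v => v ≠ w ∧ col s(w, v) ∈ R)).card) :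
    d ≤ (Vf.filter (fun v => v ≠ w ∧ col s(w, v) ∈ R \ Us)).card + s := by
  have hsub : Vf.filter (fun v => v ≠ w ∧ col s(w, v) ∈ R) ⊆
      (Vf.filter (fun v => v ≠ w ∧ col s(w, v) ∈ R \ Us)) ∪
        (Vf.filter (fun v => v ≠ w ∧ col s(w, v) ∈ Us)) := by
    intro v hv
    rw [mem_filter] at hv
    rw [mem_union, mem_filter, mem_filter, mem_sdiff]
    by_cases h : col s(w, v) ∈ Us
    · exact Or.inr ⟨hv.1, hv.2.1, h⟩
    · exact Or.inl ⟨hv.1, hv.2.1, hv.2.2, h⟩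
  have h1 : (Vf.filter (fun v => v ≠ w ∧ col s(w, v) ∈ Us)).card ≤ Us.card := by
    refine card_le_card_of_injOn (fun v => col s(w, v)) ?_ ?_
    · intro v hv
      exact (mem_filter.1 (mem_coe.1 hv)).2.2
    · intro v hv v' hv' h
      by_contra hne
      exact hcol w v v' (mem_filter.1 (mem_coe.1 hv)).2.1.symm
        (mem_filter.1 (mem_coe.1 hv')).2.1.symm hne h
  have h2 := (card_le_card hsub).trans (card_union_le _ _)
  omega

/-- Transfer to positions. -/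
theorem closeStep_pos (col : Sym2 V → κ) (R : Finset κ) (Vf U : Finset V) (hVf : Vf ⊆ U)
    (x : ℕ → V) (N : ℕ) (hU : ∀ v ∈ U, ∃ i < N, x i = v) (w : V) :
    (Vf.filter (fun v => v ≠ w ∧ col s(w, v) ∈ R)).card ≤
      ((range N).filter (fun i => x i ≠ w ∧ x i ∈ Vf ∧ col s(w, x i) ∈ R)).card := by
  refine (card_le_card (t := ((range N).filter
    (fun i => x i ≠ w ∧ x i ∈ Vf ∧ col s(w, x i) ∈ R)).image x) ?_).trans card_image_le
  intro v hv
  rw [mem_filter] at hv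
  obtain ⟨i, hi, rfl⟩ := hU v (hVf hv.1)
  exact mem_image_of_mem x (mem_filter.2 ⟨mem_range.2 hi, hv.2.1, hv.1, hv.2.2⟩)

/-- The expansion hypothesis in terms of positions. -/
theorem closeStep_exp (col : Sym2 V → κ) (R Us : Finset κ) (x₀ B : ℕ)
    (hexp : ∀ X : Finset V, x₀ ≤ X.card →
      (univ.filter (fun w => ∀ a ∈ X, a ≠ w → col s(a, w) ∈ R → col s(a, w) ∈ Us)).card ≤ B)
    (x : ℕ → V) (N : ℕ) (hinj : ∀ i < N, ∀ j < N, x i = x j → i = j) (I' : Finset ℕ) (f : ℕ → ℕ)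
    (hf : ∀ i ∈ I', ∀ j ∈ I', f i = f j → i = j) (hfN : ∀ i ∈ I', f i < N)
    (hI' : x₀ ≤ I'.card) :
    ∃ T : Finset ℕ, T.card ≤ B ∧
      ∀ w < N, w ∉ T → ∃ i ∈ I', x (f i) ≠ x w ∧ col s(x (f i), x w) ∈ R \ Us := by
  classical
  have h1 : x₀ ≤ (I'.image (fun i => x (f i))).card := by
    rw [card_image_of_injOn]
    · exact hI'
    · intro i hi j hj h
      exact hf i hi j hj (hinj _ (hfN i hi) _ (hfN j hj) h)
  refine ⟨(range N).filter (fun w => ∀ i ∈ I', ¬ (x (f i) ≠ x w ∧ col s(x (f i), x w) ∈ R \ Us)),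
    le_trans (card_le_card_of_injOn x ?_ ?_) (hexp _ h1), ?_⟩
  · intro w hw
    rw [mem_coe, mem_filter] at hw
    rw [mem_coe, mem_filter]
    refine ⟨mem_univ _, ?_⟩
    intro a ha haw hR
    obtain ⟨i, hi, rfl⟩ := mem_image.1 ha
    by_contra hUs
    exact hw.2 i hi ⟨haw, mem_sdiff.2 ⟨hR, hUs⟩⟩
  · intro w hw w' hw' h
    rw [mem_coe, mem_filter, mem_range] at hw hw'
    exact hinj w hw.1 w' hw'.1 h
  · intro w hw hT
    by_contra hcon
    exact hT (mem_filter.2 ⟨mem_range.2 hw, fun i hi h => hcon ⟨i, hi, h⟩⟩)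

/-- One closing step.

Proof. Let `Q` be the list from `hE : LF U E`, `N = |U|` its length, `x i = Q[i]`.
`I = {i < N | 1 ≤ i, x i ∈ Vf, col s(x 0, x i) ∈ Res 0 \ used E}`,
`K = {k < N | 1 ≤ k, k + 1 < N, x k ∈ Vf, col s(x (N - 1), x k) ∈ Res 1 \ used E}`; by `many` and `Proper`
`|I| ≥ d - s`, `|K| ≥ d - s - 1` (`k = 0` is excluded, `k = N - 1` does not occur), both `≥ 4 x₀`.
Apply `cutting` with
`Pi i w := x (i - 1) ≠ x w ∧ col s(x (i - 1), x w) ∈ Res 2 \ used E`,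
`Rp k w := x (k + 1) ≠ x w ∧ col s(x (k + 1), x w) ∈ Res 3 \ used E`,
`Rm k w := x (k - 1) ≠ x w ∧ col s(x (k - 1), x w) ∈ Res 3 \ used E`,
`Gd j := x j ∈ Vf`, `D = |U \ Vf|`; the hypotheses `hP`, `hRp`, `hRm` follow from `exp` for the sets
`{x (i - 1) | i ∈ I'}`, `{x (k + 1) | k ∈ K'}`, `{x (k - 1) | k ∈ K'}`, which have at least `x₀` elements
(the positions are distinct). The six alternatives of `cutting` give `swap` with
1. `p = j + 1, q = i, r = k + 1`, `c = 0`;  2. `p = i, q = j + 1, r = k + 1`, `c = 1`;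
3. `p = i, q = k + 1, r = j + 1`, `c = 2`;  4. `p = j + 1, q = k, r = i`, `c = 3`;
5. `p = k, q = j + 1, r = i`, `c = 4`;      6. `p = k, q = i, r = j + 1`, `c = 5`,
`e₀ = s(x 0, x i)`, `e₁ = s(x (N - 1), x k)`, `e₂` the edge of `Pi`, `e₃` the edge of `Rp` or `Rm`. -/
theorem close_step (col : Sym2 V → κ) (A : Finset (Sym2 V)) (G : Finset κ)
    (Res : Fin 4 → Finset κ) (U Vf : Finset V) (x₀ d s B : ℕ)
    (hC : Ctx col A G Res U Vf x₀ d s B) (E : Finset (Sym2 V)) (hE : LF U E)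
    (hA : A ⊆ E) (hR : Rb col E) (hG : ∀ e ∈ E, col e ∉ G)
    (hs : (used col Res E).card ≤ s) :
    ∃ E' : Finset (Sym2 V), Cyc U E' ∧ A ⊆ E' ∧ Rb col E' ∧ (∀ e ∈ E', col e ∉ G) ∧
      E.card + 1 ≤ E'.card ∧ (used col Res E').card ≤ (used col Res E).card + 4 := by
  obtain ⟨Q, hQ, hQU, hEQ⟩ := hE
  have hlen : Q.length = U.card := by
    rw [← List.toFinset_card_of_nodup hQ]
    congr 1
    ext v
    rw [List.mem_toFinset]
    exact hQU v
  set N := Q.length with hN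
  have hUN : 3 * (2 * B + (U \ Vf).card + 5) < N := by
    rw [hlen]
    exact hC.hU
  have hNpos : 0 < N := by omega
  let x : ℕ → V := fun i => Q.getD i (Q[0]'hNpos)
  have hx : ∀ i, ∀ h : i < Q.length, Q[i] = x i := fun i h =>
    (List.getD_eq_getElem Q _ h).symm
  have hinj : ∀ i < N, ∀ j < N, x i = x j → i = j := by
    intro i hi j hj h
    rw [← hx i hi, ← hx j hj] at h
    exact (List.Nodup.getElem_inj_iff hQ).1 h
  have hsurj : ∀ v ∈ U, ∃ i < N, x i = v := by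
    intro v hv
    obtain ⟨i, hi, h⟩ := List.getElem_of_mem ((hQU v).2 hv)
    exact ⟨i, hi, by rw [← hx i hi]; exact h⟩
  have hmemU : ∀ i < N, x i ∈ U := by
    intro i hi
    rw [← hx i hi]
    exact (hQU _).1 (List.getElem_mem hi)
  clear_value x
  set Us := used col Res E with hUs
  -- the sets `I` and `K`
  obtain ⟨I, hI⟩ : ∃ I : Finset ℕ, I = (range N).filter
    (fun i => x i ≠ x 0 ∧ x i ∈ Vf ∧ col s(x 0, x i) ∈ Res 0 \ Us) := ⟨_, rfl⟩
  obtain ⟨K₀, hK₀⟩ : ∃ K₀ : Finset ℕ, K₀ = (range N).filter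
    (fun i => x i ≠ x (N - 1) ∧ x i ∈ Vf ∧ col s(x (N - 1), x i) ∈ Res 1 \ Us) := ⟨_, rfl⟩
  have hIc : d ≤ I.card + s := by
    have h1 := closeStep_count col hC.proper (Res 0) Us Vf (x 0) d s hs (hC.many 0 (x 0))
    have h2 := closeStep_pos col (Res 0 \ Us) Vf U hC.VfU x N hsurj (x 0)
    rw [← hI] at h2
    omega
  have hK₀c : d ≤ K₀.card + s := by
    have h1 := closeStep_count col hC.proper (Res 1) Us Vf (x (N - 1)) d s hs
      (hC.many 1 (x (N - 1)))
    have h2 := closeStep_pos col (Res 1 \ Us) Vf U hC.VfU x N hsurj (x (N - 1))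
    rw [← hK₀] at h2
    omega
  obtain ⟨K, hK⟩ : ∃ K : Finset ℕ, K = K₀.erase 0 := ⟨_, rfl⟩
  have hKc : K₀.card ≤ K.card + 1 := by
    have h1 := pred_card_le_card_erase (s := K₀) (a := 0)
    rw [← hK] at h1
    omega
  have hd := hC.hd
  have hI1 : ∀ i ∈ I, 1 ≤ i ∧ i < N ∧ x i ∈ Vf ∧ col s(x 0, x i) ∈ Res 0 \ Us := by
    intro i hi
    rw [hI, mem_filter, mem_range] at hi
    refine ⟨?_, hi.1, hi.2.2⟩
    rcases Nat.eq_zero_or_pos i with h | h
    · exact absurd (by rw [h]) hi.2.1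
    · exact h
  have hK1 : ∀ k ∈ K, 1 ≤ k ∧ k + 1 < N ∧ x k ∈ Vf ∧
      col s(x (N - 1), x k) ∈ Res 1 \ Us := by
    intro k hk
    rw [hK, mem_erase, hK₀, mem_filter, mem_range] at hk
    refine ⟨by omega, ?_, hk.2.2.2⟩
    have h1 : k ≠ N - 1 := by
      intro h
      exact hk.2.2.1 (by rw [h])
    omega
  have hGc : ((range N).filter (fun j => x j ∉ Vf)).card ≤ (U \ Vf).card := by
    refine card_le_card_of_injOn x ?_ ?_
    · intro j hj
      rw [mem_coe, mem_filter, mem_range] at hj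
      exact mem_coe.2 (mem_sdiff.2 ⟨hmemU j hj.1, hj.2⟩)
    · intro a ha b hb h
      rw [mem_coe, mem_filter, mem_range] at ha hb
      exact hinj a ha.1 b hb.1 h
  obtain ⟨i, hi, k, hk, j, hj, hGj, hcase⟩ := order_cutting N x₀ B (U \ Vf).card I K
    (fun i w => x (i - 1) ≠ x w ∧ col s(x (i - 1), x w) ∈ Res 2 \ Us)
    (fun k w => x (k + 1) ≠ x w ∧ col s(x (k + 1), x w) ∈ Res 3 \ Us)
    (fun k w => x (k - 1) ≠ x w ∧ col s(x (k - 1), x w) ∈ Res 3 \ Us)
    (fun j => x j ∈ Vf) hC.hx (fun i hi => (hI1 i hi).2.1)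
    (fun k hk => by have := (hK1 k hk).2.1; omega) (by omega) (by omega)
    (fun I' h1 h2 => closeStep_exp col (Res 2) Us x₀ B (fun X hX => hC.exp 2 X hX Us hs) x N hinj
      I' (fun i => i - 1)
      (fun a ha b hb h => by
        have h3 := (hI1 a (h1 ha)).1
        have h4 := (hI1 b (h1 hb)).1
        have h5 : a - 1 = b - 1 := h
        omega)
      (fun a ha => by
        have h3 := (hI1 a (h1 ha)).2.1
        show a - 1 < N
        omega) h2)
    (fun K' h1 h2 => closeStep_exp col (Res 3) Us x₀ B (fun X hX => hC.exp 3 X hX Us hs) x N hinj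
      K' (fun i => i + 1)
      (fun a ha b hb h => Nat.add_right_cancel h)
      (fun a ha => (hK1 a (h1 ha)).2.1) h2)
    (fun K' h1 h2 => closeStep_exp col (Res 3) Us x₀ B (fun X hX => hC.exp 3 X hX Us hs) x N hinj
      K' (fun i => i - 1)
      (fun a ha b hb h => by
        have h3 := (hK1 a (h1 ha)).1
        have h4 := (hK1 b (h1 hb)).1
        have h5 : a - 1 = b - 1 := h
        omega)
      (fun a ha => by
        have h3 := (hK1 a (h1 ha)).2.1
        show a - 1 < N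
        omega) h2)
    ((range N).filter (fun j => x j ∉ Vf)) hGc
    (fun w hw hT => by
      by_contra hcon
      exact hT (mem_filter.2 ⟨mem_range.2 hw, hcon⟩))
    hUN
  obtain ⟨hi1, hiN, hiV, hiC⟩ := hI1 i hi
  obtain ⟨hk1, hkN, hkV, hkC⟩ := hK1 k hk
  have hE' : ∀ e ∈ E, e ∈ pe Q := hEQ
  rcases hcase with ⟨h1, h2, h3, h4⟩ | ⟨h1, h2, h3, h4⟩ | ⟨h1, h2, h3, h4⟩ | ⟨h1, h2, h3, h4⟩ |
    ⟨h1, h2, h3, h4⟩ | ⟨h1, h2, h3, h4⟩
  · refine swap col A G Res U Vf x₀ d s B hC x Q hQ hQU hx E hE' hA hR hG (j + 1) i (k + 1)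
      (by omega) h1 (by omega) hkN 0 (Or.inl hGj) (Or.inr hiV) (Or.inl hkV)
      s(x 0, x i) s(x (N - 1), x k) s(x (i - 1), x j) s(x (k + 1), x (j + 1)) ?_
      hiC hkC h3.2 h4.2
    ext e
    simp only [newE, mem_insert, mem_singleton, Nat.add_sub_cancel, ← hN]
    rw [Sym2.eq_swap (a := x (j + 1)) (b := x (k + 1)), Sym2.eq_swap (a := x i) (b := x 0),
      Sym2.eq_swap (a := x j) (b := x (i - 1))]
    tauto
  · refine swap col A G Res U Vf x₀ d s B hC x Q hQ hQU hx E hE' hA hR hG i (j + 1) (k + 1)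
      (by omega) (by omega) (by omega) hkN 1 (Or.inr hiV) (Or.inl hGj) (Or.inl hkV)
      s(x 0, x i) s(x (N - 1), x k) s(x (i - 1), x (j + 1)) s(x (k + 1), x j) ?_
      hiC hkC h3.2 h4.2
    ext e
    simp only [newE, mem_insert, mem_singleton, Nat.add_sub_cancel, ← hN]
    rw [Sym2.eq_swap (a := x j) (b := x (k + 1)),
      Sym2.eq_swap (a := x (j + 1)) (b := x (i - 1))]
    tauto
  · refine swap col A G Res U Vf x₀ d s B hC x Q hQ hQU hx E hE' hA hR hG i (k + 1) (j + 1)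
      (by omega) (by omega) (by omega) hj 2 (Or.inr hiV) (Or.inl hkV) (Or.inl hGj)
      s(x 0, x i) s(x (N - 1), x k) s(x (i - 1), x j) s(x (k + 1), x (j + 1)) ?_
      hiC hkC h3.2 h4.2
    ext e
    simp only [newE, mem_insert, mem_singleton, Nat.add_sub_cancel, ← hN]
    rw [Sym2.eq_swap (a := x k) (b := x (N - 1)), Sym2.eq_swap (a := x (j + 1)) (b := x (k + 1)),
      Sym2.eq_swap (a := x j) (b := x (i - 1))]
    tauto
  · refine swap col A G Res U Vf x₀ d s B hC x Q hQ hQU hx E hE' hA hR hG (j + 1) k i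
      (by omega) (by omega) (by omega) hiN 3 (Or.inl hGj) (Or.inr hkV) (Or.inr hiV)
      s(x 0, x i) s(x (N - 1), x k) s(x (i - 1), x (j + 1)) s(x (k - 1), x j) ?_
      hiC hkC h3.2 h4.2
    ext e
    simp only [newE, mem_insert, mem_singleton, Nat.add_sub_cancel, ← hN]
    rw [Sym2.eq_swap (a := x k) (b := x (N - 1)), Sym2.eq_swap (a := x i) (b := x 0),
      Sym2.eq_swap (a := x j) (b := x (k - 1)), Sym2.eq_swap (a := x (j + 1)) (b := x (i - 1))]
    tauto
  · refine swap col A G Res U Vf x₀ d s B hC x Q hQ hQU hx E hE' hA hR hG k (j + 1) i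
      (by omega) (by omega) (by omega) hiN 4 (Or.inr hkV) (Or.inl hGj) (Or.inr hiV)
      s(x 0, x i) s(x (N - 1), x k) s(x (i - 1), x j) s(x (k - 1), x (j + 1)) ?_
      hiC hkC h3.2 h4.2
    ext e
    simp only [newE, mem_insert, mem_singleton, Nat.add_sub_cancel, ← hN]
    rw [Sym2.eq_swap (a := x (j + 1)) (b := x (k - 1)), Sym2.eq_swap (a := x j) (b := x (i - 1))]
    tauto
  · refine swap col A G Res U Vf x₀ d s B hC x Q hQ hQU hx E hE' hA hR hG k i (j + 1)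
      (by omega) (by omega) (by omega) hj 5 (Or.inr hkV) (Or.inr hiV) (Or.inl hGj)
      s(x 0, x i) s(x (N - 1), x k) s(x (i - 1), x j) s(x (k - 1), x (j + 1)) ?_
      hiC hkC h3.2 h4.2
    ext e
    simp only [newE, mem_insert, mem_singleton, Nat.add_sub_cancel, ← hN]
    rw [Sym2.eq_swap (a := x k) (b := x (N - 1)), Sym2.eq_swap (a := x (j + 1)) (b := x (k - 1)),
      Sym2.eq_swap (a := x j) (b := x (i - 1))]
    tauto

end Pool.Agent.W_cd7020_h81
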