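import Pool.Agent.W_cd7020_h81.Greedy

/-!
# Expansion of the reserved colours
-/

set_option autoImplicit false

namespace Pool.Agent.W_cd7020_h81

open Finset

variable {V κ : Type*} [DecidableEq V] [DecidableEq κ] [Fintype V]

open Classical in
/-- The expansion property: if `|X| ≥ x` and at most `s` colours are used, then all but at most
`4 x ^ 2 + 4 |G| + 2 x` vertices `w` have an edge to a vertex of `X` with an unused colour in `Res`.

Proof. We may assume `|X| = x` (take a subset). Otherwise `greedy` for `X` and `W \ X`, where `W` is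
the set of the other vertices (`|W \ X| ≥ 4 x ^ 2 + 4 |G| + x`), gives `Y`, and by `hR` the set
`btw col G X Y ∩ Res` has more than `s` elements, so one of them is not used; it is the colour
of an edge from `X` to `Y ⊆ W`, a contradiction. -/
theorem expand (col : Sym2 V → κ) (hcol : Proper col) (G Res : Finset κ) (x s : ℕ)
    (hR : ∀ X Y : Finset V, X.card = x → Y.card = x → x ^ 2 ≤ 2 * (btw col G X Y).card →
      s + 1 ≤ ((btw col G X Y) ∩ Res).card)
    (X : Finset V) (hX : x ≤ X.card) (Us : Finset κ) (hU : Us.card ≤ s) :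
    (univ.filter (fun w => ∀ a ∈ X, a ≠ w → col s(a, w) ∈ Res → col s(a, w) ∈ Us)).card ≤
      4 * x ^ 2 + 4 * G.card + 2 * x := by
  by_contra hcon
  push Not at hcon
  obtain ⟨X', hX'X, hX'c⟩ := Finset.exists_subset_card_eq hX
  set W₀ : Finset V := univ.filter
    (fun w => ∀ a ∈ X, a ≠ w → col s(a, w) ∈ Res → col s(a, w) ∈ Us) with hW₀
  have hWc : 4 * x ^ 2 + 4 * G.card + x ≤ (W₀ \ X').card := by
    have h1 := Finset.le_card_sdiff X' W₀
    omega
  obtain ⟨Y, hYW, hYc, hYb⟩ := greedy col hcol G x X' (W₀ \ X') hX'c Finset.disjoint_sdiff hWc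
  have h2 := hR X' Y hX'c hYc hYb
  have h3 : ∃ k ∈ btw col G X' Y ∩ Res, k ∉ Us := by
    by_contra h4
    push Not at h4
    have h5 := Finset.card_le_card (show btw col G X' Y ∩ Res ⊆ Us from h4)
    omega
  obtain ⟨k, hk, hkU⟩ := h3
  rw [Finset.mem_inter] at hk
  obtain ⟨hk1, hkR⟩ := hk
  unfold btw at hk1
  rw [Finset.mem_sdiff, Finset.mem_image] at hk1
  obtain ⟨⟨⟨a, w⟩, haw, rfl⟩, _⟩ := hk1
  rw [Finset.mem_product] at haw
  have hw := Finset.mem_sdiff.1 (hYW haw.2)
  have hne : a ≠ w := by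
    rintro rfl
    exact hw.2 haw.1
  exact hkU ((Finset.mem_filter.1 hw.1).2 a (hX'X haw.1) hne hkR)

end Pool.Agent.W_cd7020_h81
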