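import Mathlib

/-!
# The numerical conditions
-/

set_option autoImplicit false

namespace Pool.Agent.W_cd7020_h81

/-- All numerical conditions. `n` vertices, `m` triangles, `n ≤ 2 ^ L`, `σ` saturated vertices.

Hints. `m ≥ 10 ^ 8 L √n` so `m ≥ 10 ^ 8 L`; `P m > 1024 n` and `P m ≤ 1025 n`;
`x m ≤ 1025000 L n`, so `x ^ 2 ≤ 1.06 · 10 ^ 12 · L ^ 2 n ^ 2 / m ^ 2 ≤ n / 9000`. All powers of `2` are
compared through their exponents (`Nat.pow_le_pow_right`, `pow_add`, `4 = 2 ^ 2`). -/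
theorem numbers (n m L σ : ℕ) (hL : 1 ≤ L) (hn : n ≤ 2 ^ L)
    (hm : 10 ^ 16 * L ^ 2 * n ≤ m ^ 2) (hmn : 1000 * m ≤ n) (hm1 : 1 ≤ m) (hσ : σ * m ≤ L * n) :
    ∃ P x a b d s₃ h B : ℕ,
      4 ≤ P ∧ 12 * m + 2 ≤ n ∧ b = 142 * L ∧ 43 ≤ m ∧ 1 ≤ a ∧ 1 ≤ x ∧
      2 ^ L * 16 * 2 ^ d ≤ 2 ^ ((n / 2) / (2 * P)) ∧
      2 ^ (2 * L * x) * 16 * 2 ^ (x + 1) ≤ 2 ^ ((x ^ 2 / 2) / (2 * P)) ∧
      2 ^ L * 16 * 4 ^ (n / P + 1) ≤ 2 ^ s₃ ∧
      64 * b * n ≤ a * m ∧ 16 * h ≤ m ∧ 4 * s₃ + m / 100 ≤ h ∧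
      4 * (a + σ) + 4 ≤ m ∧ 4 * (a + σ) ≤ x ∧ 5 * x + 1 ≤ d ∧
      4 * x ^ 2 + 12 * m + 2 * x ≤ B ∧ 3 * (2 * B + 3 * m + 5) < n - m := by
  have hm0 : 0 < m := hm1
  have hL0 : 0 < L := hL
  have hn0 : 0 < n := by omega
  -- `m` is large
  have hLL : L ≤ L ^ 2 := by nlinarith
  have f1 : 10 ^ 19 * L ^ 2 ≤ m := by
    have h1 : 10 ^ 19 * L ^ 2 * m ≤ m * m := by
      calc 10 ^ 19 * L ^ 2 * m = 10 ^ 16 * L ^ 2 * (1000 * m) := by ring
        _ ≤ 10 ^ 16 * L ^ 2 * n := Nat.mul_le_mul_left _ hmn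
        _ ≤ m ^ 2 := hm
        _ = m * m := by ring
    exact Nat.le_of_mul_le_mul_right h1 hm0
  have f1' : 10 ^ 19 * L ≤ m := le_trans (Nat.mul_le_mul_left _ hLL) f1
  obtain ⟨P, hP⟩ : ∃ P, P = 1024 * n / m + 1 := ⟨_, rfl⟩
  obtain ⟨a, ha⟩ : ∃ a, a = 64 * (142 * L) * n / m + 1 := ⟨_, rfl⟩
  obtain ⟨x, hx⟩ : ∃ x, x = 1000 * L * P := ⟨_, rfl⟩
  have hP1 : 1024 * n < m * P := by
    rw [hP]
    exact Nat.lt_mul_div_succ _ hm0
  have hP2 : m * P ≤ 1024 * n + m := by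
    rw [hP, Nat.mul_add, Nat.mul_one]
    exact Nat.add_le_add_right (Nat.mul_div_le _ _) _
  have ha1 : 64 * (142 * L) * n < m * a := by
    rw [ha]
    exact Nat.lt_mul_div_succ _ hm0
  have ha2 : m * a ≤ 64 * (142 * L) * n + m := by
    rw [ha, Nat.mul_add, Nat.mul_one]
    exact Nat.add_le_add_right (Nat.mul_div_le _ _) _
  have hPbig : 1024000 ≤ P := by
    have h1 : m * 1024000 ≤ m * P := by omega
    exact Nat.le_of_mul_le_mul_left h1 hm0
  have hP3 : m * P ≤ 1025 * n := by omega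
  have hx1 : m * x ≤ 1025000 * (L * n) := by
    calc m * x = 1000 * L * (m * P) := by rw [hx]; ring
      _ ≤ 1000 * L * (1025 * n) := Nat.mul_le_mul_left _ hP3
      _ = _ := by ring
  have hx2 : 1024000 * (L * n) ≤ m * x := by
    calc 1024000 * (L * n) = 1000 * L * (1024 * n) := by ring
      _ ≤ 1000 * L * (m * P) := Nat.mul_le_mul_left _ hP1.le
      _ = m * x := by rw [hx]; ring
  have hnLn : n ≤ L * n := Nat.le_mul_of_pos_left n hL0
  have hLn : 10 ^ 16 * (L * n) ≤ m * m := by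
    calc 10 ^ 16 * (L * n) ≤ 10 ^ 16 * (L ^ 2 * n) :=
          Nat.mul_le_mul_left _ (Nat.mul_le_mul_right _ hLL)
      _ = 10 ^ 16 * L ^ 2 * n := by ring
      _ ≤ m ^ 2 := hm
      _ = m * m := by ring
  have f6 : 10 ^ 16 * x ≤ 1025000 * m := by
    have h1 : m * (10 ^ 16 * x) ≤ m * (1025000 * m) := by
      calc m * (10 ^ 16 * x) = 10 ^ 16 * (m * x) := by ring
        _ ≤ 10 ^ 16 * (1025000 * (L * n)) := Nat.mul_le_mul_left _ hx1
        _ = 1025000 * (10 ^ 16 * (L * n)) := by ring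
        _ ≤ 1025000 * (m * m) := Nat.mul_le_mul_left _ hLn
        _ = m * (1025000 * m) := by ring
    exact Nat.le_of_mul_le_mul_left h1 hm0
  have f7 : 10 ^ 16 * x ^ 2 ≤ 1025000 ^ 2 * n := by
    have h1 : (L ^ 2 * n) * (10 ^ 16 * x ^ 2) ≤ (L ^ 2 * n) * (1025000 ^ 2 * n) := by
      calc (L ^ 2 * n) * (10 ^ 16 * x ^ 2) = (10 ^ 16 * L ^ 2 * n) * x ^ 2 := by ring
        _ ≤ m ^ 2 * x ^ 2 := Nat.mul_le_mul_right _ hm
        _ = (m * x) ^ 2 := by ring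
        _ ≤ (1025000 * (L * n)) ^ 2 := Nat.pow_le_pow_left hx1 2
        _ = (L ^ 2 * n) * (1025000 ^ 2 * n) := by ring
    exact Nat.le_of_mul_le_mul_left h1 (by positivity)
  have f8 : m * (4 * (a + σ)) ≤ 36356 * (L * n) + 4 * m := by
    have h1 : m * (4 * (a + σ)) = 4 * (m * a) + 4 * (σ * m) := by ring
    have h2 : 64 * (142 * L) * n = 9088 * (L * n) := by ring
    rw [h2] at ha2
    rw [h1]
    omega
  have f9 : 4 * (a + σ) ≤ x := by
    have h1 : m * (4 * (a + σ)) ≤ m * x := by omega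
    exact Nat.le_of_mul_le_mul_left h1 hm0
  have f10 : 4 * (a + σ) + 4 ≤ m := by omega
  have hdiv : ∀ y z : ℕ, (y / 2) / (2 * z) = y / (4 * z) := by
    intro y z
    rw [Nat.div_div_eq_div_mul]
    congr 1
    ring
  have hPpos : 0 < 4 * P := by omega
  have hq1 : m / 4100 ≤ n / (4 * P) := by
    rw [Nat.le_div_iff_mul_le hPpos]
    have h1 : 4100 * (m / 4100) ≤ m := Nat.mul_div_le _ _
    have h2 : m / 4100 * (4 * P) * 4100 ≤ n * 4100 := by
      calc m / 4100 * (4 * P) * 4100 = 4 * P * (4100 * (m / 4100)) := by ring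
        _ ≤ 4 * P * m := Nat.mul_le_mul_left _ h1
        _ = 4 * (m * P) := by ring
        _ ≤ n * 4100 := by omega
    exact Nat.le_of_mul_le_mul_right h2 (by norm_num)
  have hq2 : x ^ 2 / (4 * P) = 250 * L * x := by
    have h1 : x ^ 2 = (250 * L * x) * (4 * P) := by
      calc x ^ 2 = x * x := by ring
        _ = x * (1000 * L * P) := by rw [← hx]
        _ = _ := by ring
    rw [h1]
    exact Nat.mul_div_cancel _ hPpos
  have hq3 : n / P ≤ m / 1024 := by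
    rw [Nat.le_div_iff_mul_le (by norm_num)]
    have h1 : P * (n / P) ≤ n := Nat.mul_div_le _ _
    have h2 : P * (n / P * 1024) ≤ P * m := by
      calc P * (n / P * 1024) = 1024 * (P * (n / P)) := by ring
        _ ≤ 1024 * n := Nat.mul_le_mul_left _ h1
        _ ≤ m * P := hP1.le
        _ = P * m := by ring
    exact Nat.le_of_mul_le_mul_left h2 (by omega)
  have hx0 : 1 ≤ x := by
    rw [hx]
    have : 0 < 1000 * L * P := by positivity
    exact this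
  have ha0 : 1 ≤ a := by
    rw [ha]
    exact Nat.le_add_left _ _
  have h16 : (16 : ℕ) = 2 ^ 4 := by norm_num
  have h4 : (4 : ℕ) = 2 ^ 2 := by norm_num
  refine ⟨P, x, a, 142 * L, m / 10000, m / 256, m / 16, 4 * x ^ 2 + 12 * m + 2 * x, by omega,
    by omega, rfl, by omega, ha0, hx0, ?_, ?_, ?_, ?_, by omega, by omega, f10, f9, by omega,
    le_rfl, ?_⟩
  · rw [hdiv, h16, ← pow_add, ← pow_add]
    refine Nat.pow_le_pow_right (by norm_num) (le_trans ?_ hq1)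
    omega
  · rw [hdiv, hq2, h16, ← pow_add, ← pow_add]
    refine Nat.pow_le_pow_right (by norm_num) ?_
    have h1 : x ≤ L * x := Nat.le_mul_of_pos_left x hL0
    have h2 : 250 * L * x = 250 * (L * x) := by ring
    have h3 : 2 * L * x = 2 * (L * x) := by ring
    rw [h2, h3]
    omega
  · rw [h4, ← pow_mul, h16, ← pow_add, ← pow_add]
    refine Nat.pow_le_pow_right (by norm_num) ?_
    omega
  · rw [mul_comm a m]
    exact ha1.le
  · omega

end Pool.Agent.W_cd7020_h81
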