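import Pool.Agent.W_cd7020_h81.Union

/-!
# Reserved colours
-/

set_option autoImplicit false

namespace Pool.Agent.W_cd7020_h81

open Finset

variable {V κ : Type*} [DecidableEq V] [DecidableEq κ] [Fintype V] [Fintype κ]

theorem Reserve_inj (col : Sym2 V → κ) (hcol : Proper col) (x : V) (S : Finset V)
    (hS : ∀ w ∈ S, w ≠ x) : Set.InjOn (fun w => col s(x, w)) S := by
  intro w hw z hz hwz
  by_contra hne
  exact hcol x w z (Ne.symm (hS w hw)) (Ne.symm (hS z hz)) hne hwz

/-- The reserved colours exist. `G` is a set of at most `3 m` colours, `Vf` a set of at least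
`n - 3 m` vertices.

Proof. `union_bound` for
* `L₁` = the sets of colours of the edges from `x` to `Vf \ {x}`, outside `G`: at least
  `n - 3 m - 1 - 3 m ≥ n / 2` colours (`Proper`); at most `n ≤ 2 ^ L` such sets;
* `L₂` = the sets `btw col G X Y` with `|X| = |Y| = x₀` and `x₀ ^ 2 ≤ 2 |btw col G X Y|`: at most
  `(2 ^ L) ^ x₀ · (2 ^ L) ^ x₀` sets (`Finset.card_powersetCard`, `Nat.choose_le_pow`);
* `W` = for each `x` the set of all colours of edges at `x`: at most `n` colours. 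
`Res g = {k | f k = g} \ G`. -/
theorem reserve (col : Sym2 V → κ) (hcol : Proper col) (G : Finset κ) (Vf : Finset V)
    (m L P x₀ d s₂ s₃ : ℕ) (hP : 4 ≤ P)
    (hG : G.card ≤ 3 * m) (hVf : Fintype.card V ≤ Vf.card + 3 * m)
    (hm : 12 * m + 2 ≤ Fintype.card V) (hn : Fintype.card V ≤ 2 ^ L)
    (h₁ : 2 ^ L * 16 * 2 ^ d ≤ 2 ^ ((Fintype.card V / 2) / (2 * P)))
    (h₂ : 2 ^ (2 * L * x₀) * 16 * 2 ^ s₂ ≤ 2 ^ ((x₀ ^ 2 / 2) / (2 * P)))
    (h₃ : 2 ^ L * 16 * 4 ^ (Fintype.card V / P + 1) ≤ 2 ^ s₃) :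
    ∃ Res : Fin 4 → Finset κ,
      (∀ g, Disjoint (Res g) G) ∧ (∀ g g', g ≠ g' → Disjoint (Res g) (Res g')) ∧
      (∀ g x, d ≤ (Vf.filter (fun w => w ≠ x ∧ col s(x, w) ∈ Res g)).card) ∧
      (∀ g, ∀ X Y : Finset V, X.card = x₀ → Y.card = x₀ → x₀ ^ 2 ≤ 2 * (btw col G X Y).card →
        s₂ ≤ ((btw col G X Y) ∩ Res g).card) ∧
      ∀ g x, (univ.filter (fun w => w ≠ x ∧ col s(x, w) ∈ Res g)).card < s₃ := by
  classical
  set n := Fintype.card V with hn0
  set K1 : V → Finset κ := fun x => ((Vf.filter (fun w => w ≠ x)).image (fun w => col s(x, w))) \ G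
    with hK1
  set K3 : V → Finset κ := fun x => (univ.filter (fun w => w ≠ x)).image (fun w => col s(x, w))
    with hK3
  set L2 : Finset (Finset κ) := (((univ : Finset V).powersetCard x₀ ×ˢ
    (univ : Finset V).powersetCard x₀).image (fun q => btw col G q.1 q.2)).filter
      (fun K => x₀ ^ 2 ≤ 2 * K.card) with hL2
  have hL1c : (univ.image K1).card ≤ 2 ^ L := Finset.card_image_le.trans (by
    rw [Finset.card_univ]; exact hn)
  have hWc : (univ.image K3).card ≤ 2 ^ L := Finset.card_image_le.trans (by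
    rw [Finset.card_univ]; exact hn)
  have hL2c : L2.card ≤ 2 ^ (2 * L * x₀) := by
    refine (Finset.card_filter_le _ _).trans (Finset.card_image_le.trans ?_)
    rw [Finset.card_product, Finset.card_powersetCard, Finset.card_univ, ← hn0]
    have h1 : n.choose x₀ ≤ (2 ^ L) ^ x₀ :=
      (Nat.choose_le_pow n x₀).trans (Nat.pow_le_pow_left hn x₀)
    calc n.choose x₀ * n.choose x₀ ≤ (2 ^ L) ^ x₀ * (2 ^ L) ^ x₀ := Nat.mul_le_mul h1 h1
      _ = 2 ^ (2 * L * x₀) := by
          rw [← pow_mul, ← pow_add]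
          congr 1
          ring
  have hl1 : ∀ K ∈ univ.image K1, n / 2 ≤ K.card := by
    intro K hK
    rw [Finset.mem_image] at hK
    obtain ⟨x, -, rfl⟩ := hK
    have e1 : (Vf.filter (fun w => w ≠ x)).card ≤ (K1 x).card + G.card := by
      have e2 := Finset.le_card_sdiff G ((Vf.filter (fun w => w ≠ x)).image (fun w => col s(x, w)))
      rw [Finset.card_image_of_injOn (Reserve_inj col hcol x _ fun w hw =>
        (Finset.mem_filter.1 hw).2)] at e2
      simp only [hK1]
      omega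
    have e3 : Vf.card ≤ (Vf.filter (fun w => w ≠ x)).card + 1 := by
      have e4 := Finset.pred_card_le_card_erase (s := Vf) (a := x)
      have e5 : Vf.erase x = Vf.filter (fun w => w ≠ x) := by
        ext w
        rw [Finset.mem_erase, Finset.mem_filter]
        tauto
      rw [e5] at e4
      omega
    omega
  have hl2 : ∀ K ∈ L2, x₀ ^ 2 / 2 ≤ K.card := by
    intro K hK
    have := (Finset.mem_filter.1 hK).2
    omega
  have hu : ∀ K ∈ univ.image K3, K.card ≤ n := by
    intro K hK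
    rw [Finset.mem_image] at hK
    obtain ⟨x, -, rfl⟩ := hK
    refine Finset.card_image_le.trans ((Finset.card_filter_le _ _).trans ?_)
    rw [Finset.card_univ]
  obtain ⟨f, hf⟩ := union_bound P hP (univ.image K1) L2 (univ.image K3) (n / 2) d (x₀ ^ 2 / 2) s₂ n
    s₃ hl1 hl2 hu ((Nat.mul_le_mul_right _ (Nat.mul_le_mul_right _ hL1c)).trans h₁)
    ((Nat.mul_le_mul_right _ (Nat.mul_le_mul_right _ hL2c)).trans h₂)
    ((Nat.mul_le_mul_right _ (Nat.mul_le_mul_right _ hWc)).trans h₃)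
  set em : Fin 4 → Fin P := fun g => ⟨g.val, lt_of_lt_of_le g.2 hP⟩ with hem
  refine ⟨fun g => (univ.filter (fun k => f k = em g)) \ G, ?_, ?_, ?_, ?_, ?_⟩
  · intro g
    exact Finset.sdiff_disjoint
  · intro g g' hgg
    rw [Finset.disjoint_left]
    intro k hk hk'
    rw [Finset.mem_sdiff, Finset.mem_filter] at hk hk'
    apply hgg
    have h1 : em g = em g' := hk.1.2.symm.trans hk'.1.2
    have h2 := congrArg Fin.val h1
    exact Fin.ext h2
  · intro g x
    refine ((hf (em g) g.2).1 (K1 x) (Finset.mem_image_of_mem _ (Finset.mem_univ x))).trans ?_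
    refine (Finset.card_le_card ?_).trans
      (Finset.card_image_le (s := Vf.filter (fun w => w ≠ x ∧
        col s(x, w) ∈ (univ.filter (fun k => f k = em g)) \ G)) (f := fun w => col s(x, w)))
    intro k hk
    simp only [hK1] at hk
    rw [Finset.mem_filter, Finset.mem_sdiff, Finset.mem_image] at hk
    obtain ⟨⟨⟨w, hw, rfl⟩, hkG⟩, hkf⟩ := hk
    rw [Finset.mem_filter] at hw
    rw [Finset.mem_image]
    exact ⟨w, Finset.mem_filter.2 ⟨hw.1, hw.2, Finset.mem_sdiff.2
      ⟨Finset.mem_filter.2 ⟨Finset.mem_univ _, hkf⟩, hkG⟩⟩, rfl⟩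
  · intro g X Y hX hY hXY
    have h1 : btw col G X Y ∈ L2 := by
      rw [hL2, Finset.mem_filter, Finset.mem_image]
      exact ⟨⟨(X, Y), Finset.mem_product.2 ⟨Finset.mem_powersetCard.2 ⟨Finset.subset_univ _, hX⟩,
        Finset.mem_powersetCard.2 ⟨Finset.subset_univ _, hY⟩⟩, rfl⟩, hXY⟩
    refine ((hf (em g) g.2).2.1 _ h1).trans (Finset.card_le_card ?_)
    intro k hk
    rw [Finset.mem_filter] at hk
    rw [Finset.mem_inter, Finset.mem_sdiff, Finset.mem_filter]
    exact ⟨hk.1, ⟨Finset.mem_univ _, hk.2⟩, (Finset.mem_sdiff.1 hk.1).2⟩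
  · intro g x
    refine lt_of_le_of_lt ?_
      ((hf (em g) g.2).2.2 (K3 x) (Finset.mem_image_of_mem _ (Finset.mem_univ x)))
    refine Finset.card_le_card_of_injOn (fun w => col s(x, w)) ?_
      (Reserve_inj col hcol x _ fun w hw => (Finset.mem_filter.1 hw).2.1)
    intro w hw
    rw [Finset.mem_coe, Finset.mem_filter, Finset.mem_sdiff, Finset.mem_filter] at hw
    rw [Finset.mem_coe, Finset.mem_filter]
    exact ⟨Finset.mem_image.2 ⟨w, Finset.mem_filter.2 ⟨Finset.mem_univ _, hw.2.1⟩, rfl⟩,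
      hw.2.2.1.2⟩

end Pool.Agent.W_cd7020_h81
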