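import Pool.Agent.W_cd7020_h81.JoinIso

/-!
# The fixed edges of the triangles
-/

set_option autoImplicit false

namespace Pool.Agent.W_cd7020_h81

open Finset

variable {V κ : Type*} [DecidableEq V] [DecidableEq κ] [Fintype V]

/-- The fixed edges `s(t i 1, t i 2)`. -/
def fixA (m : ℕ) (t : Fin m → Fin 3 → V) : Finset (Sym2 V) :=
  univ.image (fun i => s(t i 1, t i 2))

/-- The vertices `t i 0`. -/
def topV (m : ℕ) (t : Fin m → Fin 3 → V) : Finset V := univ.image (fun i => t i 0)

/-- The vertices in no triangle. -/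
def freeV (m : ℕ) (t : Fin m → Fin 3 → V) : Finset V :=
  univ \ univ.image (fun p : Fin m × Fin 3 => t p.1 p.2)

/-- The special colours: `col s(t i 0, t i 1)` and `col s(t i 2, t i 0)`. -/
def spec (col : Sym2 V → κ) (m : ℕ) (t : Fin m → Fin 3 → V) : Finset κ :=
  univ.image (fun i => col s(t i 0, t i 1)) ∪ univ.image (fun i => col s(t i 2, t i 0))

/-- All the colours of the triangles. -/
def allC (col : Sym2 V → κ) (m : ℕ) (t : Fin m → Fin 3 → V) : Finset κ :=
  univ.image (fun p : Fin m × Fin 3 => col s(t p.1 p.2, t p.1 (p.2 + 1)))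

variable (col : Sym2 V → κ) (m : ℕ) (t : Fin m → Fin 3 → V)
  (ht : Function.Injective (fun p : Fin m × Fin 3 => t p.1 p.2))
  (hc : Function.Injective (fun p : Fin m × Fin 3 => col s(t p.1 p.2, t p.1 (p.2 + 1))))

include ht in
theorem TriA_inj {i j : Fin m} {a b : Fin 3} (h : t i a = t j b) : i = j ∧ a = b := by
  have h1 : (i, a) = (j, b) := ht h
  exact Prod.mk.inj h1

include hc in
theorem TriA_cinj {i j : Fin m} {a b : Fin 3}
    (h : col s(t i a, t i (a + 1)) = col s(t j b, t j (b + 1))) : i = j ∧ a = b := by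
  have h1 : (i, a) = (j, b) := hc h
  exact Prod.mk.inj h1

include ht in
theorem TriA_not_top (i : Fin m) {a : Fin 3} (ha : a ≠ 0) : t i a ∈ univ \ topV m t := by
  rw [Finset.mem_sdiff]
  refine ⟨Finset.mem_univ _, fun h => ?_⟩
  obtain ⟨j, -, hj⟩ := Finset.mem_image.1 h
  exact ha (TriA_inj m t ht hj).2.symm

include ht in
/-- Add the edges one by one with `LF.join_iso` (start: the empty set is a linear forest on every
finite set, take `U.toList`). -/
theorem fixA_LF : LF (univ \ topV m t) (fixA m t) := by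
  have key : ∀ S : Finset (Fin m), LF (univ \ topV m t) (S.image (fun i => s(t i 1, t i 2))) := by
    intro S
    induction S using Finset.induction_on with
    | empty =>
      refine ⟨(univ \ topV m t).toList, Finset.nodup_toList _, fun v => Finset.mem_toList, ?_⟩
      intro e he
      simp at he
    | insert i S hi ih =>
      rw [Finset.image_insert]
      have hdg : ∀ a : Fin 3, dg (S.image (fun i => s(t i 1, t i 2))) (t i a) = 0 := by
        intro a
        unfold dg
        rw [Finset.card_eq_zero, Finset.filter_eq_empty_iff]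
        intro e he hmem
        obtain ⟨j, hj, rfl⟩ := Finset.mem_image.1 he
        rw [Sym2.mem_iff] at hmem
        rcases hmem with h | h
        · have := (TriA_inj m t ht h).1
          exact hi (this ▸ hj)
        · have := (TriA_inj m t ht h).1
          exact hi (this ▸ hj)
      refine ih.join_iso ?_ ?_ ?_ ?_ (hdg 2)
      · exact TriA_not_top m t ht i (by decide)
      · exact TriA_not_top m t ht i (by decide)
      · intro h
        exact absurd (TriA_inj m t ht h).2 (by decide)
      · rw [hdg 1]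
        exact Nat.zero_le _
  exact key univ

include ht in
theorem fixA_dg (y : V) : dg (fixA m t) y ≤ 1 := by
  unfold dg
  rw [Finset.card_le_one]
  intro e he e' he'
  rw [Finset.mem_filter] at he he'
  obtain ⟨h1, h2⟩ := he
  obtain ⟨h3, h4⟩ := he'
  obtain ⟨i, -, rfl⟩ := Finset.mem_image.1 h1
  obtain ⟨j, -, rfl⟩ := Finset.mem_image.1 h3
  rw [Sym2.mem_iff] at h2 h4
  have hij : i = j := by
    rcases h2 with h2 | h2 <;> rcases h4 with h4 | h4 <;>
      exact (TriA_inj m t ht (h2.symm.trans h4)).1
  rw [hij]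

theorem fixA_card : (fixA m t).card ≤ m := by
  refine Finset.card_image_le.trans ?_
  rw [Finset.card_univ, Fintype.card_fin]

include ht in
theorem topV_card : (topV m t).card = m := by
  unfold topV
  rw [Finset.card_image_of_injective, Finset.card_univ, Fintype.card_fin]
  intro i j h
  exact (TriA_inj m t ht h).1

include ht in
theorem freeV_card : Fintype.card V = (freeV m t).card + 3 * m := by
  have h1 : (univ.image (fun p : Fin m × Fin 3 => t p.1 p.2)).card = 3 * m := by
    rw [Finset.card_image_of_injective _ ht, Finset.card_univ, Fintype.card_prod,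
      Fintype.card_fin, Fintype.card_fin, mul_comm]
  have h2 := Finset.card_sdiff_add_card_eq_card
    (Finset.subset_univ (univ.image (fun p : Fin m × Fin 3 => t p.1 p.2)))
  rw [h1, Finset.card_univ] at h2
  exact h2.symm

theorem allC_card : (allC col m t).card ≤ 3 * m := by
  refine Finset.card_image_le.trans ?_
  rw [Finset.card_univ, Fintype.card_prod, Fintype.card_fin, Fintype.card_fin, mul_comm]

theorem spec_sub : spec col m t ⊆ allC col m t := by
  intro k hk
  unfold spec at hk
  rw [Finset.mem_union] at hk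
  rcases hk with hk | hk
  · obtain ⟨i, -, rfl⟩ := Finset.mem_image.1 hk
    exact Finset.mem_image.2 ⟨(i, 0), Finset.mem_univ _, rfl⟩
  · obtain ⟨i, -, rfl⟩ := Finset.mem_image.1 hk
    exact Finset.mem_image.2 ⟨(i, 2), Finset.mem_univ _, rfl⟩

include hc in
/-- The fixed edges have distinct colours. -/
theorem fixA_Rb : Rb col (fixA m t) := by
  intro e he e' he' h
  obtain ⟨i, -, rfl⟩ := Finset.mem_image.1 he
  obtain ⟨j, -, rfl⟩ := Finset.mem_image.1 he'
  have h1 : i = j := (TriA_cinj col m t hc (a := 1) (b := 1) h).1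
  rw [h1]

theorem fixA_allC (e : Sym2 V) (he : e ∈ fixA m t) : col e ∈ allC col m t := by
  obtain ⟨i, -, rfl⟩ := Finset.mem_image.1 he
  exact Finset.mem_image.2 ⟨(i, 1), Finset.mem_univ _, rfl⟩

include hc in
theorem fixA_spec (e : Sym2 V) (he : e ∈ fixA m t) : col e ∉ spec col m t := by
  obtain ⟨i, -, rfl⟩ := Finset.mem_image.1 he
  intro hk
  unfold spec at hk
  rw [Finset.mem_union] at hk
  rcases hk with hk | hk
  · obtain ⟨j, -, hj⟩ := Finset.mem_image.1 hk
    exact absurd (TriA_cinj col m t hc (a := 0) (b := 1) hj).2 (by decide)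
  · obtain ⟨j, -, hj⟩ := Finset.mem_image.1 hk
    exact absurd (TriA_cinj col m t hc (a := 2) (b := 1) hj).2 (by decide)

theorem fixA_free (e : Sym2 V) (he : e ∈ fixA m t) (v : V) (hv : v ∈ e) : v ∉ freeV m t := by
  obtain ⟨i, -, rfl⟩ := Finset.mem_image.1 he
  unfold freeV
  rw [Finset.mem_sdiff]
  rintro ⟨-, h⟩
  apply h
  rw [Sym2.mem_iff] at hv
  rcases hv with rfl | rfl
  · exact Finset.mem_image.2 ⟨(i, 1), Finset.mem_univ _, rfl⟩
  · exact Finset.mem_image.2 ⟨(i, 2), Finset.mem_univ _, rfl⟩

theorem freeV_sub : freeV m t ⊆ univ \ topV m t := by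
  intro v hv
  unfold freeV at hv
  rw [Finset.mem_sdiff] at hv ⊢
  refine ⟨Finset.mem_univ _, fun h => hv.2 ?_⟩
  obtain ⟨i, -, rfl⟩ := Finset.mem_image.1 h
  exact Finset.mem_image.2 ⟨(i, 0), Finset.mem_univ _, rfl⟩

end Pool.Agent.W_cd7020_h81
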