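import Pool.Agent.W_cd7020_h81.Few
import Pool.Agent.W_cd7020_h81.Reserve
import Pool.Agent.W_cd7020_h81.Expand
import Pool.Agent.W_cd7020_h81.Close
import Pool.Agent.W_cd7020_h81.Absorb
import Pool.Agent.W_cd7020_h81.TriA
import Pool.Agent.W_cd7020_h81.Num

/-!
# The core theorem
-/

set_option autoImplicit false

namespace Pool.Agent.W_cd7020_h81

open Finset

variable {V κ : Type*} [DecidableEq V] [DecidableEq κ] [Fintype V] [Fintype κ]

/-- The core theorem: many disjoint rainbow triangles with spread colours give a rainbow Hamilton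
cycle. -/
theorem core (col : Sym2 V → κ) (hcol : Proper col) (m L : ℕ) (t : Fin m → Fin 3 → V)
    (ht : Function.Injective (fun p : Fin m × Fin 3 => t p.1 p.2))
    (hc : Function.Injective (fun p : Fin m × Fin 3 => col s(t p.1 p.2, t p.1 (p.2 + 1))))
    (hL : 1 ≤ L) (hn : Fintype.card V ≤ 2 ^ L)
    (hm : 10 ^ 16 * L ^ 2 * Fintype.card V ≤ m ^ 2) (hmn : 1000 * m ≤ Fintype.card V)
    (hm1 : 1 ≤ m)
    (hSat : (univ.filter (fun x => m < 100 * (univ.filter (fun w => w ≠ x ∧
      col s(x, w) ∈ spec col m t)).card)).card * m ≤ L * Fintype.card V) :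
    ∃ E : Finset (Sym2 V), Cyc univ E ∧ E.card = Fintype.card V ∧ Rb col E := by
  classical
  set n := Fintype.card V with hn'
  set Sat : Finset V := univ.filter (fun x => m < 100 * (univ.filter (fun w => w ≠ x ∧
      col s(x, w) ∈ spec col m t)).card) with hSatdef
  obtain ⟨P, x, a, b, d, s₃, h, B, hP, h10, hb, h43, ha1, hx1, hn1, hn2, hn3, hab, hh, hs3, haσ,
    haσx, hxd, hB, hBn⟩ := numbers n m L Sat.card hL hn hm hmn hm1 hSat
  have hfree := freeV_card m t ht
  obtain ⟨Res, hResG, hResD, hR1, hR3, hR2⟩ := reserve col hcol (allC col m t) (freeV m t)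
    m L P x d (x + 1) s₃ hP (allC_card col m t) hfree.le h10 hn hn1 hn2 hn3
  set Φ : Finset κ := (univ.biUnion Res) ∪ spec col m t with hΦ
  have hAΦ : ∀ e ∈ fixA m t, col e ∉ Φ := by
    intro e he
    rw [hΦ, mem_union, not_or, mem_biUnion]
    refine ⟨?_, fixA_spec col m t hc e he⟩
    rintro ⟨g, -, hg⟩
    exact (Finset.disjoint_left.1 (hResG g)) hg (fixA_allC col m t e he)
  have hAvalid : Valid col (fixA m t) Φ (univ \ topV m t) (fixA m t) :=
    ⟨fixA_LF m t ht, Subset.refl _, fixA_Rb col m t hc, hAΦ⟩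
  have hSat' : ∀ y, y ∉ Sat → (univ.filter (fun w => w ≠ y ∧ col s(y, w) ∈ Φ)).card ≤ h := by
    intro y hy
    have h1 : (univ.filter (fun w => w ≠ y ∧ col s(y, w) ∈ spec col m t)).card ≤ m / 100 := by
      rw [hSatdef, mem_filter] at hy
      have : ¬ (m < 100 * (univ.filter (fun w => w ≠ y ∧ col s(y, w) ∈ spec col m t)).card) :=
        fun h => hy ⟨mem_univ _, h⟩
      omega
    have h2 : univ.filter (fun w => w ≠ y ∧ col s(y, w) ∈ Φ) ⊆
        (univ.biUnion (fun g : Fin 4 => univ.filter (fun w => w ≠ y ∧ col s(y, w) ∈ Res g))) ∪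
          univ.filter (fun w => w ≠ y ∧ col s(y, w) ∈ spec col m t) := by
      intro w hw
      rw [mem_filter, hΦ, mem_union, mem_biUnion] at hw
      rcases hw with ⟨-, hwy, ⟨g, -, hg⟩ | hg⟩
      · exact mem_union_left _ (mem_biUnion.2 ⟨g, mem_univ _, mem_filter.2 ⟨mem_univ _, hwy, hg⟩⟩)
      · exact mem_union_right _ (mem_filter.2 ⟨mem_univ _, hwy, hg⟩)
    have h3 : (univ.biUnion (fun g : Fin 4 =>
        univ.filter (fun w => w ≠ y ∧ col s(y, w) ∈ Res g))).card ≤ 4 * s₃ := by
      refine card_biUnion_le.trans ?_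
      have : ∑ g : Fin 4, (univ.filter (fun w => w ≠ y ∧ col s(y, w) ∈ Res g)).card ≤
          ∑ _g : Fin 4, s₃ := sum_le_sum fun g _ => (hR2 g y).le
      simpa using this
    calc (univ.filter (fun w => w ≠ y ∧ col s(y, w) ∈ Φ)).card ≤ _ := card_le_card h2
      _ ≤ _ := card_union_le _ _
      _ ≤ 4 * s₃ + m / 100 := Nat.add_le_add h3 h1
      _ ≤ h := hs3
  obtain ⟨S, hS, F, hF, hFc⟩ := few col hcol (fixA m t) Φ (topV m t) Sat h b m L a hAvalid
    (fixA_dg m t ht) (fixA_card m t) (topV_card m t ht) hSat' hL hb hn h43 hab ha1 hh haσ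
  set U : Finset V := (univ \ topV m t) ∪ S with hU
  have hfU : freeV m t ⊆ U := (freeV_sub m t).trans subset_union_left
  have hUc : n - m ≤ U.card := by
    have h1 : (univ \ topV m t).card = n - m := by
      rw [card_sdiff_of_subset (subset_univ _), topV_card m t ht, card_univ]
    rw [← h1]
    exact card_le_card subset_union_left
  have hUf : (U \ freeV m t).card ≤ 3 * m := by
    have h1 : (U \ freeV m t).card ≤ (univ \ freeV m t).card :=
      card_le_card (sdiff_subset_sdiff (subset_univ _) (Subset.refl _))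
    rw [card_sdiff_of_subset (subset_univ _), card_univ, ← hn'] at h1
    omega
  have hC : Ctx col (fixA m t) (spec col m t) Res U (freeV m t) x d x B := by
    refine ⟨hcol, hfU, fun e he v hv => fixA_free m t e he v hv, ?_, hResD, hR1, ?_, hx1,
      by omega, by omega⟩
    · intro g
      exact (hResG g).mono_right (spec_sub col m t)
    · intro g X hX Us hUs
      refine (expand col hcol (allC col m t) (Res g) x x (hR3 g) X hX Us hUs).trans ?_
      have := allC_card col m t
      omega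
  have hFR : used col Res F = ∅ := by
    rw [used, filter_eq_empty_iff]
    intro k hk
    rintro ⟨g, hg⟩
    obtain ⟨e, he, rfl⟩ := mem_image.1 hk
    refine hF.2.2.2 e he ?_
    rw [hΦ]
    exact mem_union_left _ (mem_biUnion.2 ⟨g, mem_univ _, hg⟩)
  have hFG : ∀ e ∈ F, col e ∉ spec col m t := by
    intro e he h1
    exact hF.2.2.2 e he (by rw [hΦ]; exact mem_union_right _ h1)
  obtain ⟨E, hE1, hE2, hE3, hE4, hE5⟩ := close_all col (fixA m t) (spec col m t) Res U
    (freeV m t) x d x B hC (a + Sat.card) F hF.1.cyc hF.2.1 hF.2.2.1 hFG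
    (by rw [hFR, card_empty]; omega) (by omega)
  refine absorb col m t ht hc U E ?_ hE1 hE5 ?_ hE3 ?_
  · intro y hy
    by_contra hcon
    refine hy (mem_union_left _ (mem_sdiff.2 ⟨mem_univ _, ?_⟩))
    intro h1
    obtain ⟨i, -, hi⟩ := mem_image.1 h1
    exact hcon ⟨i, hi.symm⟩
  · intro i _
    exact hE2 (mem_image.2 ⟨i, mem_univ _, rfl⟩)
  · intro e he i _
    have h1 := hE4 e he
    rw [spec, mem_union, not_or] at h1
    refine ⟨fun h2 => h1.1 (mem_image.2 ⟨i, mem_univ _, h2.symm⟩),
      fun h2 => h1.2 (mem_image.2 ⟨i, mem_univ _, h2.symm⟩)⟩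

end Pool.Agent.W_cd7020_h81
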