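import Pool.Agent.W_cd7020_h81.GA

/-!
# Counting live edges
-/

set_option autoImplicit false

namespace Pool.Agent.W_cd7020_h81

open Finset

variable {V κ : Type*} [DecidableEq V] [DecidableEq κ] [Fintype V]

open Classical in
/-- The edges of `F` whose colour can be made free in at most `g` rounds. -/
noncomputable def Mg (col : Sym2 V → κ) (F A : Finset (Sym2 V)) (Φ : Finset κ) (R : Finset V)
    (b g : ℕ) : Finset (Sym2 V) :=
  F.filter (fun e => col e ∈ Cs col F A Φ R b g)

open Classical in
/-- The vertices of `U` with many live edges. -/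
noncomputable def Yg (col : Sym2 V → κ) (F A : Finset (Sym2 V)) (Φ : Finset κ) (U R : Finset V)
    (b g : ℕ) : Finset V :=
  U.filter (fun y => b ≤ (live col F R (Cs col F A Φ R b g) y).card)

theorem Mg_zero (col : Sym2 V → κ) (F A : Finset (Sym2 V)) (Φ : Finset κ) (R : Finset V)
    (b : ℕ) : Mg col F A Φ R b 0 = ∅ := by
  classical
  unfold Mg
  rw [Finset.filter_eq_empty_iff]
  intro e he hc
  exact hc.2 e he rfl

theorem Count_Cs_zero (col : Sym2 V → κ) (F A : Finset (Sym2 V)) (Φ : Finset κ) (R : Finset V)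
    (b g : ℕ) {k : κ} (hk : k ∉ Φ) (hF : ∀ e ∈ F, col e ≠ k) : k ∈ Cs col F A Φ R b g := by
  induction g with
  | zero => exact ⟨hk, hF⟩
  | succ g ih => exact Or.inl ih

open Classical in
/-- Each `r ∈ R` has many live edges: of the `n - 1` vertices `w ≠ r` at most `h` have a forbidden
colour `col s(r, w)` (`Rgood`), at most one has `s(r, w) ∈ F` (`Rdeg`), and at most `|F| - |M_g|` have
`col s(r, w)` equal to the colour of an edge of `F` outside `M_g` (the map `w ↦` this edge is injective
by `Proper`). For the others `col s(r, w) ∈ Cs g` (either it is the colour of an edge in `M_g`, or it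
is not forbidden and not used by `F`, that is in `Cs 0 ⊆ Cs g`). -/
theorem count_r (col : Sym2 V → κ) (A F : Finset (Sym2 V)) (Φ : Finset κ) (U O R : Finset V)
    (h b : ℕ) (hS : Stuck col A F Φ U O R h) (g : ℕ) (r : V) (hr : r ∈ R) :
    Fintype.card V + (Mg col F A Φ R b g).card ≤
      2 + h + F.card + (univ.filter (fun w => r ≠ w ∧ s(r, w) ∉ F ∧
        col s(r, w) ∈ Cs col F A Φ R b g)).card := by
  set M := Mg col F A Φ R b g with hM
  set P : Finset V := univ.filter (fun w => w ≠ r ∧ col s(r, w) ∈ Φ) with hP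
  set Q : Finset V := univ.filter (fun w => s(r, w) ∈ F) with hQ
  set T : Finset V := univ.filter (fun w => w ≠ r ∧ ∃ e ∈ F \ M, col e = col s(r, w)) with hT
  set L : Finset V := univ.filter (fun w => r ≠ w ∧ s(r, w) ∉ F ∧
    col s(r, w) ∈ Cs col F A Φ R b g) with hL
  have hPc : P.card ≤ h := hS.Rgood r hr
  have hQc : Q.card ≤ 1 := by
    refine le_trans ?_ (hS.Rdeg r hr)
    unfold dg
    refine Finset.card_le_card_of_injOn (fun w => s(r, w)) ?_ ?_
    · intro w hw
      have h1 : s(r, w) ∈ F := (Finset.mem_filter.1 (Finset.mem_coe.1 hw)).2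
      exact Finset.mem_coe.2 (Finset.mem_filter.2 ⟨h1, Sym2.mem_mk_left r w⟩)
    · intro w _ w' _ hww
      exact Sym2.congr_right.1 hww
  have hTc : T.card ≤ (F \ M).card := by
    have h1 : T.card = (T.image (fun w => col s(r, w))).card := by
      rw [Finset.card_image_of_injOn]
      intro w hw w' hw' hww
      by_contra hne
      have hw1 := (Finset.mem_filter.1 (Finset.mem_coe.1 hw)).2.1
      have hw2 := (Finset.mem_filter.1 (Finset.mem_coe.1 hw')).2.1
      exact hS.proper r w w' hw1.symm hw2.symm hne hww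
    rw [h1]
    refine (Finset.card_le_card (?_ : _ ⊆ (F \ M).image col)).trans Finset.card_image_le
    intro k hk
    obtain ⟨w, hw, rfl⟩ := Finset.mem_image.1 hk
    obtain ⟨e, he, hec⟩ := (Finset.mem_filter.1 hw).2.2
    exact Finset.mem_image.2 ⟨e, he, hec⟩
  have hcov : (univ : Finset V) ⊆ {r} ∪ P ∪ Q ∪ T ∪ L := by
    intro w _
    by_cases h1 : w = r
    · simp [h1]
    by_cases h2 : col s(r, w) ∈ Φ
    · have : w ∈ P := Finset.mem_filter.2 ⟨Finset.mem_univ _, h1, h2⟩
      simp [this]
    by_cases h3 : s(r, w) ∈ F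
    · have : w ∈ Q := Finset.mem_filter.2 ⟨Finset.mem_univ _, h3⟩
      simp [this]
    by_cases h4 : ∃ e ∈ F \ M, col e = col s(r, w)
    · have : w ∈ T := Finset.mem_filter.2 ⟨Finset.mem_univ _, h1, h4⟩
      simp [this]
    have h5 : col s(r, w) ∈ Cs col F A Φ R b g := by
      by_cases h6 : ∃ e ∈ F, col e = col s(r, w)
      · obtain ⟨e, he, hec⟩ := h6
        have h7 : e ∈ M := by
          by_contra h8
          exact h4 ⟨e, Finset.mem_sdiff.2 ⟨he, h8⟩, hec⟩
        rw [← hec]
        exact (Finset.mem_filter.1 h7).2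
      · exact Count_Cs_zero col F A Φ R b g h2 fun e he hec => h6 ⟨e, he, hec⟩
    have : w ∈ L := Finset.mem_filter.2 ⟨Finset.mem_univ _, Ne.symm h1, h3, h5⟩
    simp [this]
  have h1 := Finset.card_le_card hcov
  have h2 : (({r} ∪ P ∪ Q ∪ T ∪ L : Finset V)).card ≤ 1 + P.card + Q.card + T.card + L.card := by
    refine (Finset.card_union_le _ _).trans (Nat.add_le_add_right ?_ _)
    refine (Finset.card_union_le _ _).trans (Nat.add_le_add_right ?_ _)
    refine (Finset.card_union_le _ _).trans (Nat.add_le_add_right ?_ _)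
    refine (Finset.card_union_le _ _).trans (Nat.add_le_add_right ?_ _)
    rw [Finset.card_singleton]
  have h3 : (F \ M).card + M.card = F.card :=
    Finset.card_sdiff_add_card_eq_card (Finset.filter_subset _ _)
  rw [Finset.card_univ] at h1
  omega

end Pool.Agent.W_cd7020_h81
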