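import Pool.Agent.W_cd7020_h81.Count

/-!
# Counting live edges: the edges which can be made free
-/

set_option autoImplicit false

namespace Pool.Agent.W_cd7020_h81

open Finset

variable {V κ : Type*} [DecidableEq V] [DecidableEq κ] [Fintype V]

omit [Fintype V] in
theorem CountM_sym (e : Sym2 V) (Y : Finset V) : (Y.filter (fun y => y ∈ e)).card ≤ 2 := by
  induction e using Sym2.ind with
  | _ a b =>
    refine (Finset.card_le_card (t := {a, b}) ?_).trans Finset.card_le_two
    intro y hy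
    rw [Finset.mem_filter, Sym2.mem_iff] at hy
    rw [Finset.mem_insert, Finset.mem_singleton]
    exact hy.2

omit [Fintype V] in
theorem CountM_double (A : Finset (Sym2 V)) (Y : Finset V) : ∑ y ∈ Y, dg A y ≤ 2 * A.card := by
  unfold dg
  have h1 : ∑ y ∈ Y, (A.filter (fun e => y ∈ e)).card =
      ∑ e ∈ A, (Y.filter (fun y => y ∈ e)).card := by
    simp only [Finset.card_filter]
    exact Finset.sum_comm
  rw [h1]
  calc ∑ e ∈ A, (Y.filter (fun y => y ∈ e)).card ≤ ∑ _e ∈ A, 2 :=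
        Finset.sum_le_sum fun e _ => CountM_sym e Y
    _ = 2 * A.card := by rw [Finset.sum_const, smul_eq_mul, mul_comm]

theorem CountM_key (col : Sym2 V → κ) (A F : Finset (Sym2 V)) (Φ : Finset κ) (U O R : Finset V)
    (h b : ℕ) (hS : Stuck col A F Φ U O R h) (g : ℕ) (hb : 4 * g + 6 ≤ b) :
    ∑ y ∈ Yg col F A Φ U R b g, ((F \ A).filter (fun e => y ∈ e)).card ≤
      (Mg col F A Φ R b (g + 1)).card := by
  classical
  have hmemY : ∀ y ∈ Yg col F A Φ U R b g,
      y ∈ U ∧ b ≤ (live col F R (Cs col F A Φ R b g) y).card := by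
    intro y hy
    unfold Yg at hy
    exact Finset.mem_filter.1 hy
  rw [← Finset.card_biUnion]
  · refine Finset.card_le_card ?_
    intro e he
    rw [Finset.mem_biUnion] at he
    obtain ⟨y, hy, hye⟩ := he
    rw [Finset.mem_filter, Finset.mem_sdiff] at hye
    unfold Mg
    rw [Finset.mem_filter]
    refine ⟨hye.1.1, ?_⟩
    change col e ∈ Cs col F A Φ R b g ∪
      {k | ∃ e ∈ F, e ∉ A ∧ col e = k ∧ ∃ y ∈ e, b ≤ (live col F R (Cs col F A Φ R b g) y).card}
    exact Or.inr ⟨e, hye.1.1, hye.1.2, rfl, y, hye.2, (hmemY y hy).2⟩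
  · intro y hy y' hy' hne
    refine Finset.disjoint_left.2 ?_
    intro e he he'
    rw [Finset.mem_filter, Finset.mem_sdiff] at he he'
    have heq : e = s(y, y') := ((Sym2.mem_and_mem_iff hne).1 ⟨he.2, he'.2⟩)
    rw [heq] at he
    exact G2 col A F Φ U O R h b hS g hb y y' hne he.1.1 he.1.2 (hmemY y hy).2 (hmemY y' hy').2

theorem CountM_deg (col : Sym2 V → κ) (A F : Finset (Sym2 V)) (Φ : Finset κ) (U O R : Finset V)
    (h b : ℕ) (hS : Stuck col A F Φ U O R h) (g : ℕ) (hb : 4 * g + 6 ≤ b) (y : V)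
    (hy : y ∈ Yg col F A Φ U R b g) :
    2 ≤ ((F \ A).filter (fun e => y ∈ e)).card + dg A y := by
  classical
  have hyU : y ∈ U ∧ b ≤ (live col F R (Cs col F A Φ R b g) y).card := by
    unfold Yg at hy
    exact Finset.mem_filter.1 hy
  have h1 := G1 col A F Φ U O R h b hS g (by omega) y hyU.1 hyU.2
  rw [← h1]
  unfold dg
  refine (Finset.card_le_card (t := (F \ A).filter (fun e => y ∈ e) ∪ A.filter (fun e => y ∈ e))
    ?_).trans (Finset.card_union_le _ _)
  intro e he
  rw [Finset.mem_filter] at he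
  rw [Finset.mem_union, Finset.mem_filter, Finset.mem_filter, Finset.mem_sdiff]
  by_cases hA : e ∈ A
  · exact Or.inr ⟨hA, he.2⟩
  · exact Or.inl ⟨⟨he.1, hA⟩, he.2⟩

/-- The edges of `F` outside `A` which meet `Y_g` are in `M_{g+1}`; each `y ∈ Y_g` is in
`2 - dg A y ≥ 1` of them (`G1`), and no such edge contains two vertices of `Y_g` (`G2`). So
`|M_{g+1}| ≥ ∑ y ∈ Y_g, (2 - dg A y) ≥ |Y_g|`. -/
theorem count_M1 (col : Sym2 V → κ) (A F : Finset (Sym2 V)) (Φ : Finset κ) (U O R : Finset V)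
    (h b : ℕ) (hS : Stuck col A F Φ U O R h) (g : ℕ) (hb : 4 * g + 6 ≤ b) :
    (Yg col F A Φ U R b g).card ≤ (Mg col F A Φ R b (g + 1)).card := by
  refine le_trans ?_ (CountM_key col A F Φ U O R h b hS g hb)
  rw [Finset.card_eq_sum_ones]
  refine Finset.sum_le_sum fun y hy => ?_
  have h1 := CountM_deg col A F Φ U O R h b hS g hb y hy
  have h2 := hS.Adeg y
  omega

/-- As `count_M1`, with `∑ y, dg A y ≤ 2 |A|`. -/
theorem count_M2 (col : Sym2 V → κ) (A F : Finset (Sym2 V)) (Φ : Finset κ) (U O R : Finset V)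
    (h b : ℕ) (hS : Stuck col A F Φ U O R h) (g : ℕ) (hb : 4 * g + 6 ≤ b) :
    2 * (Yg col F A Φ U R b g).card ≤ (Mg col F A Φ R b (g + 1)).card + 2 * A.card := by
  have h1 := CountM_key col A F Φ U O R h b hS g hb
  have h2 := CountM_double A (Yg col F A Φ U R b g)
  have h3 : ∑ _y ∈ Yg col F A Φ U R b g, 2 ≤ ∑ y ∈ Yg col F A Φ U R b g,
      (((F \ A).filter (fun e => y ∈ e)).card + dg A y) :=
    Finset.sum_le_sum fun y hy => CountM_deg col A F Φ U O R h b hS g hb y hy
  rw [Finset.sum_const, smul_eq_mul, Finset.sum_add_distrib] at h3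
  omega

end Pool.Agent.W_cd7020_h81
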