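import Pool.Agent.W_cd7020_h81.Count

/-!
# Counting live edges: the vertices with many live edges
-/

set_option autoImplicit false

namespace Pool.Agent.W_cd7020_h81

open Finset

variable {V κ : Type*} [DecidableEq V] [DecidableEq κ] [Fintype V]

/-- Double counting of the live edges: by `count_r` their number is at least
`a (n + |M_g| - 2 - h - |F|)` with `a = |R|`. A vertex of `Y_g` has at most `a`, a vertex of
`U \ Y_g` or of `O` fewer than `b` (`G3`), the other `n - |U| - |O|` vertices at most `a`. -/
theorem count_Y (col : Sym2 V → κ) (A F : Finset (Sym2 V)) (Φ : Finset κ) (U O R : Finset V)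
    (h b : ℕ) (hS : Stuck col A F Φ U O R h) (g : ℕ) (hb : 4 * g + 6 ≤ b) :
    R.card * ((Mg col F A Φ R b g).card + U.card + O.card) ≤
      R.card * (2 + h + F.card + (Yg col F A Φ U R b g).card) + b * Fintype.card V := by
  classical
  obtain ⟨C, hC⟩ : ∃ C, C = Cs col F A Φ R b g := ⟨_, rfl⟩
  obtain ⟨Y, hY⟩ : ∃ Y, Y = Yg col F A Φ U R b g := ⟨_, rfl⟩
  have hdc : ∑ r ∈ R, (univ.filter (fun w => r ≠ w ∧ s(r, w) ∉ F ∧ col s(r, w) ∈ C)).card =
      ∑ w : V, (live col F R C w).card := by
    have h1 : ∀ w : V, (live col F R C w).card =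
        ∑ r ∈ R, if r ≠ w ∧ s(r, w) ∉ F ∧ col s(r, w) ∈ C then 1 else 0 := by
      intro w
      unfold live
      rw [Finset.card_filter]
    have h2 : ∀ r : V, (univ.filter (fun w => r ≠ w ∧ s(r, w) ∉ F ∧ col s(r, w) ∈ C)).card =
        ∑ w : V, if r ≠ w ∧ s(r, w) ∉ F ∧ col s(r, w) ∈ C then 1 else 0 := by
      intro r
      rw [Finset.card_filter]
    simp_rw [h1, h2]
    exact Finset.sum_comm
  have hr : R.card * (Fintype.card V + (Mg col F A Φ R b g).card) ≤
      R.card * (2 + h + F.card) + ∑ w : V, (live col F R C w).card := by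
    rw [← hdc, ← smul_eq_mul, ← smul_eq_mul, ← Finset.sum_const, ← Finset.sum_const,
      ← Finset.sum_add_distrib]
    refine Finset.sum_le_sum fun r hr => ?_
    have h1 := count_r col A F Φ U O R h b hS g r hr
    rw [hC]
    convert h1 using 2
  have hle : ∀ w, (live col F R C w).card ≤ R.card := fun w => Finset.card_filter_le _ _
  have key : ∀ w : V, (live col F R C w).card + (if w ∈ U then R.card else 0) +
      (if w ∈ O then R.card else 0) ≤ R.card + (if w ∈ Y then R.card else 0) + b := by
    intro w
    have h1 := hle w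
    by_cases hU : w ∈ U
    · have hO : w ∉ O := fun hO => disjoint_left.1 hS.disj hO hU
      rw [if_pos hU, if_neg hO]
      by_cases hw : w ∈ Y
      · rw [if_pos hw]
        omega
      · rw [if_neg hw]
        have h2 : (live col F R C w).card < b := by
          by_contra hcon
          apply hw
          rw [hY]
          unfold Yg
          rw [Finset.mem_filter]
          refine ⟨hU, ?_⟩
          rw [← hC]
          exact not_lt.1 hcon
        omega
    · rw [if_neg hU]
      by_cases hO : w ∈ O
      · rw [if_pos hO]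
        have h2 := G3 col A F Φ U O R h b hS g hb w hO
        rw [← hC] at h2
        omega
      · rw [if_neg hO]
        omega
  have hsum := Finset.sum_le_sum (s := (univ : Finset V)) fun w _ => key w
  rw [Finset.sum_add_distrib, Finset.sum_add_distrib, Finset.sum_add_distrib,
    Finset.sum_add_distrib, Finset.sum_ite_mem, Finset.sum_ite_mem, Finset.sum_ite_mem,
    Finset.univ_inter, Finset.univ_inter, Finset.univ_inter, Finset.sum_const, Finset.sum_const,
    Finset.sum_const, Finset.sum_const, Finset.sum_const, smul_eq_mul, smul_eq_mul, smul_eq_mul,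
    smul_eq_mul, smul_eq_mul, Finset.card_univ] at hsum
  rw [← hY]
  nlinarith [hsum, hr]

end Pool.Agent.W_cd7020_h81
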