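import Pool.Agent.W_cd7020_h81.Pe

/-!
# Linear forests: simple facts
-/

set_option autoImplicit false

namespace Pool.Agent.W_cd7020_h81

open Finset

variable {V : Type*} [DecidableEq V]

theorem LF.mono {U : Finset V} {E E' : Finset (Sym2 V)} (h : LF U E) (hE : E' ⊆ E) : LF U E' := by
  obtain ⟨Q, h1, h2, h3⟩ := h
  exact ⟨Q, h1, h2, fun e he => h3 e (hE he)⟩

/-- Append the new vertex at the end of the list. -/
theorem LF.insertV {U : Finset V} {E : Finset (Sym2 V)} (h : LF U E) {v : V} (hv : v ∉ U) :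
    LF (insert v U) E := by
  obtain ⟨Q, h1, h2, h3⟩ := h
  refine ⟨Q ++ [v], ?_, ?_, fun e he => mem_pe_left Q [v] e (h3 e he)⟩
  · rw [List.nodup_append]
    refine ⟨h1, List.nodup_singleton v, ?_⟩
    intro a ha b hb
    rw [List.mem_singleton] at hb
    subst hb
    rintro rfl
    exact hv ((h2 a).mp ha)
  · intro x
    rw [List.mem_append, List.mem_singleton, h2 x, mem_insert, or_comm]

theorem LF.mem {U : Finset V} {E : Finset (Sym2 V)} (h : LF U E) {e : Sym2 V} (he : e ∈ E) :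
    ∃ a b, a ≠ b ∧ a ∈ U ∧ b ∈ U ∧ e = s(a, b) := by
  obtain ⟨Q, h1, h2, h3⟩ := h
  obtain ⟨a, b, hab, ha, hb, rfl⟩ := pe_ne Q h1 e (h3 e he)
  exact ⟨a, b, hab, (h2 a).mp ha, (h2 b).mp hb, rfl⟩

theorem LF.memU {U : Finset V} {E : Finset (Sym2 V)} (h : LF U E) {e : Sym2 V} (he : e ∈ E)
    {v : V} (hv : v ∈ e) : v ∈ U := by
  obtain ⟨a, b, _, ha, hb, rfl⟩ := h.mem he
  rw [Sym2.mem_iff] at hv
  rcases hv with rfl | rfl
  · exact ha
  · exact hb

/-- From `pe_deg`. -/
theorem LF.dg_le {U : Finset V} {E : Finset (Sym2 V)} (h : LF U E) (v : V) : dg E v ≤ 2 := by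
  obtain ⟨Q, h1, h2, h3⟩ := h
  refine le_trans (Finset.card_le_card ?_) (pe_deg Q h1 v)
  intro e he
  rw [mem_filter] at he ⊢
  exact ⟨List.mem_toFinset.mpr (h3 e he.1), he.2⟩

theorem LF.dg_zero {U : Finset V} {E : Finset (Sym2 V)} (h : LF U E) {v : V} (hv : v ∉ U) :
    dg E v = 0 := by
  unfold dg
  rw [Finset.card_eq_zero, Finset.filter_eq_empty_iff]
  intro e he hve
  exact hv (h.memU he hve)

theorem LFa_length {U : Finset V} {Q : List V} (h1 : Q.Nodup) (h2 : ∀ v, v ∈ Q ↔ v ∈ U) :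
    Q.length = U.card := by
  have h3 : Q.toFinset = U := by
    ext v
    rw [List.mem_toFinset]
    exact h2 v
  rw [← h3, List.toFinset_card_of_nodup h1]

/-- From `pe_length`. -/
theorem LF.card_lt {U : Finset V} {E : Finset (Sym2 V)} (h : LF U E) (hU : U.Nonempty) :
    E.card < U.card := by
  obtain ⟨Q, h1, h2, h3⟩ := h
  have h4 : E.card ≤ (pe Q).length := by
    refine le_trans (Finset.card_le_card (t := (pe Q).toFinset) ?_) (List.toFinset_card_le _)
    intro e he
    exact List.mem_toFinset.mpr (h3 e he)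
  rw [pe_length, LFa_length h1 h2] at h4
  have h5 : 0 < U.card := Finset.card_pos.mpr hU
  omega

/-- Sum of the degrees (every edge has exactly two ends, both in `U`). -/
theorem LF.sum_dg {U : Finset V} {E : Finset (Sym2 V)} (h : LF U E) :
    ∑ v ∈ U, dg E v = 2 * E.card := by
  unfold dg
  simp only [Finset.card_filter]
  rw [Finset.sum_comm, mul_comm, ← smul_eq_mul, ← Finset.sum_const]
  refine Finset.sum_congr rfl fun e he => ?_
  obtain ⟨a, b, hab, ha, hb, rfl⟩ := h.mem he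
  rw [← Finset.card_filter]
  have h1 : U.filter (fun v => v ∈ s(a, b)) = {a, b} := by
    ext v
    rw [mem_filter, Sym2.mem_iff, mem_insert, mem_singleton]
    constructor
    · exact fun h => h.2
    · rintro (rfl | rfl)
      · exact ⟨ha, Or.inl rfl⟩
      · exact ⟨hb, Or.inr rfl⟩
  rw [h1, Finset.card_pair hab]

/-- The number of vertices of degree at most one is at least the number of components:
`∑ v ∈ U, (2 - dg E v) = 2 |U| - 2 |E|`, and every term is at most `2`, and `0` for the vertices of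
degree `2`. -/
theorem LF.ends {U : Finset V} {E : Finset (Sym2 V)} (h : LF U E) :
    U.card ≤ E.card + (U.filter (fun v => dg E v ≤ 1)).card := by
  have h1 : ∑ _v ∈ U, 2 ≤ ∑ v ∈ U, (dg E v + if dg E v ≤ 1 then 2 else 0) := by
    refine Finset.sum_le_sum fun v _ => ?_
    split_ifs with h2
    · omega
    · omega
  rw [Finset.sum_add_distrib, h.sum_dg, ← Finset.sum_filter, Finset.sum_const, Finset.sum_const,
    smul_eq_mul, smul_eq_mul] at h1
  omega

theorem dg_mono {E E' : Finset (Sym2 V)} (h : E' ⊆ E) (v : V) : dg E' v ≤ dg E v := by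
  exact Finset.card_le_card (Finset.filter_subset_filter _ h)

theorem dg_insert_le (E : Finset (Sym2 V)) (e : Sym2 V) (v : V) :
    dg (insert e E) v ≤ dg E v + 1 := by
  unfold dg
  rw [Finset.filter_insert]
  split_ifs with h
  · exact Finset.card_insert_le _ _
  · omega

theorem dg_insert_not (E : Finset (Sym2 V)) (e : Sym2 V) (v : V) (hv : v ∉ e) :
    dg (insert e E) v = dg E v := by
  unfold dg
  rw [Finset.filter_insert, if_neg hv]

theorem dg_erase (E : Finset (Sym2 V)) (e : Sym2 V) (v : V) (he : e ∈ E) (hv : v ∈ e) :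
    dg (E.erase e) v + 1 = dg E v := by
  unfold dg
  rw [Finset.filter_erase]
  exact Finset.card_erase_add_one (mem_filter.mpr ⟨he, hv⟩)

/-- `pe Q ⊆ ce Q`. -/
theorem LF.cyc {U : Finset V} {E : Finset (Sym2 V)} (h : LF U E) : Cyc U E := by
  obtain ⟨Q, h1, h2, h3⟩ := h
  exact ⟨Q, h1, h2, fun e he => pe_sub_ce Q e (h3 e he)⟩

/-- `ce_length`. -/
theorem Cyc.card_le {U : Finset V} {E : Finset (Sym2 V)} (h : Cyc U E) : E.card ≤ U.card := by
  obtain ⟨Q, h1, h2, h3⟩ := h
  have h4 : E.card ≤ (ce Q).length := by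
    refine le_trans (Finset.card_le_card (t := (ce Q).toFinset) ?_) (List.toFinset_card_le _)
    intro e he
    exact List.mem_toFinset.mpr (h3 e he)
  rwa [ce_length, LFa_length h1 h2] at h4

theorem LFa_rot (l₁ : List V) : ∀ (l₂ : List V) (e : Sym2 V),
    e ∈ ce (l₂ ++ l₁) ↔ e ∈ ce (l₁ ++ l₂) := by
  induction l₁ with
  | nil =>
    intro l₂ e
    rw [List.append_nil, List.nil_append]
  | cons a t ih =>
    intro l₂ e
    have h1 : l₂ ++ a :: t = (l₂ ++ [a]) ++ t := by simp
    have h2 : t ++ (l₂ ++ [a]) = (t ++ l₂) ++ [a] := by simp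
    rw [h1, ih (l₂ ++ [a]) e, h2, mem_ce_rotate, List.cons_append]

theorem LFa_cut (Q : List V) (hQ : Q ≠ []) (e₀ : Sym2 V) (h₀ : e₀ ∈ ce Q) :
    ∃ Q' : List V, Q'.Perm Q ∧ ∀ e ∈ ce Q, e ∈ pe Q' ∨ e = e₀ := by
  rw [ce_eq Q hQ, List.mem_append, List.mem_singleton] at h₀
  rcases h₀ with h₀ | h₀
  · obtain ⟨l₁, a, b, l₂, rfl, rfl⟩ := (mem_pe Q e₀).mp h₀
    refine ⟨(b :: l₂) ++ (l₁ ++ [a]), ?_, ?_⟩
    · have h1 : l₁ ++ a :: b :: l₂ = (l₁ ++ [a]) ++ (b :: l₂) := by simp
      rw [h1]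
      exact List.perm_append_comm
    · intro e he
      have h1 : l₁ ++ a :: b :: l₂ = (l₁ ++ [a]) ++ (b :: l₂) := by simp
      have hne : (b :: l₂) ++ (l₁ ++ [a]) ≠ [] := by simp
      rw [h1, LFa_rot, ce_eq _ hne, List.mem_append, List.mem_singleton] at he
      rcases he with he | he
      · exact Or.inl he
      · right
        rw [he]
        have h2 : ((b :: l₂) ++ (l₁ ++ [a])).getLast hne = a := by
          simp
        have h3 : ((b :: l₂) ++ (l₁ ++ [a])).head hne = b := by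
          simp
        rw [h2, h3]
  · refine ⟨Q, List.Perm.refl _, ?_⟩
    intro e he
    rw [ce_eq Q hQ, List.mem_append, List.mem_singleton] at he
    rcases he with he | he
    · exact Or.inl he
    · exact Or.inr (he.trans h₀.symm)

/-- Some cyclic pair of `Q` is not in `E` (`ce_nodup`, `ce_length`); rotate the list until this
pair is (last, first) (`mem_ce_rotate`). -/
theorem Cyc.lf {U : Finset V} {E : Finset (Sym2 V)} (h : Cyc U E) (hE : E.card < U.card)
    (h3 : 3 ≤ U.card) : LF U E := by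
  obtain ⟨Q, h1, h2, h4⟩ := h
  have hlen := LFa_length h1 h2
  have hne : Q ≠ [] := by
    rintro rfl
    rw [List.length_nil] at hlen
    omega
  have hnd := ce_nodup Q h1 (by omega)
  obtain ⟨e₀, he₀, hE₀⟩ : ∃ e₀ ∈ ce Q, e₀ ∉ E := by
    by_contra hcon
    push Not at hcon
    have h5 : (ce Q).toFinset ⊆ E := fun e he => hcon e (List.mem_toFinset.mp he)
    have h6 := Finset.card_le_card h5
    rw [List.toFinset_card_of_nodup hnd, ce_length, hlen] at h6
    omega
  obtain ⟨Q', hp, hQ'⟩ := LFa_cut Q hne e₀ he₀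
  refine ⟨Q', hp.nodup_iff.mpr h1, fun v => (hp.mem_iff).trans (h2 v), ?_⟩
  intro e he
  rcases hQ' e (h4 e he) with h5 | h5
  · exact h5
  · exact absurd (h5 ▸ he) hE₀

end Pool.Agent.W_cd7020_h81
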