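import Pool.Agent.W_cd7020_h81.Surg
import Pool.Agent.W_cd7020_h81.LFa

/-!
# The situation in the closing phase
-/

set_option autoImplicit false

namespace Pool.Agent.W_cd7020_h81

open Finset

variable {V κ : Type*} [DecidableEq V] [DecidableEq κ] [Fintype V]

open Classical in
/-- The reserved colours used by `E`. -/
noncomputable def used (col : Sym2 V → κ) (Res : Fin 4 → Finset κ) (E : Finset (Sym2 V)) :
    Finset κ :=
  (E.image col).filter (fun k => ∃ g, k ∈ Res g)

/-- The situation in the closing phase: `G` special colours, `Res g` reserved colours, `Vf` the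
vertices outside all triangles. -/
structure Ctx (col : Sym2 V → κ) (A : Finset (Sym2 V)) (G : Finset κ) (Res : Fin 4 → Finset κ)
    (U Vf : Finset V) (x d s B : ℕ) : Prop where
  proper : Proper col
  VfU : Vf ⊆ U
  AVf : ∀ e ∈ A, ∀ v ∈ e, v ∉ Vf
  resG : ∀ g, Disjoint (Res g) G
  resD : ∀ g g', g ≠ g' → Disjoint (Res g) (Res g')
  many : ∀ g w, d ≤ (Vf.filter (fun v => v ≠ w ∧ col s(w, v) ∈ Res g)).card
  exp : ∀ g, ∀ X : Finset V, x ≤ X.card → ∀ Us : Finset κ, Us.card ≤ s →
    (univ.filter (fun w => ∀ a ∈ X, a ≠ w → col s(a, w) ∈ Res g → col s(a, w) ∈ Us)).card ≤ B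
  hx : 1 ≤ x
  hd : 4 * x + s + 1 ≤ d
  hU : 3 * (2 * B + (U \ Vf).card + 5) < U.card

end Pool.Agent.W_cd7020_h81
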