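import Mathlib

/-!
# Rainbow Hamilton cycles in colourings with many colours: definitions
-/

set_option autoImplicit false

namespace Pool.Agent.W_cd7020_h81

variable {V κ : Type*} [DecidableEq V] [DecidableEq κ]

/-- The consecutive pairs of a list. -/
def pe : List V → List (Sym2 V)
  | [] => []
  | [_] => []
  | a :: b :: l => s(a, b) :: pe (b :: l)

/-- The cyclically consecutive pairs of a list. -/
def ce (l : List V) : List (Sym2 V) := pe (l ++ l.take 1)

/-- `E` is a linear forest on the vertex set `U`: it is contained in the edge set of a Hamilton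
path of the complete graph on `U`. -/
def LF (U : Finset V) (E : Finset (Sym2 V)) : Prop :=
  ∃ Q : List V, Q.Nodup ∧ (∀ v, v ∈ Q ↔ v ∈ U) ∧ ∀ e ∈ E, e ∈ pe Q

/-- `E` is contained in the edge set of a Hamilton cycle of the complete graph on `U`. -/
def Cyc (U : Finset V) (E : Finset (Sym2 V)) : Prop :=
  ∃ Q : List V, Q.Nodup ∧ (∀ v, v ∈ Q ↔ v ∈ U) ∧ ∀ e ∈ E, e ∈ ce Q

/-- The degree of `v` in `E`. -/
def dg (E : Finset (Sym2 V)) (v : V) : ℕ := (E.filter (fun e => v ∈ e)).card

/-- `col` is a proper edge colouring of the complete graph on `V`. -/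
def Proper (col : Sym2 V → κ) : Prop :=
  ∀ x y z : V, x ≠ y → x ≠ z → y ≠ z → col s(x, y) ≠ col s(x, z)

/-- The colours of the edges in `E` are distinct. -/
def Rb (col : Sym2 V → κ) (E : Finset (Sym2 V)) : Prop :=
  ∀ e ∈ E, ∀ e' ∈ E, col e = col e' → e = e'

/-- Rainbow linear forest on `U` which contains the fixed edges `A` and uses no colour in `Φ`. -/
def Valid (col : Sym2 V → κ) (A : Finset (Sym2 V)) (Φ : Finset κ) (U : Finset V)
    (E : Finset (Sym2 V)) : Prop :=
  LF U E ∧ A ⊆ E ∧ Rb col E ∧ ∀ e ∈ E, col e ∉ Φ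

open Classical in
/-- The vertices `r` in `R` such that `r w` is not in `F` and has a colour in `C`. -/
noncomputable def live (col : Sym2 V → κ) (F : Finset (Sym2 V)) (R : Finset V) (C : Set κ)
    (w : V) : Finset V :=
  R.filter (fun r => r ≠ w ∧ s(r, w) ∉ F ∧ col s(r, w) ∈ C)

/-- The colours which can be made free in at most `g` rounds: the colours not forbidden and not
used by `F`, and in each round the colours of the edges of `F` (not in `A`) which meet a vertex
with at least `b` live edges to `R`. -/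
def Cs (col : Sym2 V → κ) (F A : Finset (Sym2 V)) (Φ : Finset κ) (R : Finset V) (b : ℕ) :
    ℕ → Set κ
  | 0 => {k | k ∉ Φ ∧ ∀ e ∈ F, col e ≠ k}
  | g + 1 => Cs col F A Φ R b g ∪
      {k | ∃ e ∈ F, e ∉ A ∧ col e = k ∧ ∃ y ∈ e, b ≤ (live col F R (Cs col F A Φ R b g) y).card}

/-- The hypotheses of the growth lemma: `F` cannot be improved. -/
structure Stuck [Fintype V] (col : Sym2 V → κ) (A F : Finset (Sym2 V)) (Φ : Finset κ)
    (U O R : Finset V) (h : ℕ) : Prop where
  proper : Proper col
  valid : Valid col A Φ U F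
  disj : Disjoint O U
  max1 : ∀ E, Valid col A Φ U E → E.card ≠ F.card + 1
  max2 : ∀ v ∈ O, ∀ E, Valid col A Φ (insert v U) E → E.card ≠ F.card + 2
  RU : R ⊆ U
  Rdeg : ∀ r ∈ R, dg F r ≤ 1
  Rgood : ∀ r ∈ R, (Finset.univ.filter (fun w => w ≠ r ∧ col s(r, w) ∈ Φ)).card ≤ h
  Adeg : ∀ y, dg A y ≤ 1

/-- The colours between the sets `X` and `Y` which are not in `G`. -/
def btw (col : Sym2 V → κ) (G : Finset κ) (X Y : Finset V) : Finset κ :=
  ((X ×ˢ Y).image (fun p => col s(p.1, p.2))) \ G

end Pool.Agent.W_cd7020_h81
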