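import Pool.Agent.W_cd7020_h81.Few1

/-!
# A valid forest with few components
-/

set_option autoImplicit false

namespace Pool.Agent.W_cd7020_h81

open Finset

variable {V κ : Type*} [DecidableEq V] [DecidableEq κ] [Fintype V]

/-- Phase 2. Choose `S ⊆ V'` and `F` valid on `U = (univ \ V') ∪ S` such that
`2 (|U| - |F|) + |S|` is minimal. Then with `O = V' \ S` the hypotheses `max1` and `max2` hold (a valid
set on `U` with `|F| + 1` edges lowers the quantity by `2`, one on `insert v U` with `|F| + 2` edges, with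
`S` replaced by `insert v S`, by `1`). By `phase1` the minimum is at most `m / 2`, so `|S| ≤ m / 2` and
`|O| ≥ m / 2`. If there were at least `a + |Sat|` components, `good_ends` and `growth` would give a
contradiction (`|U| + |O| - |F| ≥ m / 2`). -/
theorem few (col : Sym2 V → κ) (hcol : Proper col) (A : Finset (Sym2 V)) (Φ : Finset κ)
    (V' Sat : Finset V) (h b m L a : ℕ) (hA : Valid col A Φ (univ \ V') A)
    (hAdeg : ∀ y, dg A y ≤ 1) (hAc : A.card ≤ m) (hV' : V'.card = m)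
    (hSat : ∀ x, x ∉ Sat → (univ.filter (fun w => w ≠ x ∧ col s(x, w) ∈ Φ)).card ≤ h)
    (hL : 1 ≤ L) (hb : b = 142 * L) (hn : Fintype.card V ≤ 2 ^ L) (hm : 43 ≤ m)
    (ha : 64 * b * Fintype.card V ≤ a * m) (ha1 : 1 ≤ a) (hh : 16 * h ≤ m)
    (hT : 4 * (a + Sat.card) + 4 ≤ m) :
    ∃ S, S ⊆ V' ∧ ∃ F, Valid col A Φ ((univ \ V') ∪ S) F ∧
      ((univ \ V') ∪ S).card ≤ F.card + a + Sat.card := by
  classical
  obtain ⟨F₀, hF₀, hF₀c⟩ := phase1 col hcol A Φ V' Sat h b m L a hA hAdeg hAc hSat hL hb hn hm ha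
    ha1 hh hT
  let P : Finset (Finset V × Finset (Sym2 V)) :=
    univ.filter fun q => q.1 ⊆ V' ∧ Valid col A Φ ((univ \ V') ∪ q.1) q.2
  have h0P : (∅, F₀) ∈ P := by
    refine mem_filter.2 ⟨mem_univ _, empty_subset _, ?_⟩
    change Valid col A Φ ((univ \ V') ∪ ∅) F₀
    rw [union_empty]
    exact hF₀
  obtain ⟨⟨S, F⟩, hP, hmin⟩ := exists_min_image P
    (fun q => 3 * (q.1.card : ℤ) - 2 * (q.2.card : ℤ)) ⟨_, h0P⟩
  obtain ⟨hSV, hF⟩ := (mem_filter.1 hP).2
  have hSV' : S ⊆ V' := hSV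
  have hF' : Valid col A Φ ((univ \ V') ∪ S) F := hF
  have hmin' : ∀ (S' : Finset V) (F' : Finset (Sym2 V)), S' ⊆ V' →
      Valid col A Φ ((univ \ V') ∪ S') F' →
      3 * (S.card : ℤ) - 2 * (F.card : ℤ) ≤ 3 * (S'.card : ℤ) - 2 * (F'.card : ℤ) :=
    fun S' F' h1 h2 => hmin (S', F') (mem_filter.2 ⟨mem_univ _, h1, h2⟩)
  have hdisj : Disjoint (univ \ V') S := by
    rw [disjoint_left]
    intro x hx hxS
    exact (mem_sdiff.1 hx).2 (hSV' hxS)
  have hUc : ((univ \ V') ∪ S).card = (univ \ V').card + S.card := card_union_of_disjoint hdisj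
  have hm0 := hmin' ∅ F₀ (empty_subset _) (by rw [union_empty]; exact hF₀)
  rw [card_empty] at hm0
  have hFU : F.card ≤ ((univ \ V') ∪ S).card := hF'.1.cyc.card_le
  have hOc : (V' \ S).card + S.card = m := by
    rw [card_sdiff_add_card_eq_card hSV', hV']
  refine ⟨S, hSV', F, hF', ?_⟩
  by_contra hcon
  obtain ⟨R, hRU, hRc, hRd, hRS⟩ := good_ends F ((univ \ V') ∪ S) Sat a hF'.1 (by omega)
  have hStuck : Stuck col A F Φ ((univ \ V') ∪ S) (V' \ S) R h := by
    refine ⟨hcol, hF', ?_, ?_, ?_, hRU, hRd, fun r hr => hSat r (hRS r hr), hAdeg⟩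
    · rw [disjoint_left]
      intro x hx hxU
      obtain ⟨h1, h2⟩ := mem_sdiff.1 hx
      rcases mem_union.1 hxU with h3 | h3
      · exact (mem_sdiff.1 h3).2 h1
      · exact h2 h3
    · intro E hE hEc
      have h1 := hmin' S E hSV' hE
      rw [hEc] at h1
      push_cast at h1
      linarith
    · intro v hv E hE hEc
      obtain ⟨h1, h2⟩ := mem_sdiff.1 hv
      have h3 : insert v S ⊆ V' := insert_subset h1 hSV'
      have h4 : Valid col A Φ ((univ \ V') ∪ insert v S) E := by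
        rw [union_insert]
        exact hE
      have h5 := hmin' (insert v S) E h3 h4
      rw [card_insert_of_notMem h2, hEc] at h5
      push_cast at h5
      linarith
  refine growth col A F Φ ((univ \ V') ∪ S) (V' \ S) R h b m L hStuck hL hb hn hm ?_ ?_ hh hAc ?_
  · rw [hRc]
    exact ha
  · rw [hRc]
    exact ha1
  · omega

end Pool.Agent.W_cd7020_h81
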