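import Pool.Agent.W_cd7020_h81.Grow

/-!
# A valid forest with few components
-/

set_option autoImplicit false

namespace Pool.Agent.W_cd7020_h81

open Finset

variable {V κ : Type*} [DecidableEq V] [DecidableEq κ] [Fintype V]

/-- Good ends: if a linear forest on `U` has at least `a + |Sat|` components, then there is a set
`R` of exactly `a` vertices of `U` outside `Sat` of degree at most one (`LF.ends`). -/
theorem good_ends (F : Finset (Sym2 V)) (U Sat : Finset V) (a : ℕ) (hF : LF U F)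
    (h : F.card + a + Sat.card ≤ U.card) :
    ∃ R : Finset V, R ⊆ U ∧ R.card = a ∧ (∀ r ∈ R, dg F r ≤ 1) ∧ ∀ r ∈ R, r ∉ Sat := by
  have h1 := hF.ends
  have h2 : a ≤ ((U.filter (fun v => dg F v ≤ 1)) \ Sat).card := by
    have := Finset.le_card_sdiff Sat (U.filter (fun v => dg F v ≤ 1))
    omega
  obtain ⟨R, hR, hRc⟩ := Finset.exists_subset_card_eq h2
  refine ⟨R, fun r hr => ?_, hRc, fun r hr => ?_, fun r hr => ?_⟩
  · exact (Finset.mem_filter.1 (Finset.mem_sdiff.1 (hR hr)).1).1
  · exact (Finset.mem_filter.1 (Finset.mem_sdiff.1 (hR hr)).1).2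
  · exact (Finset.mem_sdiff.1 (hR hr)).2

/-- Phase 1: a valid set on `U₀ = univ \ V'` with the largest number of edges has fewer than `m / 4`
components (`growth` with `O = ∅`, `good_ends`). -/
theorem phase1 (col : Sym2 V → κ) (hcol : Proper col) (A : Finset (Sym2 V)) (Φ : Finset κ)
    (V' Sat : Finset V) (h b m L a : ℕ) (hA : Valid col A Φ (univ \ V') A)
    (hAdeg : ∀ y, dg A y ≤ 1) (hAc : A.card ≤ m)
    (hSat : ∀ x, x ∉ Sat → (univ.filter (fun w => w ≠ x ∧ col s(x, w) ∈ Φ)).card ≤ h)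
    (hL : 1 ≤ L) (hb : b = 142 * L) (hn : Fintype.card V ≤ 2 ^ L) (hm : 43 ≤ m)
    (ha : 64 * b * Fintype.card V ≤ a * m) (ha1 : 1 ≤ a) (hh : 16 * h ≤ m)
    (hT : 4 * (a + Sat.card) + 4 ≤ m) :
    ∃ F, Valid col A Φ (univ \ V') F ∧ 4 * (univ \ V').card ≤ 4 * F.card + m := by
  obtain ⟨F, hF, hmax⟩ := Set.exists_max_image {E : Finset (Sym2 V) | Valid col A Φ (univ \ V') E}
    (fun E => E.card) (Set.toFinite _) ⟨A, hA⟩
  refine ⟨F, hF, ?_⟩
  by_contra hcon
  rw [not_le] at hcon
  obtain ⟨R, hRU, hRc, hRd, hRS⟩ := good_ends F (univ \ V') Sat a hF.1 (by omega)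
  have hS : Stuck col A F Φ (univ \ V') ∅ R h :=
    { proper := hcol
      valid := hF
      disj := Finset.disjoint_empty_left _
      max1 := fun E hE hc => by
        have := hmax E hE
        omega
      max2 := fun v hv => absurd hv (Finset.notMem_empty v)
      RU := hRU
      Rdeg := hRd
      Rgood := fun r hr => hSat r (hRS r hr)
      Adeg := hAdeg }
  refine growth col A F Φ (univ \ V') ∅ R h b m L hS hL hb hn hm (by rw [hRc]; exact ha)
    (by rw [hRc]; exact ha1) hh hAc ?_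
  rw [Finset.card_empty]
  omega

end Pool.Agent.W_cd7020_h81
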