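import Pool.Agent.W_cd7020_h81.Main

/-!
# The final statements
-/

set_option autoImplicit false

namespace Pool.Agent.W_cd7020_h81

open Finset

/-- Conversion of the real bound `10 ^ 13 n ^ (3/2) log n` into the bound of `many_nat`. -/
theorem real_bound (n q : ℕ) (hn : 2 ≤ n)
    (h : (10 : ℝ) ^ 13 * (n : ℝ) ^ (3 / 2 : ℝ) * Real.log n ≤ q) :
    2000 * (10 ^ 8 * Nat.clog 2 n * (Nat.sqrt n + 1)) * n ≤ q := by
  have hn0 : (0 : ℝ) < n := by positivity
  have hn1 : (1 : ℝ) < n := by exact_mod_cast (by omega : 1 < n)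
  -- the logarithm
  have hlog2 : (0.6931471803 : ℝ) < Real.log 2 := Real.log_two_gt_d9
  have hlogn : Real.log 2 ≤ Real.log n := Real.log_le_log (by norm_num) (by exact_mod_cast hn)
  have hclog : (Nat.clog 2 n : ℝ) ≤ 3 * Real.log n := by
    have h1 : Nat.clog 2 n = Nat.clog 2 n := rfl
    have h2 : 2 ^ (Nat.clog 2 n).pred < n := Nat.pow_pred_clog_lt_self (by norm_num) (by omega)
    have h3 : 1 ≤ Nat.clog 2 n := Nat.clog_pos (by norm_num) hn
    have h4 : ((Nat.clog 2 n).pred : ℝ) * Real.log 2 ≤ Real.log n := by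
      have : Real.log ((2 : ℝ) ^ (Nat.clog 2 n).pred) ≤ Real.log n :=
        Real.log_le_log (by positivity) (by exact_mod_cast h2.le)
      rwa [Real.log_pow] at this
    have h5 : ((Nat.clog 2 n).pred : ℝ) = (Nat.clog 2 n : ℝ) - 1 := by
      rw [Nat.pred_eq_sub_one, Nat.cast_sub h3, Nat.cast_one]
    rw [h5] at h4
    nlinarith
  -- the square root
  have hsqrt : ((Nat.sqrt n : ℝ) + 1) ≤ 2 * Real.sqrt n := by
    have h1 : (Nat.sqrt n : ℝ) ≤ Real.sqrt n := Real.nat_sqrt_le_real_sqrt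
    have h2 : (1 : ℝ) ≤ Real.sqrt n := by
      rw [Real.one_le_sqrt]
      exact hn1.le
    linarith
  have hpow : (n : ℝ) ^ (3 / 2 : ℝ) = Real.sqrt n * n := by
    rw [show (3 / 2 : ℝ) = 1 / 2 + 1 by norm_num, Real.rpow_add hn0, Real.rpow_one,
      ← Real.sqrt_eq_rpow]
  have hlogpos : 0 ≤ Real.log n := by linarith
  have key : (2000 * (10 ^ 8 * Nat.clog 2 n * (Nat.sqrt n + 1)) * n : ℝ) ≤
      (10 : ℝ) ^ 13 * (n : ℝ) ^ (3 / 2 : ℝ) * Real.log n := by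
    rw [hpow]
    have h1 : (Nat.clog 2 n : ℝ) * ((Nat.sqrt n : ℝ) + 1) ≤
        3 * Real.log n * (2 * Real.sqrt n) :=
      mul_le_mul hclog hsqrt (by positivity) (by positivity)
    have h2 : (2000 * (10 ^ 8 * Nat.clog 2 n * (Nat.sqrt n + 1)) * n : ℝ) =
        2 * 10 ^ 11 * n * ((Nat.clog 2 n : ℝ) * ((Nat.sqrt n : ℝ) + 1)) := by ring
    rw [h2]
    have h3 : 0 ≤ (n : ℝ) * Real.sqrt n * Real.log n := by positivity
    calc 2 * 10 ^ 11 * n * ((Nat.clog 2 n : ℝ) * ((Nat.sqrt n : ℝ) + 1))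
        ≤ 2 * 10 ^ 11 * n * (3 * Real.log n * (2 * Real.sqrt n)) :=
          mul_le_mul_of_nonneg_left h1 (by positivity)
      _ = 12 * 10 ^ 11 * ((n : ℝ) * Real.sqrt n * Real.log n) := by ring
      _ ≤ 10 ^ 13 * ((n : ℝ) * Real.sqrt n * Real.log n) := by nlinarith
      _ = (10 : ℝ) ^ 13 * (Real.sqrt n * n) * Real.log n := by ring
  exact_mod_cast key.trans h

/-- There is a rainbow Hamilton path and a rainbow Hamilton cycle. -/
def RainbowHam {n : ℕ} (c : Sym2 (Fin n) → ℕ) : Prop :=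
  (∃ (u v : Fin n) (w : (⊤ : SimpleGraph (Fin n)).Walk u v),
    w.IsHamiltonian ∧ (w.edges.map c).Nodup) ∧
  ∃ (u : Fin n) (w : (⊤ : SimpleGraph (Fin n)).Walk u u),
    w.IsHamiltonianCycle ∧ (w.edges.map c).Nodup

theorem proper_of {n : ℕ} (c : Sym2 (Fin n) → ℕ)
    (hc : ∀ a b d : Fin n, a ≠ b → a ≠ d → b ≠ d → c s(a, b) ≠ c s(a, d)) : Proper c := hc

/-- The theorem on the number of colours. -/
theorem final_many (n : ℕ) (hn : 2 ≤ n) (c : Sym2 (Fin n) → ℕ)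
    (hc : ∀ a b d : Fin n, a ≠ b → a ≠ d → b ≠ d → c s(a, b) ≠ c s(a, d))
    (hq : (10 : ℝ) ^ 13 * (n : ℝ) ^ (3 / 2 : ℝ) * Real.log n ≤
      (((univ : Finset (Sym2 (Fin n))).filter (fun e => ¬ e.IsDiag)).image c).card) :
    RainbowHam c := by
  have hq' := real_bound n _ hn hq
  have hcard : Fintype.card (Fin n) = n := Fintype.card_fin n
  have hnum : 2000 * (10 ^ 8 * Nat.clog 2 n * (Nat.sqrt n + 1)) * n ≤ numC c := hq'
  obtain ⟨E, h1, h2, h3⟩ := many_nat c (proper_of c hc) (by rw [hcard]; exact hn)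
    (Nat.clog 2 n) (10 ^ 8 * Nat.clog 2 n * (Nat.sqrt n + 1)) (by rw [hcard]) (by rw [hcard])
    (by rw [hcard]; exact hnum)
  rw [hcard] at h2
  have hbig : 3 ≤ n := by
    have h4 := numC_le c
    rw [hcard] at h4
    by_contra hcon
    have h5 : n = 2 := by omega
    subst h5
    have h6 : 1 ≤ Nat.clog 2 2 := Nat.clog_pos (by norm_num) (by norm_num)
    have h7 : 1 ≤ Nat.clog 2 2 * (Nat.sqrt 2 + 1) :=
      Nat.mul_pos (by omega) (by omega)
    have h8 : 2000 * (10 ^ 8 * Nat.clog 2 2 * (Nat.sqrt 2 + 1)) * 2 =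
      4000 * 10 ^ 8 * (Nat.clog 2 2 * (Nat.sqrt 2 + 1)) := by ring
    omega
  exact ⟨ham_path c E h1 h2 hbig h3, ham_cycle c E h1 h2 hbig h3⟩

/-- The theorem on triangles. -/
theorem final_tri (n m : ℕ) (c : Sym2 (Fin n) → ℕ)
    (hc : ∀ a b d : Fin n, a ≠ b → a ≠ d → b ≠ d → c s(a, b) ≠ c s(a, d))
    (t : Fin m → Fin 3 → Fin n)
    (ht : Function.Injective (fun p : Fin m × Fin 3 => t p.1 p.2))
    (htc : Function.Injective (fun p : Fin m × Fin 3 => c s(t p.1 p.2, t p.1 (p.2 + 1))))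
    (hm1 : 1 ≤ m) (hmn : 1000 * m ≤ n) (hm : 10 ^ 16 * (Nat.clog 2 n) ^ 2 * n ≤ m ^ 2)
    (hs : ((univ : Finset (Fin n)).filter (fun x => m < 100 *
      (univ.filter (fun w => w ≠ x ∧ ∃ i, c s(x, w) = c s(t i 0, t i 1) ∨
        c s(x, w) = c s(t i 2, t i 0))).card)).card * m ≤ Nat.clog 2 n * n) :
    RainbowHam c := by
  have hcard : Fintype.card (Fin n) = n := Fintype.card_fin n
  have h2 : 2 ≤ n := by omega
  have hL1 : 1 ≤ Nat.clog 2 n := Nat.clog_pos (by norm_num) h2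
  have hnL : n ≤ 2 ^ Nat.clog 2 n := Nat.le_pow_clog (by norm_num) n
  have hspec : ∀ k : ℕ, k ∈ spec c m t ↔
      ∃ i, k = c s(t i 0, t i 1) ∨ k = c s(t i 2, t i 0) := by
    intro k
    simp only [spec, mem_union, mem_image, mem_univ, true_and]
    constructor
    · rintro (⟨i, hi⟩ | ⟨i, hi⟩)
      · exact ⟨i, Or.inl hi.symm⟩
      · exact ⟨i, Or.inr hi.symm⟩
    · rintro ⟨i, hi | hi⟩
      · exact Or.inl ⟨i, hi.symm⟩
      · exact Or.inr ⟨i, hi.symm⟩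
  obtain ⟨E, h3, h4, h5⟩ := core' c (proper_of c hc) m (Nat.clog 2 n) t ht htc hL1
    (by rw [hcard]; exact hnL) (by rw [hcard]; exact hm) (by rw [hcard]; exact hmn) hm1
    (by
      rw [hcard]
      simpa only [hspec] using hs)
  rw [hcard] at h4
  exact ⟨ham_path c E h3 h4 (by omega) h5, ham_cycle c E h3 h4 (by omega) h5⟩

end Pool.Agent.W_cd7020_h81
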