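import Pool.Agent.W_cd7020_h81.Final

/-!
# The final statements in terms of one closed tour
-/

set_option autoImplicit false

namespace Pool.Agent.W_cd7020_h81

open Finset

/-- A rainbow cyclic order of all vertices gives a Hamiltonian path whose edges, together with the
edge which joins its end vertices, have distinct colours. -/
theorem ham_tour {n : ℕ} {κ : Type*} (col : Sym2 (Fin n) → κ) (E : Finset (Sym2 (Fin n)))
    (hE : Cyc univ E) (hn : E.card = n) (h3 : 3 ≤ n) (hR : Rb col E) :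
    ∃ (u v : Fin n) (w : (⊤ : SimpleGraph (Fin n)).Walk u v),
      w.IsHamiltonian ∧ u ≠ v ∧ ((s(u, v) :: w.edges).map col).Nodup := by
  obtain ⟨a, l, hQ, hmem, hlen, hsub⟩ := Walk_list E hE hn h3
  obtain ⟨v, w, hs, he⟩ := list_walk a l hQ
  have hne : (a :: l) ≠ [] := List.cons_ne_nil _ _
  have hv : (a :: l).getLast hne = v := by
    have h1 := w.getLast_support
    simp only [hs] at h1
    exact h1
  have hl0 : l ≠ [] := by
    rintro rfl
    rw [List.length_singleton] at hlen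
    omega
  have hva : a ≠ v := by
    rintro rfl
    rw [List.getLast_cons hl0] at hv
    exact (List.nodup_cons.1 hQ).1 (hv ▸ List.getLast_mem hl0)
  have hce : ce (a :: l) = pe (a :: l) ++ [s(v, a)] := by
    rw [ce_eq _ hne, hv]
    rfl
  have hnd : (ce (a :: l)).Nodup := ce_nodup _ hQ (by omega)
  have hnot : s(a, v) ∉ pe (a :: l) := by
    rw [hce, List.nodup_append] at hnd
    intro h1
    exact hnd.2.2 _ h1 _ (List.mem_singleton_self _) Sym2.eq_swap
  refine ⟨a, v, w, fun x => ?_, hva, ?_⟩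
  · rw [hs]
    exact List.count_eq_one_of_mem hQ (hmem x)
  · rw [he]
    refine List.Nodup.map_on (fun x hx y hy hxy => ?_)
      (List.nodup_cons.2 ⟨hnot, pe_nodup _ hQ⟩)
    have hin : ∀ z ∈ s(a, v) :: pe (a :: l), z ∈ E := by
      intro z hz
      apply hsub
      rw [hce, List.mem_append]
      rcases List.mem_cons.1 hz with h1 | h1
      · right
        rw [h1, Sym2.eq_swap]
        exact List.mem_singleton_self _
      · exact Or.inl h1
    exact hR x (hin x hx) y (hin y hy) hxy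

/-- The theorem on the number of colours. -/
theorem tour_many (n : ℕ) (hn : 2 ≤ n) (c : Sym2 (Fin n) → ℕ)
    (hc : ∀ a b d : Fin n, a ≠ b → a ≠ d → b ≠ d → c s(a, b) ≠ c s(a, d))
    (hq : (10 : ℝ) ^ 13 * (n : ℝ) ^ (3 / 2 : ℝ) * Real.log n ≤
      (((univ : Finset (Sym2 (Fin n))).filter (fun e => ¬ e.IsDiag)).image c).card) :
    ∃ (u v : Fin n) (w : (⊤ : SimpleGraph (Fin n)).Walk u v),
      w.IsHamiltonian ∧ u ≠ v ∧ ((s(u, v) :: w.edges).map c).Nodup := by
  have hq' := real_bound n _ hn hq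
  have hcard : Fintype.card (Fin n) = n := Fintype.card_fin n
  have hnum : 2000 * (10 ^ 8 * Nat.clog 2 n * (Nat.sqrt n + 1)) * n ≤ numC c := hq'
  obtain ⟨E, h1, h2, h3⟩ := many_nat c (proper_of c hc) (by rw [hcard]; exact hn)
    (Nat.clog 2 n) (10 ^ 8 * Nat.clog 2 n * (Nat.sqrt n + 1)) (by rw [hcard]) (by rw [hcard])
    (by rw [hcard]; exact hnum)
  rw [hcard] at h2
  have hbig : 3 ≤ n := by
    have h4 := numC_le c
    rw [hcard] at h4
    by_contra hcon
    have h5 : n = 2 := by omega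
    subst h5
    have h6 : 1 ≤ Nat.clog 2 2 := Nat.clog_pos (by norm_num) (by norm_num)
    have h7 : 1 ≤ Nat.clog 2 2 * (Nat.sqrt 2 + 1) :=
      Nat.mul_pos (by omega) (by omega)
    have h8 : 2000 * (10 ^ 8 * Nat.clog 2 2 * (Nat.sqrt 2 + 1)) * 2 =
      4000 * 10 ^ 8 * (Nat.clog 2 2 * (Nat.sqrt 2 + 1)) := by ring
    omega
  exact ham_tour c E h1 h2 hbig h3

/-- The theorem on triangles. -/
theorem tour_tri (n m : ℕ) (c : Sym2 (Fin n) → ℕ)
    (hc : ∀ a b d : Fin n, a ≠ b → a ≠ d → b ≠ d → c s(a, b) ≠ c s(a, d))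
    (t : Fin m → Fin 3 → Fin n)
    (ht : Function.Injective (fun p : Fin m × Fin 3 => t p.1 p.2))
    (htc : Function.Injective (fun p : Fin m × Fin 3 => c s(t p.1 p.2, t p.1 (p.2 + 1))))
    (hm1 : 1 ≤ m) (hmn : 1000 * m ≤ n) (hm : 10 ^ 16 * (Nat.clog 2 n) ^ 2 * n ≤ m ^ 2)
    (hs : ((univ : Finset (Fin n)).filter (fun x => m < 100 *
      (univ.filter (fun w => w ≠ x ∧ ∃ i, c s(x, w) = c s(t i 0, t i 1) ∨
        c s(x, w) = c s(t i 2, t i 0))).card)).card * m ≤ Nat.clog 2 n * n) :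
    ∃ (u v : Fin n) (w : (⊤ : SimpleGraph (Fin n)).Walk u v),
      w.IsHamiltonian ∧ u ≠ v ∧ ((s(u, v) :: w.edges).map c).Nodup := by
  have hcard : Fintype.card (Fin n) = n := Fintype.card_fin n
  have h2 : 2 ≤ n := by omega
  have hL1 : 1 ≤ Nat.clog 2 n := Nat.clog_pos (by norm_num) h2
  have hnL : n ≤ 2 ^ Nat.clog 2 n := Nat.le_pow_clog (by norm_num) n
  have hspec : ∀ k : ℕ, k ∈ spec c m t ↔
      ∃ i, k = c s(t i 0, t i 1) ∨ k = c s(t i 2, t i 0) := by
    intro k
    simp only [spec, mem_union, mem_image, mem_univ, true_and]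
    constructor
    · rintro (⟨i, hi⟩ | ⟨i, hi⟩)
      · exact ⟨i, Or.inl hi.symm⟩
      · exact ⟨i, Or.inr hi.symm⟩
    · rintro ⟨i, hi | hi⟩
      · exact Or.inl ⟨i, hi.symm⟩
      · exact Or.inr ⟨i, hi.symm⟩
  obtain ⟨E, h3, h4, h5⟩ := core' c (proper_of c hc) m (Nat.clog 2 n) t ht htc hL1
    (by rw [hcard]; exact hnL) (by rw [hcard]; exact hm) (by rw [hcard]; exact hmn) hm1
    (by
      rw [hcard]
      simpa only [hspec] using hs)
  rw [hcard] at h4
  exact ham_tour c E h3 h4 (by omega) h5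

end Pool.Agent.W_cd7020_h81
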