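import Pool.Agent.W_cd7020_h81.Pe

/-!
# Consecutive pairs of a concatenation of four lists
-/

set_option autoImplicit false

namespace Pool.Agent.W_cd7020_h81

open Finset

variable {V : Type*} [DecidableEq V]

/-- The pairs of a concatenation of four nonempty lists: inside one of the lists, or at one of
the three junctions (`pe_append'`). -/
theorem pe_four (X₁ X₂ X₃ X₄ : List V) (h₁ : X₁ ≠ []) (h₂ : X₂ ≠ []) (h₃ : X₃ ≠ [])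
    (h₄ : X₄ ≠ []) (e : Sym2 V) :
    e ∈ pe (X₁ ++ X₂ ++ X₃ ++ X₄) ↔
      e ∈ pe X₁ ∨ e ∈ pe X₂ ∨ e ∈ pe X₃ ∨ e ∈ pe X₄ ∨ e = s(X₁.getLast h₁, X₂.head h₂) ∨
        e = s(X₂.getLast h₂, X₃.head h₃) ∨ e = s(X₃.getLast h₃, X₄.head h₄) := by
  have h12 : X₁ ++ X₂ ≠ [] := List.append_ne_nil_of_left_ne_nil h₁ _
  have h123 : X₁ ++ X₂ ++ X₃ ≠ [] := List.append_ne_nil_of_left_ne_nil h12 _
  have e1 : (X₁ ++ X₂).getLast h12 = X₂.getLast h₂ := List.getLast_append_of_ne_nil _ h₂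
  have e2 : (X₁ ++ X₂ ++ X₃).getLast h123 = X₃.getLast h₃ := List.getLast_append_of_ne_nil _ h₃
  rw [pe_append' _ _ h123 h₄, pe_append' _ _ h12 h₃, pe_append' _ _ h₁ h₂, e1, e2]
  simp only [List.mem_append, List.mem_cons]
  tauto

/-- The cyclic pairs of a concatenation of four nonempty lists (`ce_eq`, `pe_four`). -/
theorem ce_four (X₁ X₂ X₃ X₄ : List V) (h₁ : X₁ ≠ []) (h₂ : X₂ ≠ []) (h₃ : X₃ ≠ [])
    (h₄ : X₄ ≠ []) (e : Sym2 V) :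
    e ∈ ce (X₁ ++ X₂ ++ X₃ ++ X₄) ↔
      e ∈ pe X₁ ∨ e ∈ pe X₂ ∨ e ∈ pe X₃ ∨ e ∈ pe X₄ ∨ e = s(X₁.getLast h₁, X₂.head h₂) ∨
        e = s(X₂.getLast h₂, X₃.head h₃) ∨ e = s(X₃.getLast h₃, X₄.head h₄) ∨
        e = s(X₄.getLast h₄, X₁.head h₁) := by
  have h12 : X₁ ++ X₂ ≠ [] := List.append_ne_nil_of_left_ne_nil h₁ _
  have h123 : X₁ ++ X₂ ++ X₃ ≠ [] := List.append_ne_nil_of_left_ne_nil h12 _
  have h1234 : X₁ ++ X₂ ++ X₃ ++ X₄ ≠ [] := List.append_ne_nil_of_left_ne_nil h123 _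
  have e1 : (X₁ ++ X₂ ++ X₃ ++ X₄).getLast h1234 = X₄.getLast h₄ :=
    List.getLast_append_of_ne_nil _ h₄
  have e2 : (X₁ ++ X₂ ++ X₃ ++ X₄).head h1234 = X₁.head h₁ := by
    rw [List.head_append_of_ne_nil h123, List.head_append_of_ne_nil h12,
      List.head_append_of_ne_nil h₁]
  rw [ce_eq _ h1234, List.mem_append, pe_four X₁ X₂ X₃ X₄ h₁ h₂ h₃ h₄, e1, e2, List.mem_singleton]
  tauto

end Pool.Agent.W_cd7020_h81
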