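import Pool.Agent.W_cd7020_h81.Attach

/-!
# Consequences of the attachment lemma for a stuck forest
-/

set_option autoImplicit false

namespace Pool.Agent.W_cd7020_h81

open Finset

variable {V κ : Type*} [DecidableEq V] [DecidableEq κ] [Fintype V]

/-- (G1) A vertex of `U` with many live edges has degree two.

Proof. Strong induction on `g`. Otherwise `dg F y ≤ 1` (`LF.dg_le`), and `attach` with `E = F`,
`T = {y}`, `w = y`, `B = g + 2`, `U' = U` gives a valid set on `U` with `|F| + 1` edges,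
contradicting `max1`. The hypothesis of `attach` about levels `k < g`: a vertex `y'` of an edge of
`F` is in `U` (`LF.memU`), so `dg F y' = 2` by the induction hypothesis, and `y' ∉ R` by `Rdeg`. -/
theorem G1 (col : Sym2 V → κ) (A F : Finset (Sym2 V)) (Φ : Finset κ) (U O R : Finset V)
    (h b : ℕ) (hS : Stuck col A F Φ U O R h) (g : ℕ) (hb : 2 * (g + 2) + 2 ≤ b) (y : V)
    (hy : y ∈ U) (hl : b ≤ (live col F R (Cs col F A Φ R b g) y).card) : dg F y = 2 := by
  induction g using Nat.strong_induction_on generalizing y with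
  | _ g ih =>
    obtain ⟨hLF, hAF, hRb, hΦF⟩ := hS.valid
    by_contra hne
    have hle := hLF.dg_le y
    have hdy : dg F y ≤ 1 := by omega
    have hY : ∀ k < g, ∀ z, b ≤ (live col F R (Cs col F A Φ R b k) z).card →
        (∃ e ∈ F, z ∈ e) → z ∉ R := by
      rintro k hk z hz ⟨e, he, hze⟩ hzR
      have h1 := ih k hk (by omega) z (hLF.memU he hze) hz
      have h2 := hS.Rdeg z hzR
      omega
    obtain ⟨E', T', hV', hc', -⟩ := attach col hS.proper F A Φ R b (g + 2) hb hRb hΦF U hS.RU g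
      hY F {y} y hS.valid (by rw [card_singleton]; omega)
      (by simp)
      (fun r hr _ => hS.Rdeg r hr) hy (fun _ => mem_singleton_self y) hdy hl
    exact hS.max1 E' hV' hc'

/-- The hypothesis on levels in `attach`, from `G1`. -/
theorem G1' (col : Sym2 V → κ) (A F : Finset (Sym2 V)) (Φ : Finset κ) (U O R : Finset V)
    (h b : ℕ) (hS : Stuck col A F Φ U O R h) (g : ℕ) (hb : 2 * (g + 2) + 2 ≤ b) :
    ∀ k < g, ∀ y, b ≤ (live col F R (Cs col F A Φ R b k) y).card → (∃ e ∈ F, y ∈ e) →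
      y ∉ R := by
  rintro k hk z hz ⟨e, he, hze⟩ hzR
  have h1 := G1 col A F Φ U O R h b hS k (by omega) z (hS.valid.1.memU he hze) hz
  have h2 := hS.Rdeg z hzR
  omega

/-- (G2) No edge of `F` outside `A` has both ends in the set of vertices with many live edges.

Proof. Suppose `e = s(y, y') ∈ F`, `e ∉ A`. `dg F y = dg F y' = 2` by `G1`, so `y, y' ∉ R`. Put
`E₀ = F.erase e` (valid, `|E₀| = |F| - 1`, `dg E₀ y = dg E₀ y' = 1`), `T = ∅`, `B = 2 g + 2`. `attach` at
`y` gives `E₁`, `T₁` with `|E₁| = |F|`, `T₁ ⊆ R`, so `y' ∉ T₁` and `dg E₁ y' ≤ 1`. `attach` at `y'` gives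
`E₂` with `|E₂| = |F| + 1`, contradicting `max1`. (For `r ∈ R`, `r ∉ T₁`: `r ≠ y`, so
`dg E₁ r ≤ dg E₀ r ≤ dg F r ≤ 1`.) -/
theorem G2 (col : Sym2 V → κ) (A F : Finset (Sym2 V)) (Φ : Finset κ) (U O R : Finset V)
    (h b : ℕ) (hS : Stuck col A F Φ U O R h) (g : ℕ) (hb : 4 * g + 6 ≤ b) (y y' : V)
    (hyy : y ≠ y') (he : s(y, y') ∈ F) (heA : s(y, y') ∉ A)
    (hl : b ≤ (live col F R (Cs col F A Φ R b g) y).card)
    (hl' : b ≤ (live col F R (Cs col F A Φ R b g) y').card) : False := by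
  obtain ⟨hLF, hAF, hRb, hΦF⟩ := hS.valid
  have hyU : y ∈ U := hLF.memU he (Sym2.mem_mk_left y y')
  have hyU' : y' ∈ U := hLF.memU he (Sym2.mem_mk_right y y')
  have hd := G1 col A F Φ U O R h b hS g (by omega) y hyU hl
  have hd' := G1 col A F Φ U O R h b hS g (by omega) y' hyU' hl'
  have hyR : y ∉ R := fun hR => by
    have := hS.Rdeg y hR
    omega
  have hyR' : y' ∉ R := fun hR => by
    have := hS.Rdeg y' hR
    omega
  have hY := G1' col A F Φ U O R h b hS g (by omega)
  have hE0 : Valid col A Φ U (F.erase s(y, y')) := by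
    refine ⟨hLF.mono (erase_subset _ _), ?_, ?_, ?_⟩
    · intro a ha
      refine mem_erase.2 ⟨?_, hAF ha⟩
      rintro rfl
      exact heA ha
    · intro a ha c hc
      exact hRb a (mem_of_mem_erase ha) c (mem_of_mem_erase hc)
    · intro a ha
      exact hΦF a (mem_of_mem_erase ha)
  have h1 := dg_erase F s(y, y') y he (Sym2.mem_mk_left y y')
  have h2 := dg_erase F s(y, y') y' he (Sym2.mem_mk_right y y')
  have hc0 : (F.erase s(y, y')).card + 1 = F.card := card_erase_add_one he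
  obtain ⟨E₁, T₁, hV₁, hc₁, -, hTc₁, hTR₁, hEF₁, -, hdz₁⟩ := attach col hS.proper F A Φ R b
    (2 * g + 2) (by omega) hRb hΦF U hS.RU g hY (F.erase s(y, y')) ∅ y hE0
    (by rw [card_empty]; omega)
    (by
      have : F.erase s(y, y') \ F = ∅ := sdiff_eq_empty_iff_subset.2 (erase_subset _ _)
      exact (congrArg Finset.card this).le.trans (Nat.zero_le _))
    (fun r hr _ => (dg_mono (erase_subset _ _) r).trans (hS.Rdeg r hr)) hyU
    (fun hR => absurd hR hyR) (by omega) hl
  rw [empty_union] at hTR₁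
  rw [card_empty] at hTc₁
  have hyT₁ : y' ∉ T₁ := fun hT => hyR' (hTR₁ hT)
  obtain ⟨E₂, T₂, hV₂, hc₂, -⟩ := attach col hS.proper F A Φ R b
    (2 * g + 2) (by omega) hRb hΦF U hS.RU g hY E₁ T₁ y' hV₁ (by omega) hEF₁
    (by
      intro r hr hrT
      have hry : r ≠ y := by
        rintro rfl
        exact hyR hr
      exact (hdz₁ r hrT hry).trans ((dg_mono (erase_subset _ _) r).trans (hS.Rdeg r hr)))
    hyU' (fun hR => absurd hR hyR') (by
      have := hdz₁ y' hyT₁ hyy.symm
      omega) hl'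
  exact hS.max1 E₂ hV₂ (by omega)

/-- (G3) A vertex of `O` has fewer than `b` live edges.

Proof. `v ∈ O`, so `v ∉ U`, `v ∉ R`, `F` is valid on `U' = insert v U` (`LF.insertV`) and
`dg F v = 0`. Attach `v` twice (`T = ∅`, `B = 2 g + 2`): `dg E₁ v ≤ 1` after the first time. The result is
valid on `U'` with `|F| + 2` edges, contradicting `max2`. -/
theorem G3 (col : Sym2 V → κ) (A F : Finset (Sym2 V)) (Φ : Finset κ) (U O R : Finset V)
    (h b : ℕ) (hS : Stuck col A F Φ U O R h) (g : ℕ) (hb : 4 * g + 6 ≤ b) (v : V) (hv : v ∈ O) :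
    (live col F R (Cs col F A Φ R b g) v).card < b := by
  by_contra hcon
  rw [not_lt] at hcon
  obtain ⟨hLF, hAF, hRb, hΦF⟩ := hS.valid
  have hvU : v ∉ U := fun hU => (disjoint_left.1 hS.disj) hv hU
  have hvR : v ∉ R := fun hR => hvU (hS.RU hR)
  have hY := G1' col A F Φ U O R h b hS g (by omega)
  have hE0 : Valid col A Φ (insert v U) F := ⟨hLF.insertV hvU, hAF, hRb, hΦF⟩
  have hd0 : dg F v = 0 := hLF.dg_zero hvU
  have hRU' : R ⊆ insert v U := hS.RU.trans (subset_insert _ _)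
  obtain ⟨E₁, T₁, hV₁, hc₁, -, hTc₁, hTR₁, hEF₁, hdw₁, hdz₁⟩ := attach col hS.proper F A Φ R b
    (2 * g + 2) (by omega) hRb hΦF (insert v U) hRU' g hY F ∅ v hE0
    (by rw [card_empty]; omega)
    (by simp)
    (fun r hr _ => hS.Rdeg r hr) (mem_insert_self _ _)
    (fun hR => absurd hR hvR) (by omega) hcon
  rw [empty_union] at hTR₁
  rw [card_empty] at hTc₁
  have hvT₁ : v ∉ T₁ := fun hT => hvR (hTR₁ hT)
  obtain ⟨E₂, T₂, hV₂, hc₂, -⟩ := attach col hS.proper F A Φ R b
    (2 * g + 2) (by omega) hRb hΦF (insert v U) hRU' g hY E₁ T₁ v hV₁ (by omega) hEF₁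
    (by
      intro r hr hrT
      have hrv : r ≠ v := by
        rintro rfl
        exact hvR hr
      exact (hdz₁ r hrT hrv).trans (hS.Rdeg r hr))
    (mem_insert_self _ _) (fun hR => absurd hR hvR) (by
      have := hdw₁ hvT₁
      omega) hcon
  exact hS.max2 v hv E₂ hV₂ (by omega)

end Pool.Agent.W_cd7020_h81
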