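import Pool.Agent.W_cd7020_h81.Defs

/-!
# Random maps: tail estimates by counting
-/

set_option autoImplicit false

namespace Pool.Agent.W_cd7020_h81

open Finset

variable {κ : Type*} [DecidableEq κ] [Fintype κ]

/-- The generating function of the number of elements of `K` which are mapped to `g`, over all
maps `f : κ → Fin P`. Write `t ^ card (K.filter ..) = ∏ k, (if k ∈ K ∧ f k = g then t else 1)` and
exchange product and sum (`Finset.prod_univ_sum`, `Fintype.piFinset_univ`): the factor for `k ∈ K` is
`P - 1 + t`, for `k ∉ K` it is `P`. -/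
theorem gen_fun (P : ℕ) (g : Fin P) (K : Finset κ) (t : ℝ) :
    ∑ f : κ → Fin P, t ^ (K.filter (fun k => f k = g)).card =
      (P : ℝ) ^ (Fintype.card κ - K.card) * (P - 1 + t) ^ K.card := by
  have h1 : ∀ f : κ → Fin P, t ^ (K.filter (fun k => f k = g)).card =
      ∏ k : κ, (if k ∈ K ∧ f k = g then t else 1) := by
    intro f
    rw [← Finset.prod_filter, Finset.prod_const]
    congr 2
    ext k
    simp
  have h2 : ∀ k : κ, (∑ x : Fin P, (if k ∈ K ∧ x = g then t else 1)) =
      if k ∈ K then ((P : ℝ) - 1 + t) else (P : ℝ) := by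
    intro k
    split_ifs with hk
    · have h3 : ∀ x : Fin P, (if k ∈ K ∧ x = g then t else (1 : ℝ)) =
          1 + (if x = g then t - 1 else 0) := by
        intro x
        by_cases hx : x = g
        · simp [hk, hx]
        · simp [hx]
      rw [Finset.sum_congr rfl fun x _ => h3 x, Finset.sum_add_distrib]
      simp
      ring
    · simp [hk]
  have h4 := Finset.prod_univ_sum (fun _ : κ => (Finset.univ : Finset (Fin P)))
    (fun (k : κ) (x : Fin P) => (if k ∈ K ∧ x = g then t else (1 : ℝ)))
  rw [Fintype.piFinset_univ] at h4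
  rw [Finset.sum_congr rfl fun f _ => h1 f, ← h4, Finset.prod_congr rfl fun k _ => h2 k,
    Finset.prod_ite, Finset.prod_const, Finset.prod_const, mul_comm]
  congr 2
  · have h5 : (Finset.univ.filter (fun k => k ∉ K)) = Kᶜ := by
      ext k
      simp
    rw [h5, Finset.card_compl]
  · congr 1
    ext k
    simp

end Pool.Agent.W_cd7020_h81
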