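import Pool.Agent.W_cd7020_h81.Defs

/-!
# Greedy choice of a set with many colours
-/

set_option autoImplicit false

namespace Pool.Agent.W_cd7020_h81

open Finset

variable {V κ : Type*} [DecidableEq V] [DecidableEq κ] [Fintype V]

theorem Greedy_count (col : Sym2 V → κ) (hcol : Proper col) (X Z : Finset V) (hXZ : Disjoint X Z)
    (B : Finset κ) :
    ∑ y ∈ Z, (X.filter (fun v => col s(v, y) ∈ B)).card ≤ X.card * B.card := by
  classical
  simp only [Finset.card_filter]
  rw [Finset.sum_comm]
  refine (Finset.sum_le_card_nsmul X _ B.card fun v hv => ?_).trans (by rw [smul_eq_mul])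
  rw [← Finset.card_filter]
  refine Finset.card_le_card_of_injOn (fun y => col s(v, y)) ?_ ?_
  · intro y hy
    rw [Finset.mem_coe, Finset.mem_filter] at hy
    exact hy.2
  · intro y hy z hz hyz
    rw [Finset.mem_coe, Finset.mem_filter] at hy hz
    by_contra hne
    have h1 : v ≠ y := fun h => Finset.disjoint_left.1 hXZ hv (h ▸ hy.1)
    have h2 : v ≠ z := fun h => Finset.disjoint_left.1 hXZ hv (h ▸ hz.1)
    exact hcol v y z h1 h2 hne hyz

theorem Greedy_step (col : Sym2 V → κ) (hcol : Proper col) (G : Finset κ) (x j : ℕ) (hj : j < x)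
    (X W : Finset V) (hX : X.card = x) (hXW : Disjoint X W)
    (hW : 4 * x ^ 2 + 4 * G.card + x ≤ W.card) (Y : Finset V) (hY : Y ⊆ W) (hYc : Y.card = j)
    (hb : j * x ≤ 2 * (btw col G X Y).card) :
    ∃ y ∈ W, y ∉ Y ∧ (j + 1) * x ≤ 2 * (btw col G X (insert y Y)).card := by
  classical
  set C : Finset κ := btw col G X Y with hC
  set B : Finset κ := C ∪ G with hB
  have hCc : C.card ≤ x ^ 2 := by
    refine (Finset.card_le_card Finset.sdiff_subset).trans ?_
    refine Finset.card_image_le.trans ?_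
    rw [Finset.card_product, hX, hYc, pow_two]
    exact Nat.mul_le_mul_left _ hj.le
  have hBc : B.card ≤ x ^ 2 + G.card := (Finset.card_union_le _ _).trans (by omega)
  have hZc : (W \ Y).card = W.card - j := by
    rw [Finset.card_sdiff_of_subset hY, hYc]
  have hZ1 : 4 * x ^ 2 + 4 * G.card ≤ (W \ Y).card := by omega
  have hZ2 : 0 < (W \ Y).card := by
    have : 0 < x ^ 2 := pow_pos (by omega) 2
    omega
  have h1 : ∃ y ∈ W \ Y, 4 * (X.filter (fun v => col s(v, y) ∈ B)).card ≤ x := by
    by_contra hcon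
    push Not at hcon
    have h2 := Greedy_count col hcol X (W \ Y)
      (Finset.disjoint_of_subset_right Finset.sdiff_subset hXW) B
    have h3 : ∑ _y ∈ W \ Y, x < ∑ y ∈ W \ Y, 4 * (X.filter (fun v => col s(v, y) ∈ B)).card :=
      Finset.sum_lt_sum_of_nonempty (Finset.card_pos.1 hZ2) hcon
    rw [Finset.sum_const, smul_eq_mul, ← Finset.mul_sum] at h3
    rw [hX] at h2
    have h4 : x * B.card ≤ x * (x ^ 2 + G.card) := Nat.mul_le_mul_left _ hBc
    have h5 : (4 * x ^ 2 + 4 * G.card) * x ≤ (W \ Y).card * x := Nat.mul_le_mul_right _ hZ1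
    have h6 : (4 * x ^ 2 + 4 * G.card) * x = 4 * (x * (x ^ 2 + G.card)) := by ring
    omega
  obtain ⟨y, hy, hyb⟩ := h1
  rw [Finset.mem_sdiff] at hy
  refine ⟨y, hy.1, hy.2, ?_⟩
  set N : Finset κ := (X.filter (fun v => col s(v, y) ∉ B)).image (fun v => col s(v, y)) with hN
  have hNc : N.card = x - (X.filter (fun v => col s(v, y) ∈ B)).card := by
    rw [hN, Finset.card_image_of_injOn]
    · have := Finset.card_filter_add_card_filter_not (s := X) (fun v => col s(v, y) ∈ B)
      omega
    · intro v hv w hw hvw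
      rw [Finset.mem_coe, Finset.mem_filter] at hv hw
      by_contra hne
      have h1 : y ≠ v := fun h => Finset.disjoint_left.1 hXW hv.1 (h ▸ hy.1)
      have h2 : y ≠ w := fun h => Finset.disjoint_left.1 hXW hw.1 (h ▸ hy.1)
      refine hcol y v w h1 h2 hne ?_
      rw [Sym2.eq_swap (a := y) (b := v), Sym2.eq_swap (a := y) (b := w)]
      exact hvw
  have hdisj : Disjoint C N := by
    rw [Finset.disjoint_left]
    intro k hk hk2
    rw [hN, Finset.mem_image] at hk2
    obtain ⟨v, hv, rfl⟩ := hk2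
    exact (Finset.mem_filter.1 hv).2 (Finset.mem_union_left _ hk)
  have hsub : C ∪ N ⊆ btw col G X (insert y Y) := by
    intro k hk
    rw [Finset.mem_union] at hk
    unfold btw
    rw [Finset.mem_sdiff, Finset.mem_image]
    rcases hk with hk | hk
    · rw [hC, btw, Finset.mem_sdiff, Finset.mem_image] at hk
      obtain ⟨⟨⟨a, b⟩, hab, rfl⟩, hk2⟩ := hk
      rw [Finset.mem_product] at hab
      exact ⟨⟨(a, b), Finset.mem_product.2 ⟨hab.1, Finset.mem_insert_of_mem hab.2⟩, rfl⟩, hk2⟩
    · rw [hN, Finset.mem_image] at hk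
      obtain ⟨v, hv, rfl⟩ := hk
      rw [Finset.mem_filter] at hv
      exact ⟨⟨(v, y), Finset.mem_product.2 ⟨hv.1, Finset.mem_insert_self _ _⟩, rfl⟩,
        fun h => hv.2 (Finset.mem_union_right _ h)⟩
  have h2 := Finset.card_le_card hsub
  rw [Finset.card_union_of_disjoint hdisj] at h2
  have h3 : (j + 1) * x = j * x + x := by ring
  rw [h3]
  omega

/-- Greedy choice: between `X` (with `x` elements) and a set `W`, disjoint from `X`, of at least
`4 x ^ 2 + 4 |G| + x` vertices there are `Y ⊆ W`, `|Y| = x`, and at least `x ^ 2 / 2` colours outside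
`G` between `X` and `Y`.

Proof. Choose the elements of `Y` one after the other (induction on `j ≤ x`: `|Y| = j` and
`j x ≤ 2 |btw col G X Y|`). With `Y` given, call an edge from `X` to `W \ Y` bad if its colour is in `G` or
in `btw col G X Y`; the latter has at most `j x < x ^ 2` elements, and each colour occurs on at
most `x` edges from `X` (`Proper`), so there are at most `(|G| + x ^ 2) x` bad edges. Since
`|W \ Y| ≥ 4 x ^ 2 + 4 |G|`, some `y ∈ W \ Y` is in at most `x / 4` of them, so `y` has at least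
`3 x / 4` edges to `X` with distinct new colours. -/
theorem greedy (col : Sym2 V → κ) (hcol : Proper col) (G : Finset κ) (x : ℕ)
    (X W : Finset V) (hX : X.card = x) (hXW : Disjoint X W)
    (hW : 4 * x ^ 2 + 4 * G.card + x ≤ W.card) :
    ∃ Y : Finset V, Y ⊆ W ∧ Y.card = x ∧ x ^ 2 ≤ 2 * (btw col G X Y).card := by
  classical
  have key : ∀ j ≤ x, ∃ Y : Finset V, Y ⊆ W ∧ Y.card = j ∧ j * x ≤ 2 * (btw col G X Y).card := by
    intro j
    induction j with
    | zero =>
      intro _
      exact ⟨∅, Finset.empty_subset _, rfl, by simp⟩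
    | succ j ih =>
      intro hj
      obtain ⟨Y, hY, hYc, hb⟩ := ih (by omega)
      obtain ⟨y, hyW, hyY, hb2⟩ :=
        Greedy_step col hcol G x j (by omega) X W hX hXW hW Y hY hYc hb
      refine ⟨insert y Y, Finset.insert_subset hyW hY, ?_, hb2⟩
      rw [Finset.card_insert_of_notMem hyY, hYc]
  obtain ⟨Y, hY, hYc, hb⟩ := key x le_rfl
  exact ⟨Y, hY, hYc, by rw [pow_two]; exact hb⟩

end Pool.Agent.W_cd7020_h81
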