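import Mathlib

/-!
# The growth recursion
-/

set_option autoImplicit false

namespace Pool.Agent.W_cd7020_h81

/-- The recursion for `x_g = |M_g|` and `y_g = |Y_g|` is impossible.

Proof. `8 x_{g+1} ≥ 8 y_g ≥ 8 x_g + m`, so `x_32 ≥ 4 m`. For `g ≥ 32`: `x_g ≥ 4 m` and
`2 x_{g+1} ≥ 4 y_g - 4 m ≥ 4 x_g - 4 m + m / 2 ≥ 3 x_g`. So `x_{32 + 2 L} ≥ (9/4)^L 4 m ≥ 2^L · 4 m > N`. -/
theorem recursion (x y : ℕ → ℕ) (m L N : ℕ) (hm : 1 ≤ m) (hN : N ≤ 2 ^ L)
    (h1 : ∀ g < 32 + 2 * L, 8 * x g + m ≤ 8 * y g)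
    (h2 : ∀ g < 32 + 2 * L, y g ≤ x (g + 1))
    (h3 : ∀ g < 32 + 2 * L, 2 * y g ≤ x (g + 1) + 2 * m)
    (h4 : ∀ g, x g ≤ N) : False := by
  have hlin : ∀ g, g ≤ 32 + 2 * L → g * m ≤ 8 * x g := by
    intro g
    induction g with
    | zero => intro _; omega
    | succ g ih =>
      intro hg
      have a1 := ih (by omega)
      have a2 := h1 g (by omega)
      have a3 := h2 g (by omega)
      have a4 : (g + 1) * m = g * m + m := by ring
      omega
  have h32 : ∀ g, 32 ≤ g → g ≤ 32 + 2 * L → 4 * m ≤ x g := by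
    intro g hg hg'
    have a1 := hlin g hg'
    have a2 : 32 * m ≤ g * m := Nat.mul_le_mul_right m hg
    omega
  have hstep : ∀ g, 32 ≤ g → g < 32 + 2 * L → 3 * x g ≤ 2 * x (g + 1) := by
    intro g hg hg'
    have a1 := h32 g hg hg'.le
    have a2 := h1 g hg'
    have a3 := h3 g hg'
    omega
  have hpow : ∀ j, j ≤ L → 2 ^ j * (4 * m) ≤ x (32 + 2 * j) := by
    intro j
    induction j with
    | zero =>
      intro _
      have a1 := h32 32 le_rfl (by omega)
      simpa using a1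
    | succ j ih =>
      intro hj
      have a1 := ih (by omega)
      have a2 := hstep (32 + 2 * j) (by omega) (by omega)
      have a3 := hstep (32 + 2 * j + 1) (by omega) (by omega)
      have a4 : 32 + 2 * (j + 1) = 32 + 2 * j + 1 + 1 := by ring
      have a5 : 2 ^ (j + 1) * (4 * m) = 2 * (2 ^ j * (4 * m)) := by ring
      rw [a4, a5]
      omega
  have a1 := hpow L le_rfl
  have a2 := h4 (32 + 2 * L)
  have a3 : 2 ^ L * 4 ≤ 2 ^ L * (4 * m) := Nat.mul_le_mul_left _ (by omega)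
  have a4 : 1 ≤ 2 ^ L := Nat.one_le_two_pow
  omega

end Pool.Agent.W_cd7020_h81
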