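import Pool.Agent.W_cd7020_h81.CountY
import Pool.Agent.W_cd7020_h81.CountM
import Pool.Agent.W_cd7020_h81.Rec

/-!
# The growth lemma
-/

set_option autoImplicit false

namespace Pool.Agent.W_cd7020_h81

open Finset

variable {V κ : Type*} [DecidableEq V] [DecidableEq κ] [Fintype V]

/-- The growth lemma: a stuck forest has fewer than `a` good ends.

Proof. Apply `recursion` to `x g = |M_g|`, `y g = |Y_g|`, `N = |F| ≤ n ≤ 2 ^ L`: `count_Y` gives
`a (x_g + |U| + |O|) ≤ a (2 + h + |F| + y_g) + b n`, and `64 b n ≤ a m`, so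
`x_g + |U| + |O| ≤ 2 + h + |F| + y_g + m / 64` (as real numbers), and `|F| + m / 4 ≤ |U| + |O|`,
`h ≤ m / 16`, `2 ≤ 3 m / 64` give `x_g + m / 8 ≤ y_g`. -/
theorem growth (col : Sym2 V → κ) (A F : Finset (Sym2 V)) (Φ : Finset κ) (U O R : Finset V)
    (h b m L : ℕ) (hS : Stuck col A F Φ U O R h) (hL : 1 ≤ L) (hb : b = 142 * L)
    (hn : Fintype.card V ≤ 2 ^ L) (hm : 43 ≤ m) (ha : 64 * b * Fintype.card V ≤ R.card * m)
    (hR : 1 ≤ R.card) (hh : 16 * h ≤ m) (hA : A.card ≤ m)
    (ht : 4 * F.card + m ≤ 4 * (U.card + O.card)) : False := by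
  have hUO : U.card + O.card ≤ Fintype.card V := by
    rw [← Finset.card_union_of_disjoint hS.disj.symm]
    exact Finset.card_le_univ _
  have hFn : F.card ≤ 2 ^ L := by omega
  have hg6 : ∀ g < 32 + 2 * L, 4 * g + 6 ≤ b := by
    intro g hg
    omega
  refine recursion (fun g => (Mg col F A Φ R b g).card) (fun g => (Yg col F A Φ U R b g).card)
    m L F.card (by omega) hFn ?_ ?_ ?_ ?_
  · intro g hg
    show 8 * (Mg col F A Φ R b g).card + m ≤ 8 * (Yg col F A Φ U R b g).card
    have h1 := count_Y col A F Φ U O R h b hS g (hg6 g hg)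
    have h2 : R.card * (64 * ((Mg col F A Φ R b g).card + U.card + O.card)) ≤
        R.card * (64 * (2 + h + F.card + (Yg col F A Φ U R b g).card) + m) := by
      nlinarith
    have h3 := Nat.le_of_mul_le_mul_left h2 (by omega)
    omega
  · intro g hg
    exact count_M1 col A F Φ U O R h b hS g (hg6 g hg)
  · intro g hg
    have h1 := count_M2 col A F Φ U O R h b hS g (hg6 g hg)
    show 2 * (Yg col F A Φ U R b g).card ≤ (Mg col F A Φ R b (g + 1)).card + 2 * m
    omega
  · intro g
    classical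
    show (Mg col F A Φ R b g).card ≤ F.card
    unfold Mg
    exact Finset.card_le_card (Finset.filter_subset _ _)

end Pool.Agent.W_cd7020_h81
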