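import Pool.Agent.W_cd7020_h81.LFa

/-!
# Inserting a vertex into a cycle
-/

set_option autoImplicit false

namespace Pool.Agent.W_cd7020_h81

open Finset

variable {V κ : Type*} [DecidableEq V] [DecidableEq κ]

theorem InsV_rot (l₁ l₂ : List V) (e : Sym2 V) : e ∈ ce (l₂ ++ l₁) ↔ e ∈ ce (l₁ ++ l₂) := by
  induction l₁ generalizing l₂ with
  | nil => simp
  | cons a l₁ ih =>
    have h1 := mem_ce_rotate a (l₁ ++ l₂) e
    have h2 := ih (l₂ ++ [a])
    rw [List.append_assoc] at h1
    rw [List.append_assoc, List.singleton_append] at h2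
    rw [List.cons_append]
    exact h2.trans h1

theorem InsV_rev (l : List V) (e : Sym2 V) : e ∈ ce l.reverse ↔ e ∈ ce l := by
  by_cases hl : l = []
  · subst hl
    simp
  · have hr : l.reverse ≠ [] := by simpa using hl
    rw [ce_eq l hl, ce_eq l.reverse hr, List.mem_append, List.mem_append, mem_pe_reverse,
      List.getLast_reverse, List.head_reverse, List.mem_singleton, List.mem_singleton,
      Sym2.eq_swap]

/-- the case of a list with given ends -/
theorem InsV_aux (Q Q1 : List V) (a b x y : V) (h1 : ∀ v, v ∈ Q1 ↔ v ∈ Q)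
    (h2 : Q.Nodup → Q1.Nodup) (h3 : Q1.length = Q.length) (h4 : ∀ e, e ∈ ce Q1 ↔ e ∈ ce Q)
    (h5 : Q1.head? = some y) (h6 : Q1.getLast? = some x) (hab : s(a, b) = s(x, y)) :
    ∃ Q' : List V, (∀ v, v ∈ Q' ↔ v ∈ Q) ∧ (Q.Nodup → Q'.Nodup) ∧ Q'.length = Q.length ∧
      (∀ e, e ∈ ce Q' ↔ e ∈ ce Q) ∧ Q'.head? = some b ∧ Q'.getLast? = some a := by
  rcases Sym2.eq_iff.mp hab with ⟨rfl, rfl⟩ | ⟨rfl, rfl⟩
  · exact ⟨Q1, h1, h2, h3, h4, h5, h6⟩
  · refine ⟨Q1.reverse, ?_, ?_, ?_, ?_, ?_, ?_⟩
    · intro v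
      rw [List.mem_reverse, h1]
    · intro h
      rw [List.nodup_reverse]
      exact h2 h
    · rw [List.length_reverse, h3]
    · intro e
      rw [InsV_rev, h4]
    · rw [List.head?_reverse, h6]
    · rw [List.getLast?_reverse, h5]

/-- If `s(a, b)` is a cyclic pair of `Q`, then some rotation or reversed rotation `Q'` of `Q` has
first element `b`, last element `a` and the same cyclic pairs. -/
theorem ce_rotate_to (Q : List V) (a b : V) (h : s(a, b) ∈ ce Q) :
    ∃ Q' : List V, (∀ v, v ∈ Q' ↔ v ∈ Q) ∧ (Q.Nodup → Q'.Nodup) ∧ Q'.length = Q.length ∧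
      (∀ e, e ∈ ce Q' ↔ e ∈ ce Q) ∧ Q'.head? = some b ∧ Q'.getLast? = some a := by
  have hQ : Q ≠ [] := by
    rintro rfl
    simp [ce, pe] at h
  rw [ce_eq Q hQ, List.mem_append, List.mem_singleton] at h
  rcases h with h | h
  · obtain ⟨l₁, x, y, l₂, hl, hxy⟩ := (mem_pe _ _).mp h
    refine InsV_aux Q ((y :: l₂) ++ (l₁ ++ [x])) a b x y ?_ ?_ ?_ ?_ ?_ ?_ hxy
    · intro v
      rw [hl]
      simp only [List.mem_append, List.mem_cons, List.not_mem_nil, or_false]
      tauto
    · intro hn
      have hp : ((y :: l₂) ++ (l₁ ++ [x])).Perm Q := by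
        rw [hl, show l₁ ++ x :: y :: l₂ = (l₁ ++ [x]) ++ (y :: l₂) by simp]
        exact List.perm_append_comm
      exact hp.nodup_iff.mpr hn
    · rw [hl]
      simp only [List.length_append, List.length_cons, List.length_nil]
      omega
    · intro e
      rw [hl, show l₁ ++ x :: y :: l₂ = (l₁ ++ [x]) ++ (y :: l₂) by simp]
      exact InsV_rot _ _ e
    · simp
    · rw [← List.append_assoc]
      exact List.getLast?_concat
  · exact InsV_aux Q Q a b (Q.getLast hQ) (Q.head hQ) (fun _ => Iff.rfl) id rfl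
      (fun _ => Iff.rfl) (List.head?_eq_some_head hQ) (List.getLast?_eq_some_getLast hQ) h

/-- Inserting a vertex into the edge `s(a, b)` of a cycle: by `ce_rotate_to` we may assume that `b`
is the first and `a` the last element of `Q`; the new list is `Q ++ [v]`. -/
theorem Cyc.insert_vertex {U : Finset V} {E : Finset (Sym2 V)} (h : Cyc U E) {a b v : V}
    (hab : s(a, b) ∈ E) (hv : v ∉ U) :
    Cyc (insert v U) (insert s(a, v) (insert s(v, b) (E.erase s(a, b)))) := by
  obtain ⟨Q, hQn, hQm, hQe⟩ := h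
  obtain ⟨Q', h1, h2, _, h4, h5, h6⟩ := ce_rotate_to Q a b (hQe _ hab)
  have hQ' : Q' ≠ [] := by
    rintro rfl
    simp at h5
  have hhead : Q'.head hQ' = b := by
    have := List.head?_eq_some_head hQ'
    rw [h5] at this
    exact (Option.some.inj this).symm
  have hlast : Q'.getLast hQ' = a := by
    have := List.getLast?_eq_some_getLast hQ'
    rw [h6] at this
    exact (Option.some.inj this).symm
  have hce' : ce Q' = pe Q' ++ [s(a, b)] := by
    rw [ce_eq Q' hQ', hhead, hlast]
  have hne : Q' ++ [v] ≠ [] := by simp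
  have hce : ce (Q' ++ [v]) = (pe Q' ++ [s(a, v)]) ++ [s(v, b)] := by
    have e1 : (Q' ++ [v]).getLast hne = v := by simp
    have e2 : (Q' ++ [v]).head hne = b := by
      rw [List.head_append_of_ne_nil hQ']
      exact hhead
    rw [ce_eq _ hne, e1, e2, pe_append' Q' [v] hQ' (by simp), hlast]
    simp [pe]
  refine ⟨Q' ++ [v], ?_, ?_, ?_⟩
  · rw [List.nodup_append]
    refine ⟨h2 hQn, by simp, ?_⟩
    intro x hx y hy hxy
    rw [List.mem_singleton] at hy
    subst hy
    subst hxy
    exact hv ((hQm x).mp ((h1 x).mp hx))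
  · intro x
    rw [List.mem_append, List.mem_singleton, Finset.mem_insert, h1, hQm]
    tauto
  · intro e he
    rw [hce]
    simp only [List.mem_append, List.mem_singleton]
    rw [Finset.mem_insert, Finset.mem_insert, Finset.mem_erase] at he
    rcases he with he | he | ⟨he1, he2⟩
    · exact Or.inl (Or.inr he)
    · exact Or.inr he
    · have := (h4 e).mpr (hQe e he2)
      rw [hce', List.mem_append, List.mem_singleton] at this
      rcases this with h | h
      · exact Or.inl (Or.inl h)
      · exact absurd h he1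

end Pool.Agent.W_cd7020_h81
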