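import Pool.Agent.W_cd7020_h81.LFa

/-!
# Linear forests: joining an isolated vertex
-/

set_option autoImplicit false

namespace Pool.Agent.W_cd7020_h81

open Finset

variable {V : Type*} [DecidableEq V]

theorem JoinIso_split (l₁ l₂ : List V) (y : V) (e : Sym2 V) (he : e ∈ pe (l₁ ++ y :: l₂))
    (hy : y ∉ e) : e ∈ pe l₁ ∨ e ∈ pe l₂ := by
  have h0 : ∀ l : List V, e ∈ pe (y :: l) → e ∈ pe l := by
    intro l hl
    rcases l with _ | ⟨b, l⟩
    · exact hl
    · rw [pe_cons_cons, List.mem_cons] at hl
      rcases hl with rfl | hl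
      · exact absurd (Sym2.mem_mk_left y b) hy
      · exact hl
  induction l₁ with
  | nil =>
    right
    exact h0 l₂ he
  | cons a l₁ ih =>
    rcases l₁ with _ | ⟨b, l⟩
    · right
      rw [List.cons_append, List.nil_append, pe_cons_cons, List.mem_cons] at he
      rcases he with rfl | he
      · exact absurd (Sym2.mem_mk_right a y) hy
      · exact h0 l₂ he
    · rw [List.cons_append, List.cons_append, pe_cons_cons, List.mem_cons] at he
      rcases he with rfl | he
      · left
        rw [pe_cons_cons]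
        exact List.mem_cons_self
      · rcases ih he with h1 | h1
        · left
          rw [pe_cons_cons]
          exact List.mem_cons_of_mem _ h1
        · right
          exact h1

/-- the pair before or the pair after `x` is not in `E` -/
theorem JoinIso_side {E : Finset (Sym2 V)} {x : V} (m₁ m₂ : List V)
    (hnd : (m₁ ++ x :: m₂).Nodup) (hE : ∀ e ∈ E, e ∈ pe (m₁ ++ x :: m₂)) (hdx : dg E x ≤ 1) :
    (∀ e ∈ E, e ∈ pe m₁ ∨ e ∈ pe (x :: m₂)) ∨ (∀ e ∈ E, e ∈ pe (m₁ ++ [x]) ∨ e ∈ pe m₂) := by
  by_cases h₁ : m₁ = []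
  · left
    intro e he
    right
    have := hE e he
    rwa [h₁, List.nil_append] at this
  by_cases h₂ : m₂ = []
  · right
    intro e he
    left
    have := hE e he
    rwa [h₂] at this
  by_cases hA : s(m₁.getLast h₁, x) ∈ E
  · right
    intro e he
    have h3 := hE e he
    have h4 : m₁ ++ x :: m₂ = (m₁ ++ [x]) ++ m₂ := by simp
    rw [h4, pe_append' (m₁ ++ [x]) m₂ (by simp) h₂, List.mem_append, List.mem_cons,
      List.getLast_append_singleton] at h3
    rcases h3 with h3 | h3 | h3
    · exact Or.inl h3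
    · exfalso
      have hne : s(m₁.getLast h₁, x) ≠ e := by
        rw [h3]
        intro h5
        have hmem1 : m₁.getLast h₁ ∈ m₁ := List.getLast_mem h₁
        have hmem2 : m₂.head h₂ ∈ m₂ := List.head_mem h₂
        rw [List.nodup_append] at hnd
        rcases Sym2.eq_iff.1 h5 with ⟨h6, _⟩ | ⟨h6, _⟩
        · exact hnd.2.2 _ hmem1 _ List.mem_cons_self h6
        · exact hnd.2.2 _ hmem1 _ (List.mem_cons_of_mem _ hmem2) h6
      have hlt : 1 < dg E x := by
        unfold dg
        rw [Finset.one_lt_card]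
        refine ⟨_, Finset.mem_filter.2 ⟨hA, Sym2.mem_mk_right _ _⟩, e,
          Finset.mem_filter.2 ⟨he, ?_⟩, hne⟩
        rw [h3]
        exact Sym2.mem_mk_left _ _
      omega
    · exact Or.inr h3
  · left
    intro e he
    have h3 := hE e he
    rw [pe_append' m₁ (x :: m₂) h₁ (by simp), List.mem_append, List.mem_cons,
      List.head_cons] at h3
    rcases h3 with h3 | h3 | h3
    · exact Or.inl h3
    · rw [← h3] at hA
      exact absurd he hA
    · exact Or.inr h3

/-- Joining an isolated vertex `y` to an end `x`: `Q = l₁ ++ y :: l₂`, remove `y` (no edge of `E`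
contains `y`, so `E` is in `pe (l₁ ++ l₂)`), and insert `y` before or after `x` on the side where the
pair is not in `E` (or at the end of the list). -/
theorem LF.join_iso {U : Finset V} {E : Finset (Sym2 V)} (h : LF U E) {x y : V} (hx : x ∈ U)
    (hy : y ∈ U) (hxy : x ≠ y) (hdx : dg E x ≤ 1) (hdy : dg E y = 0) :
    LF U (insert s(x, y) E) := by
  obtain ⟨Q, hnd, hQ, hE⟩ := h
  have hyE : ∀ e ∈ E, y ∉ e := by
    intro e he hye
    unfold dg at hdy
    rw [Finset.card_eq_zero] at hdy
    have h1 : e ∈ E.filter (fun e => y ∈ e) := Finset.mem_filter.2 ⟨he, hye⟩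
    rw [hdy] at h1
    exact absurd h1 (Finset.notMem_empty e)
  obtain ⟨l₁, l₂, hl⟩ := List.append_of_mem ((hQ y).2 hy)
  have hER : ∀ e ∈ E, e ∈ pe (l₁ ++ l₂) := by
    intro e he
    have h1 := hE e he
    rw [hl] at h1
    rcases JoinIso_split l₁ l₂ y e h1 (hyE e he) with h2 | h2
    · exact mem_pe_left _ _ e h2
    · exact mem_pe_right _ _ e h2
  have hxR : x ∈ l₁ ++ l₂ := by
    have h1 := (hQ x).2 hx
    rw [hl, List.mem_append, List.mem_cons] at h1
    rw [List.mem_append]
    rcases h1 with h1 | h1 | h1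
    · exact Or.inl h1
    · exact absurd h1 hxy
    · exact Or.inr h1
  have hndR : (y :: (l₁ ++ l₂)).Nodup := by
    rw [← List.perm_middle.nodup_iff, ← hl]
    exact hnd
  obtain ⟨m₁, m₂, hm⟩ := List.append_of_mem hxR
  rw [hm] at hER hndR
  have hndR' := (List.nodup_cons.1 hndR).2
  have hperm : (m₁ ++ y :: x :: m₂).Perm Q := by
    rw [hl]
    refine List.perm_middle.trans ?_
    rw [← hm]
    exact List.perm_middle.symm
  have hperm' : (m₁ ++ x :: y :: m₂).Perm Q :=
    (List.Perm.append_left m₁ (List.Perm.swap y x m₂)).trans hperm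
  rcases JoinIso_side m₁ m₂ hndR' hER hdx with hs | hs
  · refine ⟨m₁ ++ y :: x :: m₂, hperm.nodup_iff.2 hnd, fun v => ?_, ?_⟩
    · rw [hperm.mem_iff]
      exact hQ v
    · intro e he
      rw [Finset.mem_insert] at he
      rcases he with rfl | he
      · exact (mem_pe _ _).2 ⟨m₁, y, x, m₂, rfl, Sym2.eq_swap⟩
      · rcases hs e he with h1 | h1
        · exact mem_pe_left _ _ e h1
        · have h2 : m₁ ++ y :: x :: m₂ = (m₁ ++ [y]) ++ (x :: m₂) := by simp
          rw [h2]
          exact mem_pe_right _ _ e h1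
  · refine ⟨m₁ ++ x :: y :: m₂, hperm'.nodup_iff.2 hnd, fun v => ?_, ?_⟩
    · rw [hperm'.mem_iff]
      exact hQ v
    · intro e he
      rw [Finset.mem_insert] at he
      rcases he with rfl | he
      · exact (mem_pe _ _).2 ⟨m₁, x, y, m₂, rfl, rfl⟩
      · rcases hs e he with h1 | h1
        · have h2 : m₁ ++ x :: y :: m₂ = (m₁ ++ [x]) ++ (y :: m₂) := by simp
          rw [h2]
          exact mem_pe_left _ _ e h1
        · have h2 : m₁ ++ x :: y :: m₂ = (m₁ ++ [x, y]) ++ m₂ := by simp
          rw [h2]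
          exact mem_pe_right _ _ e h1

end Pool.Agent.W_cd7020_h81
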