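import Pool.Agent.W_cd7020_h81.TriStep

/-!
# Many colours give many rainbow triangles with rare colours
-/

set_option autoImplicit false

namespace Pool.Agent.W_cd7020_h81

open Finset

variable {V κ : Type*} [DecidableEq V] [DecidableEq κ] [Fintype V]

/-- Adding one more triple keeps injectivity. -/
theorem Tri_inj {α : Type*} {m : ℕ} {f : Fin m → Fin 3 → α} {g : Fin 3 → α}
    (hf : Function.Injective (fun p : Fin m × Fin 3 => f p.1 p.2)) (hg : Function.Injective g)
    (hfg : ∀ i j j', g j ≠ f i j') :
    Function.Injective (fun p : Fin (m + 1) × Fin 3 =>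
      (Fin.cons g f : Fin (m + 1) → Fin 3 → α) p.1 p.2) := by
  rintro ⟨i, j⟩ ⟨i', j'⟩ h
  simp only at h
  induction i using Fin.cases with
  | zero =>
    induction i' using Fin.cases with
    | zero =>
      rw [Fin.cons_zero] at h
      rw [hg h]
    | succ i' =>
      rw [Fin.cons_zero, Fin.cons_succ] at h
      exact absurd h (hfg i' j j')
  | succ i =>
    induction i' using Fin.cases with
    | zero =>
      rw [Fin.cons_zero, Fin.cons_succ] at h
      exact absurd h.symm (hfg i j' j)
    | succ i' =>
      rw [Fin.cons_succ, Fin.cons_succ] at h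
      have h1 : (i, j) = (i', j') := hf h
      rw [Prod.mk.injEq] at h1
      rw [h1.1, h1.2]

theorem Tri_three {α : Type*} {g : Fin 3 → α} (h01 : g 0 ≠ g 1) (h02 : g 0 ≠ g 2)
    (h12 : g 1 ≠ g 2) : Function.Injective g := by
  intro i j h
  fin_cases i <;> fin_cases j
  · rfl
  · exact absurd h h01
  · exact absurd h h02
  · exact absurd h.symm h01
  · rfl
  · exact absurd h h12
  · exact absurd h.symm h02
  · exact absurd h.symm h12
  · rfl

/-- The greedy choice of `m` triangles: induction on `m` with `tri_step` (`|X| = |Y| = 3 m`). -/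
theorem tri_all (col : Sym2 V → κ) (hcol : Proper col) (l m : ℕ)
    (h : 6 * m * Fintype.card V + 3 * m + 3 * Fintype.card V < (rare col l).card) :
    ∃ t : Fin m → Fin 3 → V,
      Function.Injective (fun p : Fin m × Fin 3 => t p.1 p.2) ∧
      Function.Injective (fun p : Fin m × Fin 3 => col s(t p.1 p.2, t p.1 (p.2 + 1))) ∧
      ∀ i, col s(t i 0, t i 1) ∈ rare col l ∧ col s(t i 2, t i 0) ∈ rare col l := by
  induction m with
  | zero =>
    refine ⟨fun i => i.elim0, ?_, ?_, fun i => i.elim0⟩
    · rintro ⟨i, _⟩
      exact i.elim0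
    · rintro ⟨i, _⟩
      exact i.elim0
  | succ m ih =>
    obtain ⟨t, h1, h2, h3⟩ := ih (by
      refine lt_of_le_of_lt ?_ h
      have : 6 * m * Fintype.card V ≤ 6 * (m + 1) * Fintype.card V :=
        Nat.mul_le_mul_right _ (by omega)
      omega)
    set X : Finset V := Finset.univ.image (fun p : Fin m × Fin 3 => t p.1 p.2) with hX
    set Y : Finset κ := Finset.univ.image
      (fun p : Fin m × Fin 3 => col s(t p.1 p.2, t p.1 (p.2 + 1))) with hY
    have hXc : X.card ≤ 3 * m := by
      refine Finset.card_image_le.trans ?_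
      rw [Finset.card_univ, Fintype.card_prod, Fintype.card_fin, Fintype.card_fin, mul_comm]
    have hYc : Y.card ≤ 3 * m := by
      refine Finset.card_image_le.trans ?_
      rw [Finset.card_univ, Fintype.card_prod, Fintype.card_fin, Fintype.card_fin, mul_comm]
    have hb : X.card * Fintype.card V + Y.card + Fintype.card V * (Y.card + 3) <
        (rare col l).card := by
      refine lt_of_le_of_lt ?_ h
      calc X.card * Fintype.card V + Y.card + Fintype.card V * (Y.card + 3)
          ≤ 3 * m * Fintype.card V + 3 * m + Fintype.card V * (3 * m + 3) :=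
            Nat.add_le_add (Nat.add_le_add (Nat.mul_le_mul_right _ hXc) hYc)
              (Nat.mul_le_mul_left _ (Nat.add_le_add_right hYc 3))
        _ ≤ 6 * (m + 1) * Fintype.card V + 3 * (m + 1) + 3 * Fintype.card V := by
            nlinarith [Nat.zero_le (Fintype.card V)]
    obtain ⟨v, a, b, hv, ha, hbX, hva, hvb, hab, c1, c2, c3, r1, r2⟩ :=
      tri_step col hcol l X Y hb
    have hXmem : ∀ i j, t i j ∈ X := fun i j =>
      Finset.mem_image.2 ⟨(i, j), Finset.mem_univ _, rfl⟩
    have hYmem : ∀ i j, col s(t i j, t i (j + 1)) ∈ Y := fun i j =>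
      Finset.mem_image.2 ⟨(i, j), Finset.mem_univ _, rfl⟩
    have hgX : ∀ j : Fin 3, (![v, a, b] : Fin 3 → V) j ∉ X := by
      intro j
      fin_cases j
      · exact hv
      · exact ha
      · exact hbX
    have hgY : ∀ j : Fin 3, (![col s(v, a), col s(a, b), col s(b, v)] : Fin 3 → κ) j ∉ Y := by
      intro j
      fin_cases j
      · exact c1
      · exact c3
      · change col s(b, v) ∉ Y
        rw [Sym2.eq_swap]
        exact c2
    refine ⟨(Fin.cons ![v, a, b] t : Fin (m + 1) → Fin 3 → V), ?_, ?_, ?_⟩
    · refine Tri_inj h1 (Tri_three hva hvb hab) fun i j j' he => ?_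
      exact hgX j (by rw [he]; exact hXmem i j')
    · have e1 : (fun p : Fin (m + 1) × Fin 3 =>
          col s((Fin.cons ![v, a, b] t : Fin (m + 1) → Fin 3 → V) p.1 p.2,
            (Fin.cons ![v, a, b] t : Fin (m + 1) → Fin 3 → V) p.1 (p.2 + 1))) =
          fun p : Fin (m + 1) × Fin 3 =>
            (Fin.cons ![col s(v, a), col s(a, b), col s(b, v)]
              (fun i j => col s(t i j, t i (j + 1))) : Fin (m + 1) → Fin 3 → κ) p.1 p.2 := by
        funext p
        obtain ⟨i, j⟩ := p
        simp only
        induction i using Fin.cases with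
        | zero =>
          rw [Fin.cons_zero, Fin.cons_zero]
          fin_cases j
          · rfl
          · rfl
          · rfl
        | succ i =>
          rw [Fin.cons_succ, Fin.cons_succ]
      rw [e1]
      refine Tri_inj h2 (Tri_three ?_ ?_ ?_) fun i j j' he => ?_
      · change col s(v, a) ≠ col s(a, b)
        rw [Sym2.eq_swap]
        exact hcol a v b hva.symm hab hvb
      · change col s(v, a) ≠ col s(b, v)
        rw [Sym2.eq_swap (a := b)]
        exact hcol v a b hva hvb hab
      · change col s(a, b) ≠ col s(b, v)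
        rw [Sym2.eq_swap]
        exact hcol b a v hab.symm hvb.symm hva.symm
      · exact hgY j (by rw [he]; exact hYmem i j')
    · intro i
      induction i using Fin.cases with
      | zero =>
        rw [Fin.cons_zero]
        refine ⟨r1, ?_⟩
        change col s(b, v) ∈ rare col l
        rw [Sym2.eq_swap]
        exact r2
      | succ i =>
        rw [Fin.cons_succ]
        exact h3 i

end Pool.Agent.W_cd7020_h81
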