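import Pool.Agent.W_cd7020_h81.LFa

/-!
# From lists to walks
-/

set_option autoImplicit false

namespace Pool.Agent.W_cd7020_h81

open Finset

/-- A list without repetition is the support of a walk in the complete graph. Induction on `l`. -/
theorem list_walk {n : ℕ} (a : Fin n) (l : List (Fin n)) (h : (a :: l).Nodup) :
    ∃ (v : Fin n) (w : (⊤ : SimpleGraph (Fin n)).Walk a v), w.support = a :: l ∧
      w.edges = pe (a :: l) := by
  induction l generalizing a with
  | nil => exact ⟨a, SimpleGraph.Walk.nil, rfl, rfl⟩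
  | cons b l ih =>
    have h1 := List.nodup_cons.1 h
    obtain ⟨v, w, hs, he⟩ := ih b h1.2
    have hab : (⊤ : SimpleGraph (Fin n)).Adj a b := by
      rw [SimpleGraph.top_adj]
      rintro rfl
      exact h1.1 (by simp)
    refine ⟨v, SimpleGraph.Walk.cons hab w, ?_, ?_⟩
    · rw [SimpleGraph.Walk.support_cons, hs]
    · rw [SimpleGraph.Walk.edges_cons, he, pe_cons_cons]

/-- common part: the cyclic order, as a list with a first element -/
theorem Walk_list {n : ℕ} (E : Finset (Sym2 (Fin n)))
    (hE : Cyc univ E) (hn : E.card = n) (h3 : 3 ≤ n) :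
    ∃ (a : Fin n) (l : List (Fin n)), (a :: l).Nodup ∧ (∀ v, v ∈ a :: l) ∧
      (a :: l).length = n ∧ ∀ e ∈ ce (a :: l), e ∈ E := by
  obtain ⟨Q, hQ, hmem, hsub⟩ := hE
  have hlen : Q.length = n := by
    have h1 : Q.toFinset = univ := by
      ext v
      rw [List.mem_toFinset, hmem]
    rw [← List.toFinset_card_of_nodup hQ, h1, Finset.card_univ, Fintype.card_fin]
  have hQ0 : Q ≠ [] := by
    rintro rfl
    rw [List.length_nil] at hlen
    omega
  have hce : (ce Q).Nodup := ce_nodup Q hQ (by omega)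
  have hEQ : E = (ce Q).toFinset := by
    apply Finset.eq_of_subset_of_card_le
    · intro e he
      rw [List.mem_toFinset]
      exact hsub e he
    · rw [List.toFinset_card_of_nodup hce, ce_length, hlen, hn]
  obtain ⟨a, l, rfl⟩ := List.exists_cons_of_ne_nil hQ0
  refine ⟨a, l, hQ, fun v => (hmem v).2 (Finset.mem_univ v), hlen, fun e he => ?_⟩
  rw [hEQ, List.mem_toFinset]
  exact he

/-- A rainbow cyclic order of all vertices gives a rainbow Hamilton path in the sense of Mathlib:
`E ⊆ ce Q` and `|E| = n = |ce Q|`, so `E = (ce Q).toFinset`; the walk of `list_walk` for `Q` has edges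
`pe Q`, which are distinct (`pe_nodup`) elements of `E`. -/
theorem ham_path {n : ℕ} {κ : Type*} (col : Sym2 (Fin n) → κ) (E : Finset (Sym2 (Fin n)))
    (hE : Cyc univ E) (hn : E.card = n) (h3 : 3 ≤ n) (hR : Rb col E) :
    ∃ (u v : Fin n) (w : (⊤ : SimpleGraph (Fin n)).Walk u v),
      w.IsHamiltonian ∧ (w.edges.map col).Nodup := by
  obtain ⟨a, l, hQ, hmem, hlen, hsub⟩ := Walk_list E hE hn h3
  obtain ⟨v, w, hs, he⟩ := list_walk a l hQ
  refine ⟨a, v, w, fun x => ?_, ?_⟩
  · rw [hs]
    exact List.count_eq_one_of_mem hQ (hmem x)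
  · rw [he]
    refine List.Nodup.map_on (fun x hx y hy hxy => ?_) (pe_nodup _ hQ)
    exact hR x (hsub x (pe_sub_ce _ _ hx)) y (hsub y (pe_sub_ce _ _ hy)) hxy

/-- The closed version: add the edge from the last to the first vertex; the edges of the closed walk
are the elements of `ce Q` (`ce_eq`, `ce_nodup`). -/
theorem ham_cycle {n : ℕ} {κ : Type*} (col : Sym2 (Fin n) → κ) (E : Finset (Sym2 (Fin n)))
    (hE : Cyc univ E) (hn : E.card = n) (h3 : 3 ≤ n) (hR : Rb col E) :
    ∃ (u : Fin n) (w : (⊤ : SimpleGraph (Fin n)).Walk u u),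
      w.IsHamiltonianCycle ∧ (w.edges.map col).Nodup := by
  obtain ⟨a, l, hQ, hmem, hlen, hsub⟩ := Walk_list E hE hn h3
  obtain ⟨v, w, hs, he⟩ := list_walk a l hQ
  have hne : (a :: l) ≠ [] := List.cons_ne_nil _ _
  have hv : (a :: l).getLast hne = v := by
    have h1 := w.getLast_support
    simp only [hs] at h1
    exact h1
  have hl0 : l ≠ [] := by
    rintro rfl
    rw [List.length_singleton] at hlen
    omega
  have hva : v ≠ a := by
    rintro rfl
    rw [List.getLast_cons hl0] at hv
    exact (List.nodup_cons.1 hQ).1 (hv ▸ List.getLast_mem hl0)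
  have hadj : (⊤ : SimpleGraph (Fin n)).Adj v a := by
    rw [SimpleGraph.top_adj]
    exact hva
  have hce : ce (a :: l) = pe (a :: l) ++ [s(v, a)] := by
    rw [ce_eq _ hne, hv]
    rfl
  have hnd : (ce (a :: l)).Nodup := ce_nodup _ hQ (by omega)
  have hnot : s(v, a) ∉ pe (a :: l) := by
    rw [hce, List.nodup_append] at hnd
    intro h1
    exact hnd.2.2 _ h1 _ (List.mem_singleton_self _) rfl
  refine ⟨v, SimpleGraph.Walk.cons hadj w, ?_, ?_⟩
  · rw [SimpleGraph.Walk.isHamiltonianCycle_iff_isCycle_and_support_count_tail_eq_one]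
    refine ⟨?_, fun x => ?_⟩
    · rw [SimpleGraph.Walk.cons_isCycle_iff]
      refine ⟨SimpleGraph.Walk.IsPath.mk' (by rw [hs]; exact hQ), ?_⟩
      rw [he]
      exact hnot
    · rw [SimpleGraph.Walk.support_cons, List.tail_cons, hs]
      exact List.count_eq_one_of_mem hQ (hmem x)
  · rw [SimpleGraph.Walk.edges_cons, he]
    refine List.Nodup.map_on (fun x hx y hy hxy => ?_)
      (List.nodup_cons.2 ⟨hnot, pe_nodup _ hQ⟩)
    have hin : ∀ z ∈ s(v, a) :: pe (a :: l), z ∈ E := by
      intro z hz
      apply hsub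
      rw [hce, List.mem_append]
      rcases List.mem_cons.1 hz with h1 | h1
      · right
        rw [h1]
        exact List.mem_singleton_self _
      · exact Or.inl h1
    exact hR x (hin x hx) y (hin y hy) hxy

end Pool.Agent.W_cd7020_h81
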