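import Pool.Agent.W_cd7020_h81.Core
import Pool.Agent.W_cd7020_h81.Walk
import Pool.Agent.W_cd7020_h81.Tri

/-!
# The main theorems
-/

set_option autoImplicit false

namespace Pool.Agent.W_cd7020_h81

open Finset

/-- The core theorem for an arbitrary type of colours: replace `κ` by the finite type of the colours
which occur. -/
theorem core' {V κ : Type*} [DecidableEq V] [DecidableEq κ] [Fintype V] (col : Sym2 V → κ)
    (hcol : Proper col) (m L : ℕ) (t : Fin m → Fin 3 → V)
    (ht : Function.Injective (fun p : Fin m × Fin 3 => t p.1 p.2))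
    (hc : Function.Injective (fun p : Fin m × Fin 3 => col s(t p.1 p.2, t p.1 (p.2 + 1))))
    (hL : 1 ≤ L) (hn : Fintype.card V ≤ 2 ^ L)
    (hm : 10 ^ 16 * L ^ 2 * Fintype.card V ≤ m ^ 2) (hmn : 1000 * m ≤ Fintype.card V)
    (hm1 : 1 ≤ m)
    (hSat : (univ.filter (fun x => m < 100 * (univ.filter (fun w => w ≠ x ∧
      col s(x, w) ∈ spec col m t)).card)).card * m ≤ L * Fintype.card V) :
    ∃ E : Finset (Sym2 V), Cyc univ E ∧ E.card = Fintype.card V ∧ Rb col E := by
  classical
  let κ' := {k // k ∈ (univ : Finset (Sym2 V)).image col}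
  let col' : Sym2 V → κ' := fun e => ⟨col e, mem_image_of_mem col (mem_univ e)⟩
  have hiff : ∀ e e' : Sym2 V, col' e = col' e' ↔ col e = col e' := fun e e' => Subtype.ext_iff
  have hspec : ∀ e : Sym2 V, col' e ∈ spec col' m t ↔ col e ∈ spec col m t := by
    intro e
    simp only [spec, mem_union, mem_image, mem_univ, true_and, hiff]
  have hcol' : Proper col' := fun x y z h1 h2 h3 h => hcol x y z h1 h2 h3 ((hiff _ _).1 h)
  have hc' : Function.Injective
      (fun p : Fin m × Fin 3 => col' s(t p.1 p.2, t p.1 (p.2 + 1))) :=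
    fun p q h => hc ((hiff _ _).1 h)
  obtain ⟨E, h1, h2, h3⟩ := core col' hcol' m L t ht hc' hL hn hm hmn hm1 (by
    simpa only [hspec] using hSat)
  exact ⟨E, h1, h2, fun e he e' he' h => h3 e he e' he' ((hiff _ _).2 h)⟩

/-- Many colours, in terms of natural numbers. -/
theorem many_nat {V κ : Type*} [DecidableEq V] [DecidableEq κ] [Fintype V] (col : Sym2 V → κ)
    (hcol : Proper col) (h2 : 2 ≤ Fintype.card V) (L m : ℕ) (hL : L = Nat.clog 2 (Fintype.card V))
    (hm : m = 10 ^ 8 * L * (Nat.sqrt (Fintype.card V) + 1))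
    (hq : 2000 * m * Fintype.card V ≤ numC col) :
    ∃ E : Finset (Sym2 V), Cyc univ E ∧ E.card = Fintype.card V ∧ Rb col E := by
  classical
  set n := Fintype.card V with hn
  have hL1 : 1 ≤ L := by
    rw [hL]
    exact Nat.clog_pos (by norm_num) h2
  have hnL : n ≤ 2 ^ L := by
    rw [hL]
    exact Nat.le_pow_clog (by norm_num) n
  have hm1 : 1 ≤ m := by
    have h0 : 0 < L := hL1
    have h1 : 0 < 10 ^ 8 * L * (Nat.sqrt n + 1) := by positivity
    omega
  have hq2 := numC_le col
  rw [← hn] at hq2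
  have h4000 : 4000 * m ≤ n := by
    have : 4000 * m * n ≤ n * n := by nlinarith
    exact Nat.le_of_mul_le_mul_right this (by omega)
  have hsq : n < (Nat.sqrt n + 1) * (Nat.sqrt n + 1) := Nat.lt_succ_sqrt n
  have hmm : 10 ^ 16 * L ^ 2 * n ≤ m ^ 2 := by
    rw [hm]
    calc 10 ^ 16 * L ^ 2 * n ≤ 10 ^ 16 * L ^ 2 * ((Nat.sqrt n + 1) * (Nat.sqrt n + 1)) :=
          Nat.mul_le_mul_left _ hsq.le
      _ = (10 ^ 8 * L * (Nat.sqrt n + 1)) ^ 2 := by ring
  set l := n / (400 * m) with hl
  have hl1 : n < 400 * m * (l + 1) := by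
    rw [hl]
    exact Nat.lt_mul_div_succ n (by positivity)
  have hl2 : 400 * m * l ≤ n := Nat.mul_div_le n (400 * m)
  have hr := rare_card col l
  have hrare : 6 * m * n + 3 * m + 3 * n < (rare col l).card := by
    have h1 : 2 * numC col * (l + 1) ≤ 2 * (rare col l).card * (l + 1) + n ^ 2 := hr
    have h3 : n ^ 2 ≤ 400 * m * n * (l + 1) := by nlinarith
    have h4 : 2 * numC col * (l + 1) ≤ (2 * (rare col l).card + 400 * m * n) * (l + 1) := by
      calc 2 * numC col * (l + 1) ≤ 2 * (rare col l).card * (l + 1) + n ^ 2 := h1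
        _ ≤ 2 * (rare col l).card * (l + 1) + 400 * m * n * (l + 1) := Nat.add_le_add_left h3 _
        _ = _ := by ring
    have h5 : 2 * numC col ≤ 2 * (rare col l).card + 400 * m * n :=
      Nat.le_of_mul_le_mul_right h4 (Nat.succ_pos l)
    have h6 : 2000 * (m * n) ≤ numC col := by
      calc 2000 * (m * n) = 2000 * m * n := by ring
        _ ≤ _ := hq
    have h7 : 2 * numC col ≤ 2 * (rare col l).card + 400 * (m * n) := by
      calc _ ≤ _ := h5
        _ = _ := by ring
    have h8 : m ≤ m * n := Nat.le_mul_of_pos_right m (by omega)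
    have h9 : n ≤ m * n := Nat.le_mul_of_pos_left n (by omega)
    have h10 : 6 * m * n = 6 * (m * n) := by ring
    rw [h10]
    have h11 : 1 ≤ m * n := Nat.mul_pos (by omega) (by omega)
    omega
  obtain ⟨t, ht, hc, htr⟩ := tri_all col hcol l m (by rw [← hn]; exact hrare)
  refine core' col hcol m L t ht hc hL1 hnL hmm (by omega) hm1 ?_
  have hG : spec col m t ⊆ rare col l := by
    intro k hk
    rw [spec, mem_union, mem_image, mem_image] at hk
    rcases hk with ⟨i, -, rfl⟩ | ⟨i, -, rfl⟩
    · exact (htr i).1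
    · exact (htr i).2
  have hs := sat_card col l (m / 100) (spec col m t) hG
  have hGc : (spec col m t).card ≤ 2 * m := by
    rw [spec]
    refine (card_union_le _ _).trans ?_
    have h1 := card_image_le (s := (univ : Finset (Fin m))) (f := fun i => col s(t i 0, t i 1))
    have h2 := card_image_le (s := (univ : Finset (Fin m))) (f := fun i => col s(t i 2, t i 0))
    rw [card_univ, Fintype.card_fin] at h1 h2
    omega
  have heq : (univ.filter (fun x => m < 100 * (univ.filter (fun w => w ≠ x ∧
      col s(x, w) ∈ spec col m t)).card)) = (univ.filter (fun x => m / 100 <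
        (univ.filter (fun w => w ≠ x ∧ col s(x, w) ∈ spec col m t)).card)) := by
    refine filter_congr fun x _ => ?_
    omega
  rw [heq]
  set σ := (univ.filter (fun x => m / 100 <
        (univ.filter (fun w => w ≠ x ∧ col s(x, w) ∈ spec col m t)).card)).card
  have h1 : m ≤ 100 * (m / 100 + 1) := by omega
  calc σ * m ≤ σ * (100 * (m / 100 + 1)) := Nat.mul_le_mul_left _ h1
    _ = 100 * (σ * (m / 100 + 1)) := by ring
    _ ≤ 100 * (2 * l * (spec col m t).card) := Nat.mul_le_mul_left _ hs
    _ ≤ 100 * (2 * l * (2 * m)) := by gcongr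
    _ = 400 * m * l := by ring
    _ ≤ n := hl2
    _ ≤ L * n := Nat.le_mul_of_pos_left n (by omega)

end Pool.Agent.W_cd7020_h81
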