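import Pool.Agent.W_cd7020_h81.Defs

/-!
# Consecutive pairs of a list
-/

set_option autoImplicit false

namespace Pool.Agent.W_cd7020_h81

open Finset

variable {V : Type*} [DecidableEq V]

theorem pe_cons_cons (a b : V) (l : List V) : pe (a :: b :: l) = s(a, b) :: pe (b :: l) := rfl

/-- Induction on `l₁`. -/
theorem pe_append (l₁ l₂ : List V) (a b : V) :
    pe (l₁ ++ a :: b :: l₂) = pe (l₁ ++ [a]) ++ s(a, b) :: pe (b :: l₂) := by
  induction l₁ with
  | nil => rfl
  | cons x l ih =>
    cases l with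
    | nil => rfl
    | cons y l =>
      change s(x, y) :: pe (y :: l ++ a :: b :: l₂) = s(x, y) :: pe (y :: l ++ [a]) ++ _
      rw [ih]
      rfl

/-- The same with two nonempty lists. -/
theorem pe_append' (l₁ l₂ : List V) (h₁ : l₁ ≠ []) (h₂ : l₂ ≠ []) :
    pe (l₁ ++ l₂) = pe l₁ ++ s(l₁.getLast h₁, l₂.head h₂) :: pe l₂ := by
  obtain ⟨b, m, rfl⟩ := List.exists_cons_of_ne_nil h₂
  obtain ⟨L, a, rfl⟩ : ∃ L a, l₁ = L ++ [a] :=
    ⟨l₁.dropLast, l₁.getLast h₁, (List.dropLast_append_getLast h₁).symm⟩
  rw [List.append_assoc]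
  change pe (L ++ a :: b :: m) = _
  rw [pe_append]
  simp

/-- Induction on `l`. -/
theorem pe_length (l : List V) : (pe l).length = l.length - 1 := by
  induction l with
  | nil => rfl
  | cons x l ih =>
    cases l with
    | nil => rfl
    | cons y l =>
      rw [pe_cons_cons, List.length_cons, ih]
      simp

/-- From `pe_append`, induction on `l` (`s(a, b) = s(b, a)`). -/
theorem mem_pe_reverse (l : List V) (e : Sym2 V) : e ∈ pe l.reverse ↔ e ∈ pe l := by
  induction l with
  | nil => rfl
  | cons x l ih =>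
    cases l with
    | nil => rfl
    | cons y l =>
      have h1 : (x :: y :: l).reverse = l.reverse ++ y :: x :: [] := by simp
      have h2 : (y :: l).reverse = l.reverse ++ [y] := by simp
      rw [h1, pe_append, ← h2, List.mem_append, ih, pe_cons_cons, List.mem_cons, List.mem_cons,
        Sym2.eq_swap (a := y) (b := x)]
      change _ ∨ (_ ∨ e ∈ []) ↔ _
      simp only [List.not_mem_nil, or_false]
      exact or_comm

/-- Characterization of the consecutive pairs. -/
theorem mem_pe (l : List V) (e : Sym2 V) :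
    e ∈ pe l ↔ ∃ l₁ a b l₂, l = l₁ ++ a :: b :: l₂ ∧ e = s(a, b) := by
  constructor
  · induction l with
    | nil =>
      intro h
      exact absurd h List.not_mem_nil
    | cons x l ih =>
      cases l with
      | nil =>
        intro h
        exact absurd h List.not_mem_nil
      | cons y l =>
        intro h
        rw [pe_cons_cons, List.mem_cons] at h
        rcases h with h | h
        · exact ⟨[], x, y, l, rfl, h⟩
        · obtain ⟨l₁, a, b, l₂, h1, h2⟩ := ih h
          exact ⟨x :: l₁, a, b, l₂, by rw [h1]; rfl, h2⟩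
  · rintro ⟨l₁, a, b, l₂, rfl, rfl⟩
    rw [pe_append]
    simp

/-- Consecutive pairs in terms of positions. -/
theorem mem_pe_iff (l : List V) (e : Sym2 V) :
    e ∈ pe l ↔ ∃ i, ∃ h : i + 1 < l.length, e = s(l[i], l[i + 1]) := by
  rw [mem_pe]
  constructor
  · rintro ⟨l₁, a, b, l₂, rfl, rfl⟩
    refine ⟨l₁.length, by simp, ?_⟩
    simp
  · rintro ⟨i, h, rfl⟩
    refine ⟨l.take i, l[i], l[i + 1], l.drop (i + 2), ?_, rfl⟩
    rw [← List.drop_eq_getElem_cons h, ← List.drop_eq_getElem_cons (by omega),
      List.take_append_drop]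

theorem Pe_mem (l : List V) (e : Sym2 V) (he : e ∈ pe l) (v : V) (hv : v ∈ e) : v ∈ l := by
  obtain ⟨l₁, a, b, l₂, rfl, rfl⟩ := (mem_pe l e).1 he
  rcases Sym2.mem_iff.1 hv with rfl | rfl <;> simp

theorem pe_ne (l : List V) (hl : l.Nodup) (e : Sym2 V) (he : e ∈ pe l) :
    ∃ a b, a ≠ b ∧ a ∈ l ∧ b ∈ l ∧ e = s(a, b) := by
  obtain ⟨l₁, a, b, l₂, rfl, rfl⟩ := (mem_pe l e).1 he
  refine ⟨a, b, ?_, by simp, by simp, rfl⟩
  rintro rfl
  have h1 := (List.nodup_append.1 hl).2.1
  simp at h1

/-- The consecutive pairs of a list without repetition are distinct (for `a :: b :: l` the pair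
`s(a, b)` contains `a`, the others do not). -/
theorem pe_nodup (l : List V) (hl : l.Nodup) : (pe l).Nodup := by
  induction l with
  | nil => exact List.nodup_nil
  | cons x l ih =>
    cases l with
    | nil => exact List.nodup_nil
    | cons y l =>
      rw [pe_cons_cons, List.nodup_cons]
      rw [List.nodup_cons] at hl
      refine ⟨fun h => hl.1 ?_, ih hl.2⟩
      exact Pe_mem (y :: l) _ h x (Sym2.mem_mk_left x y)

/-- Sublists: `pe l₁ ⊆ pe (l₁ ++ l₂)` and `pe l₂ ⊆ pe (l₁ ++ l₂)`. -/
theorem mem_pe_left (l₁ l₂ : List V) (e : Sym2 V) (he : e ∈ pe l₁) : e ∈ pe (l₁ ++ l₂) := by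
  obtain ⟨x, a, b, y, rfl, rfl⟩ := (mem_pe l₁ e).1 he
  exact (mem_pe _ _).2 ⟨x, a, b, y ++ l₂, by simp, rfl⟩

theorem mem_pe_right (l₁ l₂ : List V) (e : Sym2 V) (he : e ∈ pe l₂) : e ∈ pe (l₁ ++ l₂) := by
  obtain ⟨x, a, b, y, rfl, rfl⟩ := (mem_pe l₂ e).1 he
  exact (mem_pe _ _).2 ⟨l₁ ++ x, a, b, y, by simp, rfl⟩

/-- Every vertex is in at most two consecutive pairs of a list without repetition
(`l = l₁ ++ v :: l₂`, no pair of `pe l₁` or `pe l₂` contains `v`). -/
theorem pe_deg (l : List V) (hl : l.Nodup) (v : V) :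
    ((pe l).toFinset.filter (fun e => v ∈ e)).card ≤ 2 := by
  by_cases hv : v ∈ l
  · obtain ⟨j, hj, hjv⟩ := List.getElem_of_mem hv
    have hsub : (pe l).toFinset.filter (fun e => v ∈ e) ⊆
        {s(v, l.getD (j + 1) v), s(l.getD (j - 1) v, v)} := by
      intro e he
      rw [Finset.mem_filter, List.mem_toFinset, mem_pe_iff] at he
      obtain ⟨⟨i, h, rfl⟩, hve⟩ := he
      rw [Finset.mem_insert, Finset.mem_singleton]
      rcases Sym2.mem_iff.1 hve with h1 | h1
      · left
        have h2 : j = i := (hl.getElem_inj_iff).1 (hjv.trans h1)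
        subst h2
        rw [← h1]
        congr 1
        rw [List.getD_eq_getElem _ _ h]
      · right
        have h2 : j = i + 1 := (hl.getElem_inj_iff).1 (hjv.trans h1)
        subst h2
        rw [← h1]
        congr 1
        rw [Nat.add_sub_cancel, List.getD_eq_getElem _ _ (by omega)]
    exact (Finset.card_le_card hsub).trans Finset.card_le_two
  · have hemp : (pe l).toFinset.filter (fun e => v ∈ e) = ∅ := by
      rw [Finset.filter_eq_empty_iff]
      intro e he hve
      exact hv (Pe_mem l e (List.mem_toFinset.1 he) v hve)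
    rw [hemp, Finset.card_empty]
    exact Nat.zero_le _

/-- Consecutive pairs are cyclically consecutive. -/
theorem pe_sub_ce (l : List V) (e : Sym2 V) (he : e ∈ pe l) : e ∈ ce l := mem_pe_left _ _ _ he

/-- `ce` of a nonempty list. -/
theorem ce_eq (l : List V) (hl : l ≠ []) :
    ce l = pe l ++ [s(l.getLast hl, l.head hl)] := by
  obtain ⟨a, m, rfl⟩ := List.exists_cons_of_ne_nil hl
  have h1 : ce (a :: m) = pe (a :: m ++ [a]) := rfl
  rw [h1, pe_append' (a :: m) [a] hl (by simp)]
  rfl

theorem ce_length (l : List V) : (ce l).length = l.length := by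
  by_cases h : l = []
  · subst h
    rfl
  · have h1 : 0 < l.length := List.length_pos_iff.2 h
    rw [ce_eq l h, List.length_append, pe_length, List.length_singleton]
    omega

/-- For at least three vertices the cyclic pairs are distinct (`s(last, head)` is not a consecutive
pair). -/
theorem ce_nodup (l : List V) (hl : l.Nodup) (h3 : 3 ≤ l.length) : (ce l).Nodup := by
  have hne : l ≠ [] := by
    rintro rfl
    simp at h3
  rw [ce_eq l hne, List.nodup_append]
  refine ⟨pe_nodup l hl, List.nodup_singleton _, ?_⟩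
  intro e he e' he' hee
  rw [List.mem_singleton] at he'
  subst he'
  subst hee
  rw [mem_pe_iff] at he
  obtain ⟨i, h, hi⟩ := he
  rw [List.getLast_eq_getElem, List.head_eq_getElem, Sym2.eq_iff] at hi
  rcases hi with ⟨h1, h2⟩ | ⟨h1, h2⟩
  · have h4 := (hl.getElem_inj_iff).1 h1
    omega
  · have h4 := (hl.getElem_inj_iff).1 h1
    have h5 := (hl.getElem_inj_iff).1 h2
    omega

/-- The cyclic pairs do not change when the list is rotated by one (as a set). -/
theorem mem_ce_rotate (a : V) (l : List V) (e : Sym2 V) :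
    e ∈ ce (l ++ [a]) ↔ e ∈ ce (a :: l) := by
  cases l with
  | nil => rfl
  | cons b m =>
    have h1 : (b :: m : List V) ≠ [] := by simp
    rw [ce_eq (b :: m ++ [a]) (by simp), ce_eq (a :: b :: m) (by simp),
      pe_append' (b :: m) [a] h1 (by simp), pe_cons_cons]
    have h2 : pe [a] = [] := rfl
    rw [h2]
    simp only [List.mem_append, List.mem_cons, List.not_mem_nil, or_false, List.head_cons,
      List.getLast_append_singleton, List.cons_append, List.getLast_cons_cons]
    rw [List.getLast_cons (by simp : (m ++ [a] : List V) ≠ []), List.getLast_append_singleton]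
    tauto

end Pool.Agent.W_cd7020_h81
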