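import Pool.Agent.W_cd7020_h81.Defs

/-!
# Rare colours
-/

set_option autoImplicit false

namespace Pool.Agent.W_cd7020_h81

open Finset

variable {V κ : Type*} [DecidableEq V] [DecidableEq κ] [Fintype V]

/-- The non-loops. -/
def edg (V : Type*) [DecidableEq V] [Fintype V] : Finset (Sym2 V) :=
  univ.filter (fun e => ¬ e.IsDiag)

/-- The number of edges of colour `k`. -/
def cls (col : Sym2 V → κ) (k : κ) : ℕ := ((edg V).filter (fun e => col e = k)).card

/-- The colours on at most `l` edges. -/
def rare (col : Sym2 V → κ) (l : ℕ) : Finset κ :=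
  ((edg V).image col).filter (fun k => cls col k ≤ l)

theorem RareC_edg (V : Type*) [DecidableEq V] [Fintype V] :
    2 * (edg V).card ≤ Fintype.card V ^ 2 := by
  have h1 : (edg V).card = (Fintype.card V).choose 2 := by
    unfold edg
    rw [← Sym2.card_subtype_not_diag, Fintype.card_subtype]
  rw [h1, Nat.choose_two_right]
  have h2 := Nat.div_mul_le_self (Fintype.card V * (Fintype.card V - 1)) 2
  have h3 : Fintype.card V * (Fintype.card V - 1) ≤ Fintype.card V ^ 2 := by
    rw [pow_two]
    exact Nat.mul_le_mul_left _ (Nat.sub_le _ _)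
  omega

/-- The colours which are not rare have more than `l` edges each, and there are at most `n ^ 2 / 2`
edges. -/
theorem rare_card (col : Sym2 V → κ) (l : ℕ) :
    2 * ((edg V).image col).card * (l + 1) ≤
      2 * (rare col l).card * (l + 1) + Fintype.card V ^ 2 := by
  have h0 := RareC_edg V
  have h1 : ((edg V).image col).card = (rare col l).card +
      (((edg V).image col).filter (fun k => ¬ cls col k ≤ l)).card := by
    unfold rare
    exact (Finset.card_filter_add_card_filter_not _).symm
  have h2 : (((edg V).image col).filter (fun k => ¬ cls col k ≤ l)).card * (l + 1) ≤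
      (edg V).card := by
    calc (((edg V).image col).filter (fun k => ¬ cls col k ≤ l)).card * (l + 1)
        = ∑ k ∈ ((edg V).image col).filter (fun k => ¬ cls col k ≤ l), (l + 1) := by
          rw [Finset.sum_const, smul_eq_mul]
      _ ≤ ∑ k ∈ ((edg V).image col).filter (fun k => ¬ cls col k ≤ l), cls col k := by
          refine Finset.sum_le_sum fun k hk => ?_
          have := (Finset.mem_filter.1 hk).2
          omega
      _ ≤ ∑ k ∈ (edg V).image col, cls col k :=
          Finset.sum_le_sum_of_subset (Finset.filter_subset _ _)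
      _ = (edg V).card := by
          rw [Finset.card_eq_sum_card_image col (edg V)]
          rfl
  rw [h1]
  calc 2 * ((rare col l).card +
        (((edg V).image col).filter (fun k => ¬ cls col k ≤ l)).card) * (l + 1)
      = 2 * (rare col l).card * (l + 1) +
        2 * ((((edg V).image col).filter (fun k => ¬ cls col k ≤ l)).card * (l + 1)) := by ring
    _ ≤ 2 * (rare col l).card * (l + 1) + 2 * (edg V).card := by
        gcongr
    _ ≤ _ := by gcongr

/-- Double counting: a set `G` of rare colours is seen often by few vertices only. Every colour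
`k ∈ G` is on at most `l` edges, so at `2 l` vertices:
`∑ x, #{w ≠ x | col s(x, w) ∈ G} ≤ 2 l |G|`. -/
theorem sat_card (col : Sym2 V → κ) (l q : ℕ) (G : Finset κ) (hG : G ⊆ rare col l) :
    (univ.filter (fun x => q < (univ.filter (fun w => w ≠ x ∧ col s(x, w) ∈ G)).card)).card *
      (q + 1) ≤ 2 * l * G.card := by
  classical
  set f : V → ℕ := fun x => (univ.filter (fun w => w ≠ x ∧ col s(x, w) ∈ G)).card with hf
  set S : Finset (V × V) := univ.filter (fun z => z.2 ≠ z.1 ∧ col s(z.1, z.2) ∈ G) with hS
  have h1 : (univ.filter (fun x => q < f x)).card * (q + 1) ≤ ∑ x, f x := by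
    calc (univ.filter (fun x => q < f x)).card * (q + 1)
        = ∑ x ∈ univ.filter (fun x => q < f x), (q + 1) := by
          rw [Finset.sum_const, smul_eq_mul]
      _ ≤ ∑ x ∈ univ.filter (fun x => q < f x), f x := by
          refine Finset.sum_le_sum fun x hx => ?_
          exact (Finset.mem_filter.1 hx).2
      _ ≤ ∑ x, f x := Finset.sum_le_sum_of_subset (Finset.filter_subset _ _)
  have h2 : ∑ x, f x = S.card := by
    rw [hS, Finset.card_filter, Fintype.sum_prod_type]
    refine Finset.sum_congr rfl fun x _ => ?_
    rw [hf]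
    exact Finset.card_filter _ _
  have h3 : S.card ≤ 2 * (S.image (fun z => s(z.1, z.2))).card := by
    refine Finset.card_le_mul_card_image S 2 fun e _ => ?_
    induction e using Sym2.ind with
    | _ u v =>
      have h4 : S.filter (fun z => s(z.1, z.2) = s(u, v)) ⊆ {(u, v), (v, u)} := by
        rintro ⟨x, w⟩ hz
        have h5 := (Finset.mem_filter.1 hz).2
        rw [Sym2.eq_iff] at h5
        rw [Finset.mem_insert, Finset.mem_singleton]
        rcases h5 with ⟨h6, h7⟩ | ⟨h6, h7⟩
        · left
          exact Prod.ext h6 h7
        · right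
          exact Prod.ext h6 h7
      exact (Finset.card_le_card h4).trans Finset.card_le_two
  have h4 : (S.image (fun z => s(z.1, z.2))).card ≤ ∑ k ∈ G, cls col k := by
    have h5 : S.image (fun z => s(z.1, z.2)) ⊆
        G.biUnion (fun k => (edg V).filter (fun e => col e = k)) := by
      intro e he
      obtain ⟨z, hz, rfl⟩ := Finset.mem_image.1 he
      have h6 := (Finset.mem_filter.1 hz).2
      rw [Finset.mem_biUnion]
      refine ⟨_, h6.2, ?_⟩
      rw [Finset.mem_filter]
      refine ⟨?_, rfl⟩
      unfold edg
      rw [Finset.mem_filter]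
      refine ⟨Finset.mem_univ _, ?_⟩
      rw [Sym2.mk_isDiag_iff]
      exact fun h => h6.1 h.symm
    exact (Finset.card_le_card h5).trans Finset.card_biUnion_le
  have h5 : ∑ k ∈ G, cls col k ≤ l * G.card := by
    calc ∑ k ∈ G, cls col k ≤ ∑ _k ∈ G, l :=
          Finset.sum_le_sum fun k hk => (Finset.mem_filter.1 (hG hk)).2
      _ = l * G.card := by rw [Finset.sum_const, smul_eq_mul, mul_comm]
  calc _ ≤ ∑ x, f x := h1
    _ = S.card := h2
    _ ≤ 2 * (S.image (fun z => s(z.1, z.2))).card := h3
    _ ≤ 2 * (l * G.card) := by
        gcongr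
        exact h4.trans h5
    _ = 2 * l * G.card := by ring

/-- The number of colours of the edges of the complete graph. -/
def numC (col : Sym2 V → κ) : ℕ := ((edg V).image col).card

/-- There are `n (n - 1) / 2` edges. -/
theorem numC_le (col : Sym2 V → κ) : 2 * numC col ≤ Fintype.card V ^ 2 := by
  have h1 : numC col ≤ (edg V).card := Finset.card_image_le
  have h2 := RareC_edg V
  omega

end Pool.Agent.W_cd7020_h81
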