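import Pool.Agent.W_cd7020_h81.Four

/-!
# Cutting a Hamilton path at three places and closing it to a Hamilton cycle
-/

set_option autoImplicit false

namespace Pool.Agent.W_cd7020_h81

open Finset

variable {V : Type*} [DecidableEq V]

/-- The six sets of four new edges for the cuts before positions `p < q < r`. -/
def newE (x : ℕ → V) (N p q r : ℕ) : Fin 6 → Finset (Sym2 V)
  | 0 => {s(x p, x r), s(x (N - 1), x (r - 1)), s(x q, x 0), s(x (p - 1), x (q - 1))}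
  | 1 => {s(x 0, x p), s(x (q - 1), x r), s(x (N - 1), x (r - 1)), s(x q, x (p - 1))}
  | 2 => {s(x 0, x p), s(x (q - 1), x (N - 1)), s(x r, x q), s(x (r - 1), x (p - 1))}
  | 3 => {s(x q, x (N - 1)), s(x r, x 0), s(x (p - 1), x (q - 1)), s(x p, x (r - 1))}
  | 4 => {s(x q, x (p - 1)), s(x 0, x r), s(x (N - 1), x p), s(x (q - 1), x (r - 1))}
  | 5 => {s(x p, x (N - 1)), s(x r, x (p - 1)), s(x 0, x q), s(x (r - 1), x (q - 1))}

theorem Surg_gen {Q X₁ X₂ X₃ X₄ Y₁ Y₂ Y₃ Y₄ : List V} (h₁ : X₁ ≠ []) (h₂ : X₂ ≠ []) (h₃ : X₃ ≠ [])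
    (h₄ : X₄ ≠ []) (k₁ : Y₁ ≠ []) (k₂ : Y₂ ≠ []) (k₃ : Y₃ ≠ []) (k₄ : Y₄ ≠ [])
    (hQ : Q = X₁ ++ X₂ ++ X₃ ++ X₄) (hnd : Q.Nodup)
    (hperm : (Y₁ ++ Y₂ ++ Y₃ ++ Y₄).Perm (X₁ ++ X₂ ++ X₃ ++ X₄))
    (hpe : ∀ e : Sym2 V, (e ∈ pe X₁ ∨ e ∈ pe X₂ ∨ e ∈ pe X₃ ∨ e ∈ pe X₄) →
      (e ∈ pe Y₁ ∨ e ∈ pe Y₂ ∨ e ∈ pe Y₃ ∨ e ∈ pe Y₄))
    {E4 : Finset (Sym2 V)}
    (hE : ∀ e ∈ E4, e = s(Y₁.getLast k₁, Y₂.head k₂) ∨ e = s(Y₂.getLast k₂, Y₃.head k₃) ∨
      e = s(Y₃.getLast k₃, Y₄.head k₄) ∨ e = s(Y₄.getLast k₄, Y₁.head k₁))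
    {f₁ f₂ f₃ : Sym2 V} (hf₁ : f₁ = s(X₁.getLast h₁, X₂.head h₂))
    (hf₂ : f₂ = s(X₂.getLast h₂, X₃.head h₃)) (hf₃ : f₃ = s(X₃.getLast h₃, X₄.head h₄)) :
    ∃ Q' : List V, Q'.Nodup ∧ (∀ v, v ∈ Q' ↔ v ∈ Q) ∧ (∀ e ∈ E4, e ∈ ce Q') ∧
      ∀ e ∈ pe Q, e ≠ f₁ → e ≠ f₂ → e ≠ f₃ → e ∈ ce Q' := by
  refine ⟨Y₁ ++ Y₂ ++ Y₃ ++ Y₄, ?_, ?_, ?_, ?_⟩
  · rw [hperm.nodup_iff, ← hQ]
    exact hnd
  · intro v
    rw [hperm.mem_iff, hQ]
  · intro e he
    rw [ce_four Y₁ Y₂ Y₃ Y₄ k₁ k₂ k₃ k₄]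
    rcases hE e he with h | h | h | h <;> simp [h]
  · intro e he n₁ n₂ n₃
    rw [hQ, pe_four X₁ X₂ X₃ X₄ h₁ h₂ h₃ h₄] at he
    rw [ce_four Y₁ Y₂ Y₃ Y₄ k₁ k₂ k₃ k₄]
    have h5 : e ∈ pe Y₁ ∨ e ∈ pe Y₂ ∨ e ∈ pe Y₃ ∨ e ∈ pe Y₄ := by
      apply hpe
      rcases he with h | h | h | h | h | h | h
      · exact Or.inl h
      · exact Or.inr (Or.inl h)
      · exact Or.inr (Or.inr (Or.inl h))
      · exact Or.inr (Or.inr (Or.inr h))
      · exact absurd (h.trans hf₁.symm) n₁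
      · exact absurd (h.trans hf₂.symm) n₂
      · exact absurd (h.trans hf₃.symm) n₃
    rcases h5 with h | h | h | h
    · exact Or.inl h
    · exact Or.inr (Or.inl h)
    · exact Or.inr (Or.inr (Or.inl h))
    · exact Or.inr (Or.inr (Or.inr (Or.inl h)))

theorem Surg_split (x : ℕ → V) (Q : List V)
    (hx : ∀ i, ∀ h : i < Q.length, Q[i] = x i) (p q r : ℕ) (hp : 0 < p) (hpq : p < q)
    (hqr : q < r) (hr : r < Q.length) :
    ∃ X₁ X₂ X₃ X₄ : List V, ∃ (h₁ : X₁ ≠ []) (h₂ : X₂ ≠ []) (h₃ : X₃ ≠ []) (h₄ : X₄ ≠ []),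
      Q = X₁ ++ X₂ ++ X₃ ++ X₄ ∧ X₁.head h₁ = x 0 ∧ X₁.getLast h₁ = x (p - 1) ∧
      X₂.head h₂ = x p ∧ X₂.getLast h₂ = x (q - 1) ∧ X₃.head h₃ = x q ∧
      X₃.getLast h₃ = x (r - 1) ∧ X₄.head h₄ = x r ∧ X₄.getLast h₄ = x (Q.length - 1) := by
  have l₁ : (Q.take p).length = p := by rw [List.length_take]; omega
  have l₂ : ((Q.drop p).take (q - p)).length = q - p := by
    rw [List.length_take, List.length_drop]; omega
  have l₃ : ((Q.drop q).take (r - q)).length = r - q := by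
    rw [List.length_take, List.length_drop]; omega
  have l₄ : (Q.drop r).length = Q.length - r := by rw [List.length_drop]
  have h₁ : Q.take p ≠ [] := by intro h; rw [h] at l₁; simp at l₁; omega
  have h₂ : (Q.drop p).take (q - p) ≠ [] := by intro h; rw [h] at l₂; simp at l₂; omega
  have h₃ : (Q.drop q).take (r - q) ≠ [] := by intro h; rw [h] at l₃; simp at l₃; omega
  have h₄ : Q.drop r ≠ [] := by intro h; rw [h] at l₄; simp at l₄; omega
  refine ⟨Q.take p, (Q.drop p).take (q - p), (Q.drop q).take (r - q), Q.drop r, h₁, h₂, h₃, h₄,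
    ?_, ?_, ?_, ?_, ?_, ?_, ?_, ?_, ?_⟩
  · have e1 : Q.drop r = (Q.drop q).drop (r - q) := by
      rw [List.drop_drop]
      congr 1
      omega
    have e2 : Q.drop q = (Q.drop p).drop (q - p) := by
      rw [List.drop_drop]
      congr 1
      omega
    rw [e1, List.append_assoc, List.take_append_drop, e2, List.append_assoc,
      List.take_append_drop, List.take_append_drop]
  · rw [List.head_eq_getElem, List.getElem_take]
    exact hx 0 _
  · rw [List.getLast_eq_getElem, List.getElem_take]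
    rw [hx]
    rw [l₁]
  · rw [List.head_eq_getElem, List.getElem_take, List.getElem_drop]
    exact hx _ _
  · rw [List.getLast_eq_getElem, List.getElem_take, List.getElem_drop]
    rw [hx, l₂]
    congr 1
    omega
  · rw [List.head_eq_getElem, List.getElem_take, List.getElem_drop]
    exact hx _ _
  · rw [List.getLast_eq_getElem, List.getElem_take, List.getElem_drop]
    rw [hx, l₃]
    congr 1
    omega
  · rw [List.head_eq_getElem, List.getElem_drop]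
    exact hx _ _
  · rw [List.getLast_eq_getElem, List.getElem_drop]
    rw [hx, l₄]
    congr 1
    omega

/-- Cutting and reordering. Write `Q = X₁ ++ X₂ ++ X₃ ++ X₄` with
`X₁ = Q.take p`, `X₂ = (Q.drop p).take (q - p)`, `X₃ = (Q.drop q).take (r - q)`, `X₄ = Q.drop r`; their first
elements are `x 0, x p, x q, x r`, their last elements `x (p - 1), x (q - 1), x (r - 1), x (N - 1)`.
The new list `Q'` is (with `ᵣ` for the reversed list)
* case 0: `X₂ᵣ ++ X₄ ++ X₃ᵣ ++ X₁`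
* case 1: `X₁ᵣ ++ X₂ ++ X₄ ++ X₃ᵣ`
* case 2: `X₁ᵣ ++ X₂ ++ X₄ᵣ ++ X₃`
* case 3: `X₃ᵣ ++ X₄ᵣ ++ X₁ ++ X₂ᵣ`
* case 4: `X₃ᵣ ++ X₁ᵣ ++ X₄ ++ X₂`
* case 5: `X₂ᵣ ++ X₄ᵣ ++ X₁ᵣ ++ X₃`.
By `pe_four` an edge of `E` which is none of the three junctions is in one of the `pe Xᵢ`
(`mem_pe_reverse`), and the four junctions of `Q'` (`ce_four`) are the four new edges. -/
theorem reorder (c : Fin 6) (x : ℕ → V) (Q : List V) (hQ : Q.Nodup)
    (hx : ∀ i, ∀ h : i < Q.length, Q[i] = x i) (p q r : ℕ) (hp : 0 < p) (hpq : p < q)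
    (hqr : q < r) (hr : r < Q.length) :
    ∃ Q' : List V, Q'.Nodup ∧ (∀ v, v ∈ Q' ↔ v ∈ Q) ∧
      (∀ e ∈ newE x Q.length p q r c, e ∈ ce Q') ∧
      ∀ e ∈ pe Q, e ≠ s(x (p - 1), x p) → e ≠ s(x (q - 1), x q) → e ≠ s(x (r - 1), x r) →
        e ∈ ce Q' := by
  obtain ⟨X₁, X₂, X₃, X₄, h₁, h₂, h₃, h₄, hsp, a₁, b₁, a₂, b₂, a₃, b₃, a₄, b₄⟩ :=
    Surg_split x Q hx p q r hp hpq hqr hr
  have r₁ : X₁.reverse ≠ [] := by simpa using h₁
  have r₂ : X₂.reverse ≠ [] := by simpa using h₂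
  have r₃ : X₃.reverse ≠ [] := by simpa using h₃
  have r₄ : X₄.reverse ≠ [] := by simpa using h₄
  have f₁ : s(x (p - 1), x p) = s(X₁.getLast h₁, X₂.head h₂) := by rw [b₁, a₂]
  have f₂ : s(x (q - 1), x q) = s(X₂.getLast h₂, X₃.head h₃) := by rw [b₂, a₃]
  have f₃ : s(x (r - 1), x r) = s(X₃.getLast h₃, X₄.head h₄) := by rw [b₃, a₄]
  fin_cases c
  · refine Surg_gen (Y₁ := X₂.reverse) (Y₂ := X₄) (Y₃ := X₃.reverse) (Y₄ := X₁) h₁ h₂ h₃ h₄
      r₂ h₄ r₃ h₁ hsp hQ ?_ ?_ ?_ f₁ f₂ f₃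
    · rw [List.perm_iff_count]
      intro v
      simp only [List.count_append, List.count_reverse]
      ring
    · intro e he
      rw [mem_pe_reverse, mem_pe_reverse]
      tauto
    · intro e he
      simp only [newE, Finset.mem_insert, Finset.mem_singleton] at he
      rw [List.getLast_reverse, List.head_reverse, List.getLast_reverse, List.head_reverse,
        a₂, a₄, b₄, b₃, a₃, a₁, b₁, b₂]
      exact he
  · refine Surg_gen (Y₁ := X₁.reverse) (Y₂ := X₂) (Y₃ := X₄) (Y₄ := X₃.reverse) h₁ h₂ h₃ h₄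
      r₁ h₂ h₄ r₃ hsp hQ ?_ ?_ ?_ f₁ f₂ f₃
    · rw [List.perm_iff_count]
      intro v
      simp only [List.count_append, List.count_reverse]
      ring
    · intro e he
      rw [mem_pe_reverse, mem_pe_reverse]
      tauto
    · intro e he
      simp only [newE, Finset.mem_insert, Finset.mem_singleton] at he
      rw [List.getLast_reverse, List.head_reverse, List.getLast_reverse, List.head_reverse,
        a₁, a₂, b₂, a₄, b₄, b₃, a₃, b₁]
      exact he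
  · refine Surg_gen (Y₁ := X₁.reverse) (Y₂ := X₂) (Y₃ := X₄.reverse) (Y₄ := X₃) h₁ h₂ h₃ h₄
      r₁ h₂ r₄ h₃ hsp hQ ?_ ?_ ?_ f₁ f₂ f₃
    · rw [List.perm_iff_count]
      intro v
      simp only [List.count_append, List.count_reverse]
      ring
    · intro e he
      rw [mem_pe_reverse, mem_pe_reverse]
      tauto
    · intro e he
      simp only [newE, Finset.mem_insert, Finset.mem_singleton] at he
      rw [List.getLast_reverse, List.head_reverse, List.getLast_reverse, List.head_reverse,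
        a₁, a₂, b₂, b₄, a₄, a₃, b₃, b₁]
      exact he
  · refine Surg_gen (Y₁ := X₃.reverse) (Y₂ := X₄.reverse) (Y₃ := X₁) (Y₄ := X₂.reverse) h₁ h₂ h₃ h₄
      r₃ r₄ h₁ r₂ hsp hQ ?_ ?_ ?_ f₁ f₂ f₃
    · rw [List.perm_iff_count]
      intro v
      simp only [List.count_append, List.count_reverse]
      ring
    · intro e he
      rw [mem_pe_reverse, mem_pe_reverse, mem_pe_reverse]
      tauto
    · intro e he
      simp only [newE, Finset.mem_insert, Finset.mem_singleton] at he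
      simp only [List.getLast_reverse, List.head_reverse, a₁, a₂, a₃, a₄, b₁, b₂, b₃, b₄]
      exact he
  · refine Surg_gen (Y₁ := X₃.reverse) (Y₂ := X₁.reverse) (Y₃ := X₄) (Y₄ := X₂) h₁ h₂ h₃ h₄
      r₃ r₁ h₄ h₂ hsp hQ ?_ ?_ ?_ f₁ f₂ f₃
    · rw [List.perm_iff_count]
      intro v
      simp only [List.count_append, List.count_reverse]
      ring
    · intro e he
      rw [mem_pe_reverse, mem_pe_reverse]
      tauto
    · intro e he
      simp only [newE, Finset.mem_insert, Finset.mem_singleton] at he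
      simp only [List.getLast_reverse, List.head_reverse, a₁, a₂, a₃, a₄, b₁, b₂, b₃, b₄]
      exact he
  · refine Surg_gen (Y₁ := X₂.reverse) (Y₂ := X₄.reverse) (Y₃ := X₁.reverse) (Y₄ := X₃) h₁ h₂ h₃ h₄
      r₂ r₄ r₁ h₃ hsp hQ ?_ ?_ ?_ f₁ f₂ f₃
    · rw [List.perm_iff_count]
      intro v
      simp only [List.count_append, List.count_reverse]
      ring
    · intro e he
      rw [mem_pe_reverse, mem_pe_reverse, mem_pe_reverse]
      tauto
    · intro e he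
      simp only [newE, Finset.mem_insert, Finset.mem_singleton] at he
      simp only [List.getLast_reverse, List.head_reverse, a₁, a₂, a₃, a₄, b₁, b₂, b₃, b₄]
      exact he

end Pool.Agent.W_cd7020_h81
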