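import Pool.Agent.W_cd7020_h81.Ctx

/-!
# The new edge set after cutting and reordering
-/

set_option autoImplicit false

namespace Pool.Agent.W_cd7020_h81

open Finset

variable {V κ : Type*} [DecidableEq V] [DecidableEq κ] [Fintype V]

/-- The new edge set after cutting and reordering.

Proof. `E' = newE .. c ∪ {e ∈ E | e is none of the three cut edges}`. `Cyc` by `reorder`. The four new
edges `e₀, ..., e₃` (the elements of `newE .. c`) have distinct colours, not used by `E`. So `E'` is
rainbow and has at least `|E| - 3 + 4` elements. The cut edges contain a vertex of `Vf`, so they are not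
in `A`. `used E' ⊆ used E ∪ {col e₀, ..., col e₃}`. -/
theorem swap (col : Sym2 V → κ) (A : Finset (Sym2 V)) (G : Finset κ) (Res : Fin 4 → Finset κ)
    (U Vf : Finset V) (x₀ d s B : ℕ) (hC : Ctx col A G Res U Vf x₀ d s B)
    (x : ℕ → V) (Q : List V) (hQ : Q.Nodup) (hQU : ∀ v, v ∈ Q ↔ v ∈ U)
    (hx : ∀ i, ∀ h : i < Q.length, Q[i] = x i) (E : Finset (Sym2 V)) (hE : ∀ e ∈ E, e ∈ pe Q)
    (hA : A ⊆ E) (hR : Rb col E) (hG : ∀ e ∈ E, col e ∉ G)
    (p q r : ℕ) (hp : 0 < p) (hpq : p < q) (hqr : q < r) (hr : r < Q.length) (c : Fin 6)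
    (hcp : x (p - 1) ∈ Vf ∨ x p ∈ Vf) (hcq : x (q - 1) ∈ Vf ∨ x q ∈ Vf)
    (hcr : x (r - 1) ∈ Vf ∨ x r ∈ Vf)
    (e₀ e₁ e₂ e₃ : Sym2 V) (hc : newE x Q.length p q r c = {e₀, e₁, e₂, e₃})
    (h₀ : col e₀ ∈ Res 0 \ used col Res E) (h₁ : col e₁ ∈ Res 1 \ used col Res E)
    (h₂ : col e₂ ∈ Res 2 \ used col Res E) (h₃ : col e₃ ∈ Res 3 \ used col Res E) :
    ∃ E' : Finset (Sym2 V), Cyc U E' ∧ A ⊆ E' ∧ Rb col E' ∧ (∀ e ∈ E', col e ∉ G) ∧
      E.card + 1 ≤ E'.card ∧ (used col Res E').card ≤ (used col Res E).card + 4 := by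
  classical
  obtain ⟨Q', hn', hm', hnew, hold⟩ := reorder c x Q hQ hx p q r hp hpq hqr hr
  rw [hc] at hnew
  set f₁ : Sym2 V := s(x (p - 1), x p) with hf₁
  set f₂ : Sym2 V := s(x (q - 1), x q) with hf₂
  set f₃ : Sym2 V := s(x (r - 1), x r) with hf₃
  set F : Finset (Sym2 V) := E.filter (fun e => e ≠ f₁ ∧ e ≠ f₂ ∧ e ≠ f₃) with hF
  have hFE : ∀ e ∈ F, e ∈ E := fun e he => (Finset.mem_filter.1 he).1
  rw [Finset.mem_sdiff] at h₀ h₁ h₂ h₃
  -- colours of the new edges are not used by `F`
  have hcol : ∀ e ∈ F, ∀ g : Fin 4, ∀ k, k ∈ Res g → k ∉ used col Res E → col e ≠ k := by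
    intro e he g k hk hk' h
    apply hk'
    rw [← h] at hk ⊢
    exact Finset.mem_filter.2 ⟨Finset.mem_image_of_mem _ (hFE e he), g, hk⟩
  have hdis : ∀ g g' : Fin 4, g ≠ g' → ∀ k k', k ∈ Res g → k' ∈ Res g' → k ≠ k' := by
    intro g g' hg k k' hk hk' h
    rw [h] at hk
    exact (Finset.disjoint_left.1 (hC.resD g g' hg) hk) hk'
  have c01 : col e₀ ≠ col e₁ := hdis 0 1 (by decide) _ _ h₀.1 h₁.1
  have c02 : col e₀ ≠ col e₂ := hdis 0 2 (by decide) _ _ h₀.1 h₂.1
  have c03 : col e₀ ≠ col e₃ := hdis 0 3 (by decide) _ _ h₀.1 h₃.1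
  have c12 : col e₁ ≠ col e₂ := hdis 1 2 (by decide) _ _ h₁.1 h₂.1
  have c13 : col e₁ ≠ col e₃ := hdis 1 3 (by decide) _ _ h₁.1 h₃.1
  have c23 : col e₂ ≠ col e₃ := hdis 2 3 (by decide) _ _ h₂.1 h₃.1
  have hN4 : ({e₀, e₁, e₂, e₃} : Finset (Sym2 V)).card = 4 := by
    rw [Finset.card_insert_of_notMem, Finset.card_insert_of_notMem, Finset.card_insert_of_notMem,
      Finset.card_singleton]
    · rw [Finset.mem_singleton]
      exact fun h => c23 (by rw [h])
    · rw [Finset.mem_insert, Finset.mem_singleton]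
      rintro (h | h)
      · exact c12 (by rw [h])
      · exact c13 (by rw [h])
    · rw [Finset.mem_insert, Finset.mem_insert, Finset.mem_singleton]
      rintro (h | h | h)
      · exact c01 (by rw [h])
      · exact c02 (by rw [h])
      · exact c03 (by rw [h])
  have hmemN : ∀ e ∈ ({e₀, e₁, e₂, e₃} : Finset (Sym2 V)),
      ∃ g : Fin 4, col e ∈ Res g ∧ col e ∉ used col Res E := by
    intro e he
    simp only [Finset.mem_insert, Finset.mem_singleton] at he
    rcases he with rfl | rfl | rfl | rfl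
    · exact ⟨0, h₀⟩
    · exact ⟨1, h₁⟩
    · exact ⟨2, h₂⟩
    · exact ⟨3, h₃⟩
  have hdisj : Disjoint F ({e₀, e₁, e₂, e₃} : Finset (Sym2 V)) := by
    rw [Finset.disjoint_left]
    intro e he he'
    obtain ⟨g, hg, hg'⟩ := hmemN e he'
    exact hcol e he g _ hg hg' rfl
  refine ⟨F ∪ {e₀, e₁, e₂, e₃}, ⟨Q', hn', fun v => (hm' v).trans (hQU v), ?_⟩, ?_, ?_, ?_, ?_, ?_⟩
  · intro e he
    rcases Finset.mem_union.1 he with h | h
    · obtain ⟨h5, h6, h7, h8⟩ := Finset.mem_filter.1 h
      exact hold e (hE e h5) h6 h7 h8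
    · exact hnew e h
  · intro e he
    refine Finset.mem_union_left _ (Finset.mem_filter.2 ⟨hA he, ?_, ?_, ?_⟩)
    · intro h
      have h5 := hC.AVf e he
      rw [h] at h5
      rcases hcp with h6 | h6
      · exact h5 _ (Sym2.mem_mk_left _ _) h6
      · exact h5 _ (Sym2.mem_mk_right _ _) h6
    · intro h
      have h5 := hC.AVf e he
      rw [h] at h5
      rcases hcq with h6 | h6
      · exact h5 _ (Sym2.mem_mk_left _ _) h6
      · exact h5 _ (Sym2.mem_mk_right _ _) h6
    · intro h
      have h5 := hC.AVf e he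
      rw [h] at h5
      rcases hcr with h6 | h6
      · exact h5 _ (Sym2.mem_mk_left _ _) h6
      · exact h5 _ (Sym2.mem_mk_right _ _) h6
  · intro e he e' he' hee
    rcases Finset.mem_union.1 he with h | h <;> rcases Finset.mem_union.1 he' with h' | h'
    · exact hR e (hFE e h) e' (hFE e' h') hee
    · obtain ⟨g, hg, hg'⟩ := hmemN e' h'
      exact absurd hee (hcol e h g _ hg hg')
    · obtain ⟨g, hg, hg'⟩ := hmemN e h
      exact absurd hee.symm (hcol e' h' g _ hg hg')
    · simp only [Finset.mem_insert, Finset.mem_singleton] at h h'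
      rcases h with rfl | rfl | rfl | rfl <;> rcases h' with rfl | rfl | rfl | rfl <;>
        first
        | rfl
        | exact absurd hee c01
        | exact absurd hee c02
        | exact absurd hee c03
        | exact absurd hee c12
        | exact absurd hee c13
        | exact absurd hee c23
        | exact absurd hee.symm c01
        | exact absurd hee.symm c02
        | exact absurd hee.symm c03
        | exact absurd hee.symm c12
        | exact absurd hee.symm c13
        | exact absurd hee.symm c23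
  · intro e he
    rcases Finset.mem_union.1 he with h | h
    · exact hG e (hFE e h)
    · obtain ⟨g, hg, _⟩ := hmemN e h
      exact Finset.disjoint_left.1 (hC.resG g) hg
  · rw [Finset.card_union_of_disjoint hdisj, hN4]
    have h5 : E ⊆ F ∪ {f₁, f₂, f₃} := by
      intro e he
      by_cases h : e ≠ f₁ ∧ e ≠ f₂ ∧ e ≠ f₃
      · exact Finset.mem_union_left _ (Finset.mem_filter.2 ⟨he, h⟩)
      · refine Finset.mem_union_right _ ?_
        simp only [Finset.mem_insert, Finset.mem_singleton]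
        tauto
    have h6 := Finset.card_le_card h5
    have h7 := Finset.card_union_le F {f₁, f₂, f₃}
    have h8 : ({f₁, f₂, f₃} : Finset (Sym2 V)).card ≤ 3 := Finset.card_le_three
    omega
  · have h5 : used col Res (F ∪ {e₀, e₁, e₂, e₃}) ⊆
        used col Res E ∪ {col e₀, col e₁, col e₂, col e₃} := by
      intro k hk
      obtain ⟨h6, g, h7⟩ := Finset.mem_filter.1 hk
      obtain ⟨e, he, rfl⟩ := Finset.mem_image.1 h6
      rcases Finset.mem_union.1 he with h | h
      · exact Finset.mem_union_left _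
          (Finset.mem_filter.2 ⟨Finset.mem_image_of_mem _ (hFE e h), g, h7⟩)
      · refine Finset.mem_union_right _ ?_
        simp only [Finset.mem_insert, Finset.mem_singleton] at h ⊢
        rcases h with rfl | rfl | rfl | rfl <;> simp
    refine (Finset.card_le_card h5).trans ((Finset.card_union_le _ _).trans ?_)
    have h9 : ({col e₀, col e₁, col e₂, col e₃} : Finset κ).card ≤ 4 := Finset.card_le_four
    omega

end Pool.Agent.W_cd7020_h81
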