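import Pool.Agent.W_cd7020_h81.GenF

/-!
# Random maps: tail estimates by counting
-/

set_option autoImplicit false

namespace Pool.Agent.W_cd7020_h81

open Finset

variable {κ : Type*} [DecidableEq κ] [Fintype κ]

/-- Lower tail. `2 ^ (-Z) ≥ 2 ^ (-s)` if `Z < s`; by `gen_fun` with `t = 1 / 2` the number is at most
`2 ^ s · P ^ card κ · (1 - 1 / (2 P)) ^ |K|`, and
`(1 - 1 / (2 P)) ^ |K| ≤ exp (-|K| / (2 P)) ≤ 2 ^ (-(|K| / (2 P)))` (`Real.add_one_le_exp`, `2 ≤ exp 1`). -/
theorem lower_tail (P : ℕ) (hP : 1 ≤ P) (g : Fin P) (K : Finset κ) (s : ℕ) :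
    (univ.filter (fun f : κ → Fin P => (K.filter (fun k => f k = g)).card < s)).card *
      2 ^ (K.card / (2 * P)) ≤ 2 ^ s * P ^ Fintype.card κ := by
  have hP0 : (0 : ℝ) < P := by exact_mod_cast hP
  have hK : K.card ≤ Fintype.card κ := Finset.card_le_univ K
  have h1 := gen_fun P g K (1 / 2)
  have h2 : ((univ.filter (fun f : κ → Fin P => (K.filter (fun k => f k = g)).card < s)).card : ℝ) *
      (1 / 2) ^ s ≤ ∑ f : κ → Fin P, (1 / 2 : ℝ) ^ (K.filter (fun k => f k = g)).card := by
    rw [← nsmul_eq_mul, ← Finset.sum_const]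
    refine (Finset.sum_le_sum fun f hf => ?_).trans
      (Finset.sum_le_sum_of_subset_of_nonneg (Finset.filter_subset _ _) fun f _ _ => by positivity)
    exact pow_le_pow_of_le_one (by norm_num) (by norm_num) (Finset.mem_filter.1 hf).2.le
  have h3 : (P : ℝ) ^ (Fintype.card κ - K.card) * (P - 1 + 1 / 2) ^ K.card ≤
      (P : ℝ) ^ Fintype.card κ * (1 / 2) ^ (K.card / (2 * P)) := by
    have h4 : (P : ℝ) - 1 + 1 / 2 = P * (1 - 1 / (2 * P)) := by
      field_simp
      ring
    have h5 : (1 : ℝ) - 1 / (2 * P) ≤ Real.exp (-(1 / (2 * P))) := by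
      have := Real.add_one_le_exp (-(1 / (2 * (P : ℝ))))
      linarith
    have h6 : (0 : ℝ) ≤ 1 - 1 / (2 * P) := by
      rw [sub_nonneg, div_le_one (by positivity)]
      have : (1 : ℝ) ≤ P := by exact_mod_cast hP
      linarith
    have h7 : (1 - 1 / (2 * (P : ℝ))) ^ K.card ≤ (1 / 2) ^ (K.card / (2 * P)) := by
      calc (1 - 1 / (2 * (P : ℝ))) ^ K.card ≤ Real.exp (-(1 / (2 * P))) ^ K.card :=
            pow_le_pow_left₀ h6 h5 _
        _ = Real.exp (-((K.card : ℝ) / (2 * P))) := by
            rw [← Real.exp_nat_mul]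
            congr 1
            ring
        _ ≤ Real.exp (-((K.card / (2 * P) : ℕ) : ℝ)) := by
            rw [Real.exp_le_exp]
            have := @Nat.cast_div_le ℝ _ _ _ K.card (2 * P)
            push_cast at this
            linarith
        _ = (Real.exp (-1)) ^ (K.card / (2 * P)) := by
            rw [← Real.exp_nat_mul]
            congr 1
            ring
        _ ≤ (1 / 2) ^ (K.card / (2 * P)) := by
            refine pow_le_pow_left₀ (Real.exp_pos _).le ?_ _
            rw [Real.exp_neg, inv_eq_one_div]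
            refine one_div_le_one_div_of_le (by norm_num) ?_
            have := Real.add_one_le_exp (1 : ℝ)
            linarith
    rw [h4, mul_pow, ← mul_assoc, ← pow_add, Nat.sub_add_cancel hK]
    exact mul_le_mul_of_nonneg_left h7 (by positivity)
  have h8 : ((univ.filter (fun f : κ → Fin P => (K.filter (fun k => f k = g)).card < s)).card : ℝ) *
      (1 / 2) ^ s ≤ (P : ℝ) ^ Fintype.card κ * (1 / 2) ^ (K.card / (2 * P)) :=
    (h2.trans h1.le).trans h3
  have h9 : ((univ.filter (fun f : κ → Fin P => (K.filter (fun k => f k = g)).card < s)).card : ℝ) *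
      2 ^ (K.card / (2 * P)) ≤ 2 ^ s * (P : ℝ) ^ Fintype.card κ := by
    rw [one_div, inv_pow, inv_pow] at h8
    rw [← div_eq_mul_inv, ← div_eq_mul_inv, div_le_div_iff₀ (by positivity) (by positivity)] at h8
    linarith
  exact_mod_cast h9

/-- Upper tail. By `gen_fun` with `t = 2` the number is at most
`2 ^ (-s) · P ^ card κ · (1 + 1 / P) ^ |K|`, and `(1 + 1 / P) ^ |K| ≤ exp (|K| / P) ≤ 4 ^ (|K| / P + 1)`. -/
theorem upper_tail (P : ℕ) (hP : 1 ≤ P) (g : Fin P) (K : Finset κ) (s : ℕ) :
    (univ.filter (fun f : κ → Fin P => s ≤ (K.filter (fun k => f k = g)).card)).card *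
      2 ^ s ≤ 4 ^ (K.card / P + 1) * P ^ Fintype.card κ := by
  have hP0 : (0 : ℝ) < P := by exact_mod_cast hP
  have hK : K.card ≤ Fintype.card κ := Finset.card_le_univ K
  have h1 := gen_fun P g K 2
  have h2 : ((univ.filter (fun f : κ → Fin P => s ≤ (K.filter (fun k => f k = g)).card)).card : ℝ) *
      2 ^ s ≤ ∑ f : κ → Fin P, (2 : ℝ) ^ (K.filter (fun k => f k = g)).card := by
    rw [← nsmul_eq_mul, ← Finset.sum_const]
    refine (Finset.sum_le_sum fun f hf => ?_).trans
      (Finset.sum_le_sum_of_subset_of_nonneg (Finset.filter_subset _ _) fun f _ _ => by positivity)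
    exact pow_le_pow_right₀ (by norm_num) (Finset.mem_filter.1 hf).2
  have h3 : (P : ℝ) ^ (Fintype.card κ - K.card) * (P - 1 + 2) ^ K.card ≤
      4 ^ (K.card / P + 1) * (P : ℝ) ^ Fintype.card κ := by
    have h4 : (P : ℝ) - 1 + 2 = P * (1 + 1 / P) := by
      field_simp
      ring
    have h5 : (1 : ℝ) + 1 / P ≤ Real.exp (1 / P) := by
      have := Real.add_one_le_exp (1 / (P : ℝ))
      linarith
    have h7 : (1 + 1 / (P : ℝ)) ^ K.card ≤ 4 ^ (K.card / P + 1) := by
      calc (1 + 1 / (P : ℝ)) ^ K.card ≤ Real.exp (1 / P) ^ K.card :=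
            pow_le_pow_left₀ (by positivity) h5 _
        _ = Real.exp ((K.card : ℝ) / P) := by
            rw [← Real.exp_nat_mul]
            congr 1
            ring
        _ ≤ Real.exp (((K.card / P + 1 : ℕ) : ℝ)) := by
            rw [Real.exp_le_exp, div_le_iff₀ hP0]
            have h6 : K.card < (K.card / P + 1) * P := by
              have := Nat.lt_div_mul_add (a := K.card) (b := P) (by omega)
              rw [add_mul, one_mul]
              exact this
            exact_mod_cast h6.le
        _ = (Real.exp 1) ^ (K.card / P + 1) := by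
            rw [← Real.exp_nat_mul, mul_one]
        _ ≤ 4 ^ (K.card / P + 1) := by
            refine pow_le_pow_left₀ (Real.exp_pos _).le ?_ _
            have := Real.exp_one_lt_d9
            linarith
    rw [h4, mul_pow, ← mul_assoc, ← pow_add, Nat.sub_add_cancel hK, mul_comm]
    exact mul_le_mul_of_nonneg_right h7 (by positivity)
  have h8 := (h2.trans h1.le).trans h3
  exact_mod_cast h8

end Pool.Agent.W_cd7020_h81
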