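import Pool.Agent.W_cd7020_h81.RareC

/-!
# One greedy step in the choice of triangles
-/

set_option autoImplicit false

namespace Pool.Agent.W_cd7020_h81

open Finset

variable {V κ : Type*} [DecidableEq V] [DecidableEq κ] [Fintype V]

/-- One greedy step. `X` is the set of used vertices, `Y` the set of used colours.

Proof. For each `k ∈ rare col l \ Y` which is not the colour of an edge meeting `X` (there are at
least `|rare| - |Y| - |X| n` such `k`) choose one edge of colour `k`; all its vertices are outside `X`.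
This gives a set `S` of more than `n (|Y| + 3)` edges with distinct colours. Some vertex `v` is in at
least `|Y| + 3` of them (`∑ v, deg v = 2 |S|`); let `a` be the other end of one of them, and consider the
other ends `b ≠ a` of the others (at least `|Y| + 2` of them); the edges `a b` have distinct colours, so
for one of them `col s(a, b) ∉ Y`. The three colours of the triangle are distinct by `Proper`. -/
theorem tri_step (col : Sym2 V → κ) (hcol : Proper col) (l : ℕ) (X : Finset V) (Y : Finset κ)
    (h : X.card * Fintype.card V + Y.card + Fintype.card V * (Y.card + 3) < (rare col l).card) :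
    ∃ v a b : V, v ∉ X ∧ a ∉ X ∧ b ∉ X ∧ v ≠ a ∧ v ≠ b ∧ a ≠ b ∧
      col s(v, a) ∉ Y ∧ col s(v, b) ∉ Y ∧ col s(a, b) ∉ Y ∧
      col s(v, a) ∈ rare col l ∧ col s(v, b) ∈ rare col l := by
  classical
  set n := Fintype.card V with hn
  set B : Finset κ := (X ×ˢ (univ : Finset V)).image (fun q => col s(q.1, q.2)) with hB
  set T : Finset κ := (rare col l \ Y) \ B with hTdef
  have hBc : B.card ≤ X.card * n := by
    refine Finset.card_image_le.trans ?_
    rw [Finset.card_product, Finset.card_univ]
  have hT : n * (Y.card + 3) < T.card := by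
    have h1 := Finset.le_card_sdiff Y (rare col l)
    have h2 := Finset.le_card_sdiff B (rare col l \ Y)
    have h3 := Nat.sub_le_iff_le_add.1 h1
    have h4 := Nat.sub_le_iff_le_add.1 h2
    linarith
  have hpair : ∀ k ∈ T, ∃ q : V × V, q.1 ≠ q.2 ∧ col s(q.1, q.2) = k := by
    intro k hk
    rw [hTdef, Finset.mem_sdiff, Finset.mem_sdiff] at hk
    have h1 := hk.1.1
    unfold rare at h1
    rw [Finset.mem_filter, Finset.mem_image] at h1
    obtain ⟨⟨e, he, hek⟩, -⟩ := h1
    unfold edg at he
    rw [Finset.mem_filter] at he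
    induction e using Sym2.ind with
    | _ u w =>
      refine ⟨(u, w), ?_, hek⟩
      intro huw
      exact he.2 (Sym2.mk_isDiag_iff.2 huw)
  have hTpos : 0 < T.card := by omega
  obtain ⟨k0, hk0⟩ := Finset.card_pos.1 hTpos
  have : Nonempty (V × V) := ⟨(hpair k0 hk0).choose⟩
  choose! q hq using hpair
  obtain ⟨v, -, hv⟩ := Finset.exists_lt_card_fiber_of_mul_lt_card_of_maps_to
    (s := T) (t := (univ : Finset V)) (f := fun k => (q k).1) (n := Y.card + 3)
    (fun k _ => Finset.mem_univ _) (by rw [Finset.card_univ]; exact hT)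
  set F := T.filter (fun k => (q k).1 = v) with hF
  have hFk : ∀ k ∈ F, v ≠ (q k).2 ∧ col s(v, (q k).2) = k ∧ k ∈ T := by
    intro k hk
    rw [hF, Finset.mem_filter] at hk
    have h1 := hq k hk.1
    rw [hk.2] at h1
    exact ⟨h1.1, h1.2, hk.1⟩
  have hTX : ∀ u w : V, col s(u, w) ∈ T → u ∉ X := by
    intro u w huw hu
    rw [hTdef, Finset.mem_sdiff] at huw
    apply huw.2
    rw [hB, Finset.mem_image]
    exact ⟨(u, w), Finset.mem_product.2 ⟨hu, Finset.mem_univ _⟩, rfl⟩
  set W := F.image (fun k => (q k).2) with hW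
  have hWc : W.card = F.card := by
    rw [hW, Finset.card_image_of_injOn]
    intro k hk k' hk' hkk
    have h1 := hFk k hk
    have h2 := hFk k' hk'
    have hkk' : (q k).2 = (q k').2 := hkk
    rw [← h1.2.1, ← h2.2.1, hkk']
  have hWw : ∀ w ∈ W, v ≠ w ∧ col s(v, w) ∈ T := by
    intro w hw
    rw [hW, Finset.mem_image] at hw
    obtain ⟨k, hk, rfl⟩ := hw
    have h1 := hFk k hk
    refine ⟨h1.1, ?_⟩
    rw [h1.2.1]
    exact h1.2.2
  obtain ⟨a, ha⟩ : ∃ a, a ∈ W := by
    have : 0 < W.card := by omega
    exact Finset.card_pos.1 this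
  have hWa : Y.card < (W.erase a).card := by
    rw [Finset.card_erase_of_mem ha]
    omega
  obtain ⟨b, hb, hab⟩ : ∃ b ∈ W.erase a, col s(a, b) ∉ Y := by
    by_contra hcon
    push Not at hcon
    have h1 : (W.erase a).card ≤ Y.card := by
      refine Finset.card_le_card_of_injOn (fun b => col s(a, b)) (fun b hb => hcon b hb) ?_
      intro b hb c hc hbc
      by_contra hne
      exact hcol a b c (Ne.symm (Finset.ne_of_mem_erase hb)) (Ne.symm (Finset.ne_of_mem_erase hc))
        hne hbc
    omega
  have hva := hWw a ha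
  have hvb := hWw b (Finset.mem_of_mem_erase hb)
  have hmem : ∀ w, col s(v, w) ∈ T → col s(v, w) ∉ Y ∧ col s(v, w) ∈ rare col l := by
    intro w hw
    rw [hTdef, Finset.mem_sdiff, Finset.mem_sdiff] at hw
    exact ⟨hw.1.2, hw.1.1⟩
  have hsw : ∀ w, col s(v, w) ∈ T → w ∉ X := by
    intro w hw
    refine hTX w v ?_
    rw [Sym2.eq_swap]
    exact hw
  exact ⟨v, a, b, hTX v a hva.2, hsw a hva.2, hsw b hvb.2, hva.1, hvb.1,
    Ne.symm (Finset.ne_of_mem_erase hb), (hmem a hva.2).1, (hmem b hvb.2).1, hab,
    (hmem a hva.2).2, (hmem b hvb.2).2⟩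

end Pool.Agent.W_cd7020_h81
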