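import Pool.Agent.W_cd7020_h81.Tail

/-!
# Random maps: the union bound
-/

set_option autoImplicit false

namespace Pool.Agent.W_cd7020_h81

open Finset

variable {κ : Type*} [DecidableEq κ] [Fintype κ]

/-- The number of bad maps for one family. -/
theorem Union_aux {ι : Type*} (L : Finset ι) (N : ℕ) (bad : ι → Finset (κ → Fin N)) (a b T : ℕ)
    (h : ∀ i ∈ L, (bad i).card * a ≤ b * T) (ha : 0 < a) (hab : L.card * 16 * b ≤ a)
    [DecidableEq (κ → Fin N)] : (L.biUnion bad).card * 16 ≤ T := by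
  have h1 : (L.biUnion bad).card * a ≤ L.card * b * T := by
    calc (L.biUnion bad).card * a ≤ (∑ i ∈ L, (bad i).card) * a :=
          Nat.mul_le_mul_right _ Finset.card_biUnion_le
      _ = ∑ i ∈ L, (bad i).card * a := Finset.sum_mul _ _ _
      _ ≤ ∑ i ∈ L, b * T := Finset.sum_le_sum h
      _ = L.card * b * T := by rw [Finset.sum_const, smul_eq_mul, mul_assoc]
  have h2 : (L.biUnion bad).card * 16 * a ≤ T * a := by
    calc (L.biUnion bad).card * 16 * a = 16 * ((L.biUnion bad).card * a) := by ring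
      _ ≤ 16 * (L.card * b * T) := Nat.mul_le_mul_left _ h1
      _ = L.card * 16 * b * T := by ring
      _ ≤ a * T := Nat.mul_le_mul_right _ hab
      _ = T * a := mul_comm _ _
  exact Nat.le_of_mul_le_mul_right h2 ha

/-- Union bound. `L₁`, `L₂` are families of sets of colours for which the number of elements mapped to
`g` (for each of the four values `g < 4`) should be large, `W` a family for which it should be small.
For each `g` and each of the three families the number of bad maps is at most `P ^ card κ / 16`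
(`lower_tail`, `upper_tail`), in total at most `12 / 16` of all maps. -/
theorem union_bound (P : ℕ) (hP : 4 ≤ P) (L₁ L₂ W : Finset (Finset κ)) (l₁ s₁ l₂ s₂ u s₃ : ℕ)
    (hL₁ : ∀ K ∈ L₁, l₁ ≤ K.card) (hL₂ : ∀ K ∈ L₂, l₂ ≤ K.card) (hW : ∀ K ∈ W, K.card ≤ u)
    (h₁ : L₁.card * 16 * 2 ^ s₁ ≤ 2 ^ (l₁ / (2 * P)))
    (h₂ : L₂.card * 16 * 2 ^ s₂ ≤ 2 ^ (l₂ / (2 * P)))
    (h₃ : W.card * 16 * 4 ^ (u / P + 1) ≤ 2 ^ s₃) :
    ∃ f : κ → Fin P, ∀ g : Fin P, g.val < 4 →
      (∀ K ∈ L₁, s₁ ≤ (K.filter (fun k => f k = g)).card) ∧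
      (∀ K ∈ L₂, s₂ ≤ (K.filter (fun k => f k = g)).card) ∧
      ∀ K ∈ W, (K.filter (fun k => f k = g)).card < s₃ := by
  classical
  set T := P ^ Fintype.card κ with hT
  let B₁ : Fin P → Finset (κ → Fin P) := fun g => L₁.biUnion fun K =>
    univ.filter (fun f : κ → Fin P => (K.filter (fun k => f k = g)).card < s₁)
  let B₂ : Fin P → Finset (κ → Fin P) := fun g => L₂.biUnion fun K =>
    univ.filter (fun f : κ → Fin P => (K.filter (fun k => f k = g)).card < s₂)
  let B₃ : Fin P → Finset (κ → Fin P) := fun g => W.biUnion fun K =>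
    univ.filter (fun f : κ → Fin P => s₃ ≤ (K.filter (fun k => f k = g)).card)
  have b1 : ∀ g, (B₁ g).card * 16 ≤ T := fun g =>
    Union_aux L₁ P _ (2 ^ (l₁ / (2 * P))) (2 ^ s₁) T (fun K hK =>
      (Nat.mul_le_mul_left _ (Nat.pow_le_pow_right (by norm_num)
        (Nat.div_le_div_right (hL₁ K hK)))).trans (lower_tail P (by omega) g K s₁))
      (by positivity) h₁
  have b2 : ∀ g, (B₂ g).card * 16 ≤ T := fun g =>
    Union_aux L₂ P _ (2 ^ (l₂ / (2 * P))) (2 ^ s₂) T (fun K hK =>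
      (Nat.mul_le_mul_left _ (Nat.pow_le_pow_right (by norm_num)
        (Nat.div_le_div_right (hL₂ K hK)))).trans (lower_tail P (by omega) g K s₂))
      (by positivity) h₂
  have b3 : ∀ g, (B₃ g).card * 16 ≤ T := fun g =>
    Union_aux W P _ (2 ^ s₃) (4 ^ (u / P + 1)) T (fun K hK =>
      (upper_tail P (by omega) g K s₃).trans (Nat.mul_le_mul_right _ (Nat.pow_le_pow_right
        (by norm_num) (Nat.add_le_add_right (Nat.div_le_div_right (hW K hK)) 1))))
      (by positivity) h₃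
  let G : Finset (Fin P) := univ.filter (fun g => g.val < 4)
  have hG : G.card ≤ 4 := by
    have h1 : G.card ≤ (Finset.range 4).card :=
      Finset.card_le_card_of_injOn (fun g => g.val)
        (fun g hg => by
          have := (Finset.mem_filter.1 hg).2
          simpa using this)
        (fun g _ g' _ h => Fin.ext h)
    simpa using h1
  let Bad : Finset (κ → Fin P) := G.biUnion fun g => B₁ g ∪ B₂ g ∪ B₃ g
  have hBad : Bad.card * 16 ≤ 12 * T := by
    calc Bad.card * 16 ≤ (∑ g ∈ G, (B₁ g ∪ B₂ g ∪ B₃ g).card) * 16 :=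
          Nat.mul_le_mul_right _ Finset.card_biUnion_le
      _ = ∑ g ∈ G, (B₁ g ∪ B₂ g ∪ B₃ g).card * 16 := Finset.sum_mul _ _ _
      _ ≤ ∑ g ∈ G, 3 * T := by
          refine Finset.sum_le_sum fun g _ => ?_
          have h1 := Finset.card_union_le (B₁ g ∪ B₂ g) (B₃ g)
          have h2 := Finset.card_union_le (B₁ g) (B₂ g)
          have h3 := b1 g
          have h4 := b2 g
          have h5 := b3 g
          omega
      _ = G.card * (3 * T) := by rw [Finset.sum_const, smul_eq_mul]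
      _ ≤ 4 * (3 * T) := Nat.mul_le_mul_right _ hG
      _ = 12 * T := by ring
  have hTpos : 0 < T := pow_pos (by omega) _
  have hlt : Bad.card < (univ : Finset (κ → Fin P)).card := by
    rw [Finset.card_univ, Fintype.card_fun, Fintype.card_fin, ← hT]
    omega
  obtain ⟨f, -, hf⟩ := Finset.exists_mem_notMem_of_card_lt_card hlt
  have hf' : ∀ g : Fin P, g.val < 4 → f ∉ B₁ g ∧ f ∉ B₂ g ∧ f ∉ B₃ g := by
    intro g hg
    have hgG : g ∈ G := Finset.mem_filter.2 ⟨Finset.mem_univ _, hg⟩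
    have h1 : f ∉ B₁ g ∪ B₂ g ∪ B₃ g := fun h => hf (Finset.mem_biUnion.2 ⟨g, hgG, h⟩)
    rw [Finset.mem_union, Finset.mem_union, not_or, not_or] at h1
    exact ⟨h1.1.1, h1.1.2, h1.2⟩
  refine ⟨f, fun g hg => ⟨fun K hK => ?_, fun K hK => ?_, fun K hK => ?_⟩⟩
  · by_contra hlt'
    exact (hf' g hg).1 (Finset.mem_biUnion.2 ⟨K, hK, Finset.mem_filter.2
      ⟨Finset.mem_univ _, not_le.1 hlt'⟩⟩)
  · by_contra hlt'
    exact (hf' g hg).2.1 (Finset.mem_biUnion.2 ⟨K, hK, Finset.mem_filter.2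
      ⟨Finset.mem_univ _, not_le.1 hlt'⟩⟩)
  · by_contra hlt'
    exact (hf' g hg).2.2 (Finset.mem_biUnion.2 ⟨K, hK, Finset.mem_filter.2
      ⟨Finset.mem_univ _, not_lt.1 hlt'⟩⟩)

end Pool.Agent.W_cd7020_h81
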